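import Pool.Agent.Helper73.RCS.Sub

/-!
RCS-4 (cocircuits of a bad system).  `D ⊆ E`, `rk (E \ D) + 2 ≤ 2 * h` (so `D` is not empty).  Put
`F = E \ D`, `|F| = 4 h - 1 - |D|`.

coc_notin (`e0 ∉ D`): suppose `|D| ≤ 3`.  If `D` contains no full colour class then `nc F = 2 h` and
`sub_merge` gives `h + 1 + (2 h - 1 - |D|) / 2 ≤ rk F ≤ 2 h - 2`, false.  Otherwise it contains exactly one,
`nc F = 2 h - 1` and `sub_ineq` gives `h + (2 h - |D| + 1) / 2 ≤ rk F`, false.

coc_in (`e0 ∈ D`): if `|D| ≤ 3` and `D \ {e0}` is not a colour class then `nc F = 2 h - 1` and `sub_ineq`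
gives `h + (2 h - |D| + 1) / 2 ≤ rk F ≤ 2 h - 2`, false.
-/

namespace RC

open Submodule Module

variable {C : ClsT} {ι κ V : Type} [DecidableEq ι] [AddCommGroup V] [Module ℚ V] {h : ℕ}
  {v : ι → V} {c : ι → κ} {E : Finset ι} {e0 : ι}

theorem h47_nc_le_insert (c : ι → κ) (E F : Finset ι) (k : κ)
    (h : ∀ e ∈ E, c e = k ∨ ∃ f ∈ F, c f = c e) : nc c E ≤ nc c F + 1 := by
  classical
  unfold nc
  refine le_trans (Finset.card_le_card (t := insert k (F.image c)) ?_) (Finset.card_insert_le _ _)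
  intro a ha
  obtain ⟨e, he, rfl⟩ := Finset.mem_image.mp ha
  rcases h e he with h1 | ⟨f, hf, h2⟩
  · rw [h1]; exact Finset.mem_insert_self _ _
  · exact Finset.mem_insert_of_mem (Finset.mem_image.mpr ⟨f, hf, h2⟩)

theorem h47_nc_le (c : ι → κ) (E F : Finset ι)
    (h : ∀ e ∈ E, ∃ f ∈ F, c f = c e) : nc c E ≤ nc c F := by
  classical
  unfold nc
  refine Finset.card_le_card ?_
  intro a ha
  obtain ⟨e, he, rfl⟩ := Finset.mem_image.mp ha
  obtain ⟨f, hf, h2⟩ := h e he
  exact Finset.mem_image.mpr ⟨f, hf, h2⟩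

theorem h47_nc_lt (c : ι → κ) (E F : Finset ι) (x : ι) (hx : x ∈ E) (hF : F ⊆ E)
    (h : ∀ f ∈ F, c f ≠ c x) : nc c F + 1 ≤ nc c E := by
  classical
  unfold nc
  refine Finset.card_lt_card ?_
  rw [Finset.ssubset_iff_of_subset (Finset.image_subset_image hF)]
  refine ⟨c x, Finset.mem_image_of_mem c hx, ?_⟩
  intro hm
  obtain ⟨f, hf, h2⟩ := Finset.mem_image.mp hm
  exact h f hf h2

theorem coc_notin (hC : Cls C) (hB : Bad C h v c E e0) {D : Finset ι} (hD : D ⊆ E)
    (he : e0 ∉ D) (hr : rk v (E \ D) + 2 ≤ 2 * h) : 4 ≤ D.card := by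
  by_contra hcon
  have hh := hB.two_le
  have hFc : (E \ D).card + D.card = E.card := Finset.card_sdiff_add_card_eq_card hD
  have hE := hB.card
  have hn := hB.nc_eq
  have hsub : E \ D ⊆ E := Finset.sdiff_subset
  by_cases hp : ∃ x ∈ D, ∃ y ∈ D, x ≠ y ∧ c x = c y
  · obtain ⟨x, hx, y, hy, hxy, hc⟩ := hp
    have hlow : nc c E ≤ nc c (E \ D) + 1 := by
      refine h47_nc_le_insert c E (E \ D) (c x) ?_
      intro e heE
      by_cases hce : c e = c x
      · exact Or.inl hce
      · right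
        by_cases heD : e ∈ D
        · have hne0 : e ≠ e0 := fun h => he (h ▸ heD)
          obtain ⟨e', he', hne', hc'⟩ := hB.partner e heE hne0
          refine ⟨e', Finset.mem_sdiff.mpr ⟨he', ?_⟩, hc'⟩
          intro heD'
          have h4 : ({x, y, e, e'} : Finset ι) ⊆ D := by
            intro z hz
            simp only [Finset.mem_insert, Finset.mem_singleton] at hz
            rcases hz with rfl | rfl | rfl | rfl <;> assumption
          have hcard : ({x, y, e, e'} : Finset ι).card = 4 := by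
            rw [Finset.card_insert_of_notMem, Finset.card_insert_of_notMem,
              Finset.card_insert_of_notMem, Finset.card_singleton]
            · simpa using hne'.symm
            · simp only [Finset.mem_insert, Finset.mem_singleton, not_or]
              exact ⟨fun h => hce (by rw [← h, hc]), fun h => hce (by rw [← hc', ← h, hc])⟩
            · simp only [Finset.mem_insert, Finset.mem_singleton, not_or]
              exact ⟨hxy, fun h => hce (by rw [← h]), fun h => hce (by rw [← hc', ← h])⟩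
          have := Finset.card_le_card h4
          omega
        · exact ⟨e, Finset.mem_sdiff.mpr ⟨heE, heD⟩, rfl⟩
    have hup : nc c (E \ D) + 1 ≤ nc c E := by
      refine h47_nc_lt c E (E \ D) x (hD hx) hsub ?_
      intro f hf hcf
      rw [Finset.mem_sdiff] at hf
      rcases hB.sys.two x (hD hx) y (hD hy) f hf.1 hc hcf.symm with h | h | h
      · exact hxy h
      · exact hf.2 (h ▸ hx)
      · exact hf.2 (h ▸ hy)
    have h1 : rk v (E \ D) + 1 ≤ nc c (E \ D) := by omega
    have h2 := sub_ineq hC hB hsub h1 hr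
    omega
  · have hlow : nc c E ≤ nc c (E \ D) := by
      refine h47_nc_le c E (E \ D) ?_
      intro e heE
      by_cases heD : e ∈ D
      · have hne0 : e ≠ e0 := fun h => he (h ▸ heD)
        obtain ⟨e', he', hne', hc'⟩ := hB.partner e heE hne0
        refine ⟨e', Finset.mem_sdiff.mpr ⟨he', ?_⟩, hc'⟩
        intro heD'
        exact hp ⟨e, heD, e', heD', hne'.symm, hc'.symm⟩
      · exact ⟨e, Finset.mem_sdiff.mpr ⟨heE, heD⟩, rfl⟩
    have hup : nc c (E \ D) ≤ nc c E := h47_nc_le c (E \ D) E (fun e he => ⟨e, hsub he, rfl⟩)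
    have h1 : rk v (E \ D) + 2 ≤ nc c (E \ D) := by omega
    have h2 := sub_merge hC hB hsub h1 hr
    omega

theorem coc_in (hC : Cls C) (hB : Bad C h v c E e0) {D : Finset ι} (hD : D ⊆ E)
    (he : e0 ∈ D) (hr : rk v (E \ D) + 2 ≤ 2 * h) :
    3 ≤ D.card ∧ (D.card = 3 → ∃ x ∈ D, ∃ y ∈ D, x ≠ y ∧ x ≠ e0 ∧ y ≠ e0 ∧ c x = c y ∧
      ∀ d ∈ D, d = e0 ∨ d = x ∨ d = y) := by
  by_cases h4 : 4 ≤ D.card
  · exact ⟨by omega, fun h3 => by omega⟩
  have hh := hB.two_le
  have hFc : (E \ D).card + D.card = E.card := Finset.card_sdiff_add_card_eq_card hD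
  have hE := hB.card
  have hn := hB.nc_eq
  have hsub : E \ D ⊆ E := Finset.sdiff_subset
  have key : ∃ x ∈ D, ∃ y ∈ D, x ≠ y ∧ x ≠ e0 ∧ y ≠ e0 ∧ c x = c y := by
    by_contra hp
    have hlow : nc c E ≤ nc c (E \ D) + 1 := by
      refine h47_nc_le_insert c E (E \ D) (c e0) ?_
      intro e heE
      by_cases hce : e = e0
      · exact Or.inl (by rw [hce])
      · right
        by_cases heD : e ∈ D
        · obtain ⟨e', he', hne', hc'⟩ := hB.partner e heE hce
          refine ⟨e', Finset.mem_sdiff.mpr ⟨he', ?_⟩, hc'⟩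
          intro heD'
          refine hp ⟨e, heD, e', heD', hne'.symm, hce, ?_, hc'.symm⟩
          intro h
          apply hce
          apply hB.single e heE
          rw [← hc', h]
        · exact ⟨e, Finset.mem_sdiff.mpr ⟨heE, heD⟩, rfl⟩
    have hup : nc c (E \ D) + 1 ≤ nc c E := by
      refine h47_nc_lt c E (E \ D) e0 hB.mem0 hsub ?_
      intro f hf hcf
      rw [Finset.mem_sdiff] at hf
      have := hB.single f hf.1 hcf
      exact hf.2 (this ▸ he)
    have h1 : rk v (E \ D) + 1 ≤ nc c (E \ D) := by omega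
    have h2 := sub_ineq hC hB hsub h1 hr
    omega
  obtain ⟨x, hx, y, hy, hxy, hx0, hy0, hc⟩ := key
  have h3s : ({e0, x, y} : Finset ι) ⊆ D := by
    intro z hz
    simp only [Finset.mem_insert, Finset.mem_singleton] at hz
    rcases hz with rfl | rfl | rfl <;> assumption
  have hcard : ({e0, x, y} : Finset ι).card = 3 := by
    rw [Finset.card_insert_of_notMem, Finset.card_insert_of_notMem, Finset.card_singleton]
    · simpa using hxy
    · simp only [Finset.mem_insert, Finset.mem_singleton, not_or]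
      exact ⟨hx0.symm, hy0.symm⟩
  have hle := Finset.card_le_card h3s
  refine ⟨by omega, fun h3 => ⟨x, hx, y, hy, hxy, hx0, hy0, hc, ?_⟩⟩
  have heq : ({e0, x, y} : Finset ι) = D := Finset.eq_of_subset_of_card_le h3s (by omega)
  intro d hd
  rw [← heq] at hd
  simpa using hd

end RC
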