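import Pool.Agent.Helper73.RCS.Defs
import Pool.Agent.Helper59.RC.UniBasic

/-!
RCS-1 (rank 2 and rank 3 lemmas).  A unimodular set of rank 2 has at most 3, of rank 3 at most 6
pairwise non-parallel vectors.

rank_two: four vectors `u1, u2, u3, u4`; `u1, u2` is a basis of the span; `u3 = e u1 + f u2` and
`u4 = e' u1 + f' u2` with `e, f, e', f'` equal to `1` or `-1` (unimodularity and not parallel);
`u4` is not parallel to `u3`, so `u4 = e' u1 + f' u2` and `e f' + f e' = 0`; in the basis
`u1, u3` the first coordinate of `u4` is `e' - f' f e = 2 e'`: contradiction.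

rank_three: if the rank is at most 2 use rank_two.  Otherwise choose three independent ones of
the seven vectors as a basis.  The other four have coordinates in `0, 1, -1`, at least two of them
nonzero.  By rank_two at most one has support `i, j` (for each pair of coordinates).  At most one
has full support: two of them, not parallel, differ (after changing the sign of one) in exactly one
coordinate, so `w' = w - 2 b_i` (up to sign), and `w, b_i, b_j` is independent: contradiction to
unimodularity.  So there is one of each type; if the one with full support is `w = sum e_i b_i`, the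
one of support `i, j` is `+-(e_i b_i + e_j b_j)` (otherwise `e_i b_i - e_j b_j = 2 e_i b_i + e_k b_k - w`
has a coordinate `2` in the basis `b_i, b_k, w`), and then `e_2 b_2 + e_3 b_3 = (e_1 b_1 + e_2 b_2) +
(e_1 b_1 + e_3 b_3) - 2 e_1 b_1`: contradiction.  (Any other proof is fine, for instance a reduction
to `decide` on sign matrices.)
-/

namespace RC

open Submodule Module

variable {ι V : Type} [AddCommGroup V] [Module ℚ V]

private theorem h34_int {n : ℕ} (M : Matrix (Fin n) (Fin n) ℚ)
    (h : ∀ i j, M i j = 0 ∨ M i j = 1 ∨ M i j = -1) : ∃ z : ℤ, M.det = (z : ℚ) := by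
  have h1 : ∀ i j, ∃ z : ℤ, (z : ℚ) = M i j := by
    intro i j
    rcases h i j with h | h | h
    · exact ⟨0, by rw [h]; norm_num⟩
    · exact ⟨1, by rw [h]; norm_num⟩
    · exact ⟨-1, by rw [h]; norm_num⟩
  choose A hA using h1
  refine ⟨(Matrix.of A).det, ?_⟩
  have h2 : M = (Int.castRingHom ℚ).mapMatrix (Matrix.of A) := by
    ext i j
    exact (hA i j).symm
  rw [h2, ← RingHom.map_det]
  rfl

/-- Determinants of coordinate vectors of a unimodular set. -/
theorem h34_det {X : Set V} (hX : Uni X) {n : ℕ} (b : Fin n → V) (hb : ∀ i, b i ∈ X)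
    (hbi : LinearIndependent ℚ b) (x : Fin n → V) (hx : ∀ i, x i ∈ X)
    (M : Matrix (Fin n) (Fin n) ℚ) (hM : ∀ j, x j = ∑ i, M j i • b i) :
    M.det = 0 ∨ M.det = 1 ∨ M.det = -1 := by
  classical
  by_cases h0 : M.det = 0
  · exact Or.inl h0
  right
  have hunit : IsUnit M.det := isUnit_iff_ne_zero.2 h0
  have hinv : M⁻¹ * M = 1 := Matrix.nonsing_inv_mul M hunit
  have hinv' : M * M⁻¹ = 1 := Matrix.mul_nonsing_inv M hunit
  -- integrality of `M`
  have hM1 : ∀ j i, M j i = 0 ∨ M j i = 1 ∨ M j i = -1 := by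
    intro j i
    have h1 := uni_coord hX b Finset.univ (fun i _ => hb i)
      (by rw [Finset.coe_univ]; exact linearIndepOn_univ.2 hbi) (M j)
      (by rw [← hM j]; exact hx j)
    exact h1 i (Finset.mem_univ i)
  -- the `x` are independent
  have hxi : LinearIndependent ℚ x := by
    rw [Fintype.linearIndependent_iff]
    intro c hc
    have h1 : ∑ i, (∑ j, c j * M j i) • b i = 0 := by
      rw [← hc]
      simp only [hM, Finset.smul_sum, smul_smul, Finset.sum_smul]
      rw [Finset.sum_comm]
    have h2 := Fintype.linearIndependent_iff.1 hbi _ h1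
    have h3 : Matrix.vecMul c M = 0 := by
      funext i
      exact h2 i
    have h4 : c = 0 := by
      have h5 := congrArg (fun w => Matrix.vecMul w M⁻¹) h3
      simp only [Matrix.vecMul_vecMul, hinv', Matrix.vecMul_one, Matrix.zero_vecMul] at h5
      exact h5
    intro i
    rw [h4]
    rfl
  have hM2 : ∀ i j, M⁻¹ i j = 0 ∨ M⁻¹ i j = 1 ∨ M⁻¹ i j = -1 := by
    intro i j
    have h1 := uni_coord hX x Finset.univ (fun i _ => hx i)
      (by rw [Finset.coe_univ]; exact linearIndepOn_univ.2 hxi) (M⁻¹ i)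
      (by
        have h2 : ∑ j, M⁻¹ i j • x j = b i := by
          simp only [hM, Finset.smul_sum, smul_smul]
          rw [Finset.sum_comm]
          have h3 : ∀ l, ∑ j, (M⁻¹ i j * M j l) • b l = (if i = l then (1 : ℚ) else 0) • b l := by
            intro l
            rw [← Finset.sum_smul]
            congr 1
            have h4 := congrFun (congrFun hinv i) l
            rw [Matrix.mul_apply, Matrix.one_apply] at h4
            exact h4
          simp only [h3, ite_smul, one_smul, zero_smul, Finset.sum_ite_eq, Finset.mem_univ,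
            if_true]
        rw [h2]
        exact hb i)
    exact h1 j (Finset.mem_univ j)
  obtain ⟨z, hz⟩ := h34_int M hM1
  obtain ⟨z', hz'⟩ := h34_int M⁻¹ hM2
  have h5 : M.det * (M⁻¹).det = 1 := by
    rw [← Matrix.det_mul, hinv', Matrix.det_one]
  rw [hz, hz'] at h5
  have h6 : z * z' = 1 := by exact_mod_cast h5
  rcases Int.eq_one_or_neg_one_of_mul_eq_one h6 with h | h
  · left; rw [hz, h]; norm_num
  · right; rw [hz, h]; norm_num

private theorem h34_par {x y : V} (h : LinearIndependent ℚ ![x, y]) (t : ℚ) : y ≠ t • x := by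
  intro he
  have h1 := LinearIndependent.pair_iff.1 h t (-1) (by rw [he]; module)
  have := h1.2
  norm_num at this

theorem rank_two {X : Set V} (hX : Uni X) (A : Finset ι) (v : ι → V) (hv : ∀ e ∈ A, v e ∈ X)
    (hpar : ∀ e ∈ A, ∀ e' ∈ A, e ≠ e' → LinearIndependent ℚ ![v e, v e'])
    (hr : finrank ℚ (span ℚ (v '' (A : Set ι))) ≤ 2) : A.card ≤ 3 := by
  classical
  by_contra hA
  push Not at hA
  obtain ⟨B, hBA, hB⟩ := Finset.exists_subset_card_eq (show 4 ≤ A.card from hA)
  let e : Fin 4 ≃ B := (Finset.equivFinOfCardEq hB).symm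
  have hne : ∀ i j : Fin 4, i ≠ j → ((e i : B) : ι) ≠ ((e j : B) : ι) := fun i j hij h =>
    hij (e.injective (Subtype.ext h))
  have hmA : ∀ i : Fin 4, ((e i : B) : ι) ∈ A := fun i => hBA (e i).2
  let w : Fin 4 → V := fun i => v (e i)
  have hwX : ∀ i, w i ∈ X := fun i => hv _ (hmA i)
  have hwp : ∀ i j, i ≠ j → LinearIndependent ℚ ![w i, w j] := fun i j hij =>
    hpar _ (hmA i) _ (hmA j) (hne i j hij)
  have hfin : FiniteDimensional ℚ (span ℚ (v '' (A : Set ι))) :=
    FiniteDimensional.span_of_finite ℚ ((Finset.finite_toSet A).image v)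
  have hwA : ∀ i, w i ∈ span ℚ (v '' (A : Set ι)) := fun i =>
    subset_span ⟨_, hmA i, rfl⟩
  have hb01 := hwp 0 1 (by decide)
  have hsp : span ℚ (Set.range ![w 0, w 1]) = span ℚ (v '' (A : Set ι)) := by
    apply Submodule.eq_of_le_of_finrank_le
    · rw [Submodule.span_le]
      rintro _ ⟨i, rfl⟩
      fin_cases i
      · exact hwA 0
      · exact hwA 1
    · rw [finrank_span_eq_card hb01]
      exact hr
  have hco : ∀ i, ∃ c : Fin 2 → ℚ, w i = ∑ j, c j • ![w 0, w 1] j := by
    intro i
    have h1 : w i ∈ span ℚ (Set.range ![w 0, w 1]) := by rw [hsp]; exact hwA i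
    obtain ⟨c, hc⟩ := (Submodule.mem_span_range_iff_exists_fun ℚ).1 h1
    exact ⟨c, hc.symm⟩
  have hbX : ∀ i, ![w 0, w 1] i ∈ X := by
    intro i
    fin_cases i
    · exact hwX 0
    · exact hwX 1
  have hcoord : ∀ (x : V) (c : Fin 2 → ℚ), x ∈ X → x = ∑ j, c j • ![w 0, w 1] j →
      ∀ i, c i = 0 ∨ c i = 1 ∨ c i = -1 := by
    intro x c hx hc i
    exact uni_coord hX ![w 0, w 1] Finset.univ (fun i _ => hbX i)
      (by rw [Finset.coe_univ]; exact linearIndepOn_univ.2 hb01) c (by rw [← hc]; exact hx) i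
      (Finset.mem_univ i)
  obtain ⟨c, hc⟩ := hco 2
  obtain ⟨d, hd⟩ := hco 3
  have hc' := hcoord _ c (hwX 2) hc
  have hd' := hcoord _ d (hwX 3) hd
  have hdet := h34_det hX ![w 0, w 1] hbX hb01 ![w 2, w 3] (by
    intro i
    fin_cases i
    · exact hwX 2
    · exact hwX 3) (Matrix.of ![c, d]) (by
    intro j
    fin_cases j
    · exact hc
    · exact hd)
  rw [Matrix.det_fin_two] at hdet
  simp only [Matrix.of_apply, Matrix.cons_val_zero, Matrix.cons_val_one] at hdet
  simp only [Fin.sum_univ_two, Matrix.cons_val_zero, Matrix.cons_val_one] at hc hd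
  have hc0 : c 0 ≠ 0 := by
    intro h
    rw [h, zero_smul, zero_add] at hc
    exact h34_par (hwp 1 2 (by decide)) _ hc
  have hc1 : c 1 ≠ 0 := by
    intro h
    rw [h, zero_smul, add_zero] at hc
    exact h34_par (hwp 0 2 (by decide)) _ hc
  have hd0 : d 0 ≠ 0 := by
    intro h
    rw [h, zero_smul, zero_add] at hd
    exact h34_par (hwp 1 3 (by decide)) _ hd
  have hd1 : d 1 ≠ 0 := by
    intro h
    rw [h, zero_smul, add_zero] at hd
    exact h34_par (hwp 0 3 (by decide)) _ hd
  have hnz : c 0 * d 1 - c 1 * d 0 ≠ 0 := by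
    intro h
    apply h34_par (hwp 2 3 (by decide)) (d 0 / c 0)
    rw [hc, hd, smul_add, smul_smul, smul_smul]
    congr 2
    · field_simp
    · field_simp
      linarith
  have e0 := (hc' 0).resolve_left hc0
  have e1 := (hc' 1).resolve_left hc1
  have e2 := (hd' 0).resolve_left hd0
  have e3 := (hd' 1).resolve_left hd1
  rcases e0 with e0 | e0 <;> rcases e1 with e1 | e1 <;> rcases e2 with e2 | e2 <;>
    rcases e3 with e3 | e3 <;> rw [e0, e1, e2, e3] at hdet hnz <;>
    first
    | (exfalso; norm_num at hdet; done)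
    | (exfalso; apply hnz; norm_num; done)

/-- the finite check -/
private theorem h34_fin (m : Fin 4 → Fin 3 → ℚ)
    (hm : ∀ j i, m j i = 0 ∨ m j i = 1 ∨ m j i = -1)
    (hS : ∀ j, ¬ (m j 0 = 0 ∧ m j 1 = 0) ∧ ¬ (m j 0 = 0 ∧ m j 2 = 0) ∧ ¬ (m j 1 = 0 ∧ m j 2 = 0))
    (hP : ∀ j l, j ≠ l → ∀ i k, m j i * m l k - m j k * m l i = 0 ∨
      m j i * m l k - m j k * m l i = 1 ∨ m j i * m l k - m j k * m l i = -1)
    (hN : ∀ j l, j ≠ l → ¬ (m j 0 * m l 1 - m j 1 * m l 0 = 0 ∧
      m j 0 * m l 2 - m j 2 * m l 0 = 0 ∧ m j 1 * m l 2 - m j 2 * m l 1 = 0))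
    (hT : ∀ j l n, m j 0 * (m l 1 * m n 2 - m l 2 * m n 1) - m j 1 * (m l 0 * m n 2 -
      m l 2 * m n 0) + m j 2 * (m l 0 * m n 1 - m l 1 * m n 0) = 0 ∨
      m j 0 * (m l 1 * m n 2 - m l 2 * m n 1) - m j 1 * (m l 0 * m n 2 -
      m l 2 * m n 0) + m j 2 * (m l 0 * m n 1 - m l 1 * m n 0) = 1 ∨
      m j 0 * (m l 1 * m n 2 - m l 2 * m n 1) - m j 1 * (m l 0 * m n 2 -
      m l 2 * m n 0) + m j 2 * (m l 0 * m n 1 - m l 1 * m n 0) = -1) : False := by
  classical
  -- a minor with nonzero entries vanishes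
  have hev : ∀ j l, j ≠ l → ∀ i k, m j i ≠ 0 → m j k ≠ 0 → m l i ≠ 0 → m l k ≠ 0 →
      m j i * m l k - m j k * m l i = 0 := by
    intro j l hjl i k h1 h2 h3 h4
    rcases hP j l hjl i k with h | h
    · exact h
    · exfalso
      rcases (hm j i).resolve_left h1 with e1 | e1 <;>
      rcases (hm j k).resolve_left h2 with e2 | e2 <;>
      rcases (hm l i).resolve_left h3 with e3 | e3 <;>
      rcases (hm l k).resolve_left h4 with e4 | e4 <;>
      rw [e1, e2, e3, e4] at h <;> norm_num at h
  let ty : Fin 4 → Fin 4 := fun j => if m j 2 = 0 then 0 else if m j 1 = 0 then 1 else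
    if m j 0 = 0 then 2 else 3
  have ty0 : ∀ j, ty j = 0 → m j 2 = 0 ∧ m j 0 ≠ 0 ∧ m j 1 ≠ 0 := by
    intro j hj
    simp only [ty] at hj
    split_ifs at hj with h1 h2 h3
    · exact ⟨h1, fun h => (hS j).2.1 ⟨h, h1⟩, fun h => (hS j).2.2 ⟨h, h1⟩⟩
    all_goals exact absurd hj (by decide)
  have ty1 : ∀ j, ty j = 1 → m j 1 = 0 ∧ m j 0 ≠ 0 ∧ m j 2 ≠ 0 := by
    intro j hj
    simp only [ty] at hj
    split_ifs at hj with h1 h2 h3
    · exact absurd hj (by decide)
    · exact ⟨h2, fun h => (hS j).1 ⟨h, h2⟩, h1⟩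
    all_goals exact absurd hj (by decide)
  have ty2 : ∀ j, ty j = 2 → m j 0 = 0 ∧ m j 1 ≠ 0 ∧ m j 2 ≠ 0 := by
    intro j hj
    simp only [ty] at hj
    split_ifs at hj with h1 h2 h3
    · exact absurd hj (by decide)
    · exact absurd hj (by decide)
    · exact ⟨h3, h2, h1⟩
    · exact absurd hj (by decide)
  have ty3 : ∀ j, ty j = 3 → m j 0 ≠ 0 ∧ m j 1 ≠ 0 ∧ m j 2 ≠ 0 := by
    intro j hj
    simp only [ty] at hj
    split_ifs at hj with h1 h2 h3
    · exact absurd hj (by decide)
    · exact absurd hj (by decide)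
    · exact absurd hj (by decide)
    · exact ⟨h3, h2, h1⟩
  have hinj : Function.Injective ty := by
    intro j l hjl
    by_contra hne
    apply hN j l hne
    have hcase : ty j = 0 ∨ ty j = 1 ∨ ty j = 2 ∨ ty j = 3 := by
      generalize ty j = t
      fin_cases t <;> simp
    rcases hcase with h | h | h | h
    · obtain ⟨a1, a2, a3⟩ := ty0 j h
      obtain ⟨b1, b2, b3⟩ := ty0 l (hjl ▸ h)
      refine ⟨hev j l hne 0 1 a2 a3 b2 b3, ?_, ?_⟩
      · rw [a1, b1]; ring
      · rw [a1, b1]; ring
    · obtain ⟨a1, a2, a3⟩ := ty1 j h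
      obtain ⟨b1, b2, b3⟩ := ty1 l (hjl ▸ h)
      refine ⟨?_, hev j l hne 0 2 a2 a3 b2 b3, ?_⟩
      · rw [a1, b1]; ring
      · rw [a1, b1]; ring
    · obtain ⟨a1, a2, a3⟩ := ty2 j h
      obtain ⟨b1, b2, b3⟩ := ty2 l (hjl ▸ h)
      refine ⟨?_, ?_, hev j l hne 1 2 a2 a3 b2 b3⟩
      · rw [a1, b1]; ring
      · rw [a1, b1]; ring
    · obtain ⟨a1, a2, a3⟩ := ty3 j h
      obtain ⟨b1, b2, b3⟩ := ty3 l (hjl ▸ h)
      exact ⟨hev j l hne 0 1 a1 a2 b1 b2, hev j l hne 0 2 a1 a3 b1 b3,
        hev j l hne 1 2 a2 a3 b2 b3⟩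
  have hsurj : Function.Surjective ty := Finite.injective_iff_surjective.1 hinj
  obtain ⟨j0, h0⟩ := hsurj 0
  obtain ⟨j1, h1⟩ := hsurj 1
  obtain ⟨j2, h2⟩ := hsurj 2
  obtain ⟨j3, h3⟩ := hsurj 3
  have n03 : j0 ≠ j3 := fun h => by rw [h, h3] at h0; exact absurd h0 (by decide)
  have n13 : j1 ≠ j3 := fun h => by rw [h, h3] at h1; exact absurd h1 (by decide)
  have n23 : j2 ≠ j3 := fun h => by rw [h, h3] at h2; exact absurd h2 (by decide)
  obtain ⟨c2, c0, c1⟩ := ty0 j0 h0
  obtain ⟨d1, d0, d2⟩ := ty1 j1 h1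
  obtain ⟨f0, f1, f2⟩ := ty2 j2 h2
  obtain ⟨a0, a1, a2⟩ := ty3 j3 h3
  have r1 := hev j0 j3 n03 0 1 c0 c1 a0 a1
  have r2 := hev j1 j3 n13 0 2 d0 d2 a0 a2
  have r3 := hev j2 j3 n23 1 2 f1 f2 a1 a2
  have hdet := hT j0 j1 j2
  rw [c2, d1, f0] at hdet
  rcases (hm j0 0).resolve_left c0 with e1 | e1 <;>
  rcases (hm j0 1).resolve_left c1 with e2 | e2 <;>
  rcases (hm j1 0).resolve_left d0 with e3 | e3 <;>
  rcases (hm j1 2).resolve_left d2 with e4 | e4 <;>
  rcases (hm j2 1).resolve_left f1 with e5 | e5 <;>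
  rcases (hm j2 2).resolve_left f2 with e6 | e6 <;>
  rw [e1, e2, e3, e4, e5, e6] at hdet <;> norm_num at hdet <;>
  rw [e1, e2] at r1 <;> rw [e3, e4] at r2 <;> rw [e5, e6] at r3 <;>
  (apply a0; linarith)

theorem rank_three {X : Set V} (hX : Uni X) (u : Fin 7 → V) (hu : ∀ i, u i ∈ X)
    (hpar : ∀ i j, i ≠ j → LinearIndependent ℚ ![u i, u j])
    (hr : finrank ℚ (span ℚ (Set.range u)) ≤ 3) : False := by
  classical
  by_cases hr2 : finrank ℚ (span ℚ (Set.range u)) ≤ 2
  · have h1 := rank_two hX (Finset.univ : Finset (Fin 7)) u (fun e _ => hu e)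
      (fun e _ e' _ h => hpar e e' h) (by rw [Finset.coe_univ, Set.image_univ]; exact hr2)
    rw [Finset.card_univ, Fintype.card_fin] at h1
    omega
  have hr3 : finrank ℚ (span ℚ (Set.range u)) = 3 := by omega
  obtain ⟨κ, a, ha, hspan, hind⟩ := exists_linearIndependent' ℚ u
  have hfin : Finite κ := Finite.of_injective a ha
  have := Fintype.ofFinite κ
  have hcard : Fintype.card κ = 3 := by
    rw [← finrank_span_eq_card hind, hspan, hr3]
  let e : Fin 3 ≃ κ := (Fintype.equivFinOfCardEq hcard).symm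
  let b : Fin 3 → V := fun i => u (a (e i))
  have hbi : LinearIndependent ℚ b := hind.comp e e.injective
  have hbX : ∀ i, b i ∈ X := fun i => hu _
  have hbsp : span ℚ (Set.range b) = span ℚ (Set.range u) := by
    rw [← hspan]
    congr 1
    ext x
    constructor
    · rintro ⟨i, rfl⟩; exact ⟨e i, rfl⟩
    · rintro ⟨i, rfl⟩; exact ⟨e.symm i, by simp [b]⟩
  -- the other four
  let A : Finset (Fin 7) := Finset.univ.image (fun i : Fin 3 => a (e i))
  have hA : A.card = 3 := by
    have hinj : Function.Injective (fun i : Fin 3 => a (e i)) := ha.comp e.injective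
    rw [Finset.card_image_of_injective _ hinj, Finset.card_univ, Fintype.card_fin]
  have hAc : Aᶜ.card = 4 := by
    rw [Finset.card_compl, hA, Fintype.card_fin]
  let g : Fin 4 ≃ (Aᶜ : Finset (Fin 7)) := (Finset.equivFinOfCardEq hAc).symm
  let w : Fin 4 → V := fun j => u (g j)
  have hgA : ∀ (j : Fin 4) (i : Fin 3), a (e i) ≠ ((g j : (Aᶜ : Finset (Fin 7))) : Fin 7) := by
    intro j i h
    have h1 := (g j).2
    rw [Finset.mem_compl] at h1
    apply h1
    rw [← h]
    exact Finset.mem_image_of_mem _ (Finset.mem_univ i)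
  have hco : ∀ j, ∃ c : Fin 3 → ℚ, w j = ∑ i, c i • b i := by
    intro j
    have h1 : w j ∈ span ℚ (Set.range b) := by rw [hbsp]; exact subset_span ⟨_, rfl⟩
    obtain ⟨c, hc⟩ := (Submodule.mem_span_range_iff_exists_fun ℚ).1 h1
    exact ⟨c, hc.symm⟩
  choose m hm using hco
  have hwX : ∀ j, w j ∈ X := fun j => hu _
  have hm1 : ∀ j i, m j i = 0 ∨ m j i = 1 ∨ m j i = -1 := fun j i =>
    uni_coord hX b Finset.univ (fun i _ => hbX i)
      (by rw [Finset.coe_univ]; exact linearIndepOn_univ.2 hbi) (m j)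
      (by rw [← hm j]; exact hwX j) i (Finset.mem_univ i)
  have hbw : ∀ i j, LinearIndependent ℚ ![b i, w j] := fun i j => hpar _ _ (hgA j i)
  have hww : ∀ j l, j ≠ l → LinearIndependent ℚ ![w j, w l] := fun j l h => hpar _ _ (fun h1 =>
    h (g.injective (Subtype.ext h1)))
  have hm' : ∀ j, w j = m j 0 • b 0 + m j 1 • b 1 + m j 2 • b 2 := fun j => by
    rw [hm j, Fin.sum_univ_three]
  refine h34_fin m hm1 ?_ ?_ ?_ ?_
  · intro j
    refine ⟨?_, ?_, ?_⟩
    · rintro ⟨h1, h2⟩
      apply h34_par (hbw 2 j) (m j 2)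
      rw [hm' j, h1, h2]; module
    · rintro ⟨h1, h2⟩
      apply h34_par (hbw 1 j) (m j 1)
      rw [hm' j, h1, h2]; module
    · rintro ⟨h1, h2⟩
      apply h34_par (hbw 0 j) (m j 0)
      rw [hm' j, h1, h2]; module
  · -- minors
    intro j l _
    have hd : ∀ k : Fin 3, (Matrix.of ![Pi.single k 1, m j, m l] : Matrix (Fin 3) (Fin 3) ℚ).det = 0
        ∨ (Matrix.of ![Pi.single k 1, m j, m l] : Matrix (Fin 3) (Fin 3) ℚ).det = 1 ∨
        (Matrix.of ![Pi.single k 1, m j, m l] : Matrix (Fin 3) (Fin 3) ℚ).det = -1 := by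
      intro k
      refine h34_det hX b hbX hbi ![b k, w j, w l] ?_ _ ?_
      · intro i
        fin_cases i
        · exact hbX k
        · exact hwX j
        · exact hwX l
      · intro i
        fin_cases i
        · show b k = ∑ i, (Pi.single k (1 : ℚ) : Fin 3 → ℚ) i • b i
          rw [Finset.sum_eq_single k]
          · rw [Pi.single_eq_same, one_smul]
          · intro i _ hi
            rw [Pi.single_eq_of_ne hi, zero_smul]
          · intro h
            exact absurd (Finset.mem_univ k) h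
        · exact hm j
        · exact hm l
    have hd0 := hd 0
    have hd1 := hd 1
    have hd2 := hd 2
    rw [Matrix.det_fin_three] at hd0 hd1 hd2
    simp [Matrix.of_apply, Pi.single_apply] at hd0 hd1 hd2
    intro i k
    fin_cases i <;> fin_cases k <;> simp only [Fin.zero_eta, Fin.mk_one, Fin.reduceFinMk]
    · left; ring
    · rcases hd2 with h | h | h
      · left; linarith
      · right; left; linarith
      · right; right; linarith
    · rcases hd1 with h | h | h
      · left; linarith
      · right; right; linarith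
      · right; left; linarith
    · rcases hd2 with h | h | h
      · left; linarith
      · right; right; linarith
      · right; left; linarith
    · left; ring
    · rcases hd0 with h | h | h
      · left; linarith
      · right; left; linarith
      · right; right; linarith
    · rcases hd1 with h | h | h
      · left; linarith
      · right; left; linarith
      · right; right; linarith
    · rcases hd0 with h | h | h
      · left; linarith
      · right; right; linarith
      · right; left; linarith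
    · left; ring
  · intro j l hjl ⟨h1, h2, h3⟩
    -- `w l` is a multiple of `w j`
    have key : ∀ i : Fin 3, m j i ≠ 0 → (∀ k, m j i * m l k = m j k * m l i) → False := by
      intro i hi hk
      apply h34_par (hww j l hjl) (m l i / m j i)
      rw [hm' j, hm' l, smul_add, smul_add, smul_smul, smul_smul, smul_smul]
      have hk' : ∀ k, m l i / m j i * m j k = m l k := by
        intro k
        field_simp
        linarith [hk k]
      rw [hk' 0, hk' 1, hk' 2]
    by_cases h0 : m j 0 = 0
    · by_cases h0' : m j 1 = 0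
      · by_cases h0'' : m j 2 = 0
        · have := hm' j
          rw [h0, h0', h0''] at this
          have h4 : w j = (0 : ℚ) • b 0 := by rw [this]; module
          exact h34_par (hbw 0 j) 0 h4
        · apply key 2 h0''
          intro k
          fin_cases k <;> simp only [Fin.zero_eta, Fin.mk_one, Fin.reduceFinMk] <;> linarith
      · apply key 1 h0'
        intro k
        fin_cases k <;> simp only [Fin.zero_eta, Fin.mk_one, Fin.reduceFinMk] <;> linarith
    · apply key 0 h0
      intro k
      fin_cases k <;> simp only [Fin.zero_eta, Fin.mk_one, Fin.reduceFinMk] <;> linarith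
  · intro j l n
    have hd := h34_det hX b hbX hbi ![w j, w l, w n] (by
      intro i
      fin_cases i
      · exact hwX j
      · exact hwX l
      · exact hwX n) (Matrix.of ![m j, m l, m n]) (by
      intro i
      fin_cases i
      · exact hm j
      · exact hm l
      · exact hm n)
    rw [Matrix.det_fin_three] at hd
    simp [Matrix.of_apply] at hd
    rcases hd with h | h | h
    · left; linarith
    · right; left; linarith
    · right; right; linarith

end RC
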