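import Pool.Agent.Helper73.RCS.Defs
import Pool.Agent.Helper59.RC.NcEq

/-!
RCS-3 (recolouring and subsystems of a bad system).

recolour: if `Short v c' S (bd ..)` then the same set is rainbow for `c` (as `c'` is coarser on `S`) so
`Short v c E h` if the bound is at most `h`: contradiction.  `Sys C v c' S`: `cls` by `hC.mono`,
`ne` from `hB.sys`, `two` is `h2`, `par`: if `c e = c e'` from `hB.sys.par`, otherwise `e, e'` is a
rainbow set with two elements, `2 ≤ h` (`two_le`), so it is linearly independent.  Then `hB.ih`.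

two_le (`2 ≤ h`): `h = 0` gives `E.card + 1 = 0`; `h = 1`: `E.card = 3`, rank 1, two elements of the
same colour different from `e0` (`hB.partner`) are independent, rank at least 2.

select: in a piece `X` with `a` singles and `b` pairs one can choose `b' ≤ b` of the pairs and
`a' ≤ a` of the singles.

merge: if `S` has `a ≥ 2` singles then there is a coarser colouring with `a - 2` singles, `b + 1` pairs.

sub_ineq: put `b = |F| - nc F`, `a = nc F - b`.  If `rk F + 1 ≤ b` select `rk F + 1` pairs and no single: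
`recolour` with `c' = c` gives `h < (rk F + 2) / 2`, so `2 * h ≤ rk F`: contradiction to `h2`.  Otherwise select
all pairs and `u = rk F + 1 - b ≤ a` singles: `h < u + b / 2` (`u > 0`), that is the claim.

sub_merge: if `rk F < b` then `sub_ineq` gives a contradiction as before.  Otherwise select all pairs and
`u = rk F + 2 - b ≥ 2` singles (`u ≤ a` by `h1`), merge two of them: `h < bb (u - 2) (b + 1)`.
-/

namespace RC

open Submodule Module

variable {C : ClsT} {ι κ V : Type} [AddCommGroup V] [Module ℚ V] {h : ℕ} {v : ι → V}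
  {c : ι → κ} {E : Finset ι} {e0 : ι}

theorem sub_two_le_finrank {W : Type} [AddCommGroup W] [Module ℚ W] {x y : W}
    (U : Submodule ℚ W) [FiniteDimensional ℚ U] (hx : x ∈ U) (hy : y ∈ U)
    (h : LinearIndependent ℚ ![x, y]) : 2 ≤ finrank ℚ U := by
  have h1 : LinearIndependent ℚ ![(⟨x, hx⟩ : U), ⟨y, hy⟩] := by
    apply LinearIndependent.of_comp U.subtype
    have h2 : (U.subtype ∘ ![(⟨x, hx⟩ : U), ⟨y, hy⟩]) = ![x, y] := by
      ext i
      fin_cases i <;> rfl
    rw [h2]
    exact h
  simpa using h1.fintype_card_le_finrank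

theorem Bad.two_le (hB : Bad C h v c E e0) : 2 ≤ h := by
  have h1 := hB.card
  have h2 := hB.rank
  by_contra hlt
  have h3 : h = 0 ∨ h = 1 := by omega
  rcases h3 with h3 | h3
  · omega
  · subst h3
    have h4 : ∃ e ∈ E, e ≠ e0 := by
      by_contra hno
      push Not at hno
      have h5 : E ⊆ {e0} := fun e he => Finset.mem_singleton.2 (hno e he)
      have h6 := Finset.card_le_card h5
      rw [Finset.card_singleton] at h6
      omega
    obtain ⟨e, he, hne⟩ := h4
    obtain ⟨e', he', hne', hc⟩ := hB.partner e he hne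
    have h5 := hB.sys.par e he e' he' hc.symm hne'.symm
    have hf : FiniteDimensional ℚ (span ℚ (v '' (E : Set ι))) :=
      FiniteDimensional.span_of_finite ℚ ((Finset.finite_toSet E).image v)
    have h6 := sub_two_le_finrank (span ℚ (v '' (E : Set ι)))
      (subset_span ⟨e, he, rfl⟩) (subset_span ⟨e', he', rfl⟩) h5
    unfold rk at h2
    omega

/-- Two elements of a bad system are never parallel. -/
theorem Bad.par' (hB : Bad C h v c E e0) {e e' : ι} (he : e ∈ E) (he' : e' ∈ E)
    (hne : e ≠ e') : LinearIndependent ℚ ![v e, v e'] := by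
  classical
  by_cases hc : c e = c e'
  · exact hB.sys.par e he e' he' hc hne
  · by_contra hli
    apply hB.short
    refine ⟨{e, e'}, ?_, ?_, ?_, ?_⟩
    · intro x hx
      rw [Finset.mem_insert, Finset.mem_singleton] at hx
      rcases hx with rfl | rfl
      · exact he
      · exact he'
    · exact (Finset.card_le_two).trans hB.two_le
    · intro x hx y hy hxy
      rw [Finset.coe_insert, Finset.coe_singleton] at hx hy
      rcases hx with rfl | hx <;> rcases hy with rfl | hy
      · rfl
      · rw [Set.mem_singleton_iff] at hy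
        subst hy
        exact absurd hxy hc
      · rw [Set.mem_singleton_iff] at hx
        subst hx
        exact absurd hxy.symm hc
      · rw [Set.mem_singleton_iff] at hx hy
        rw [hx, hy]
    · intro hind
      apply hli
      rw [Finset.coe_insert, Finset.coe_singleton] at hind
      rw [linearIndepOn_pair_iff v hne (hB.sys.ne e he)] at hind
      rw [LinearIndependent.pair_iff' (hB.sys.ne e he)]
      exact hind

theorem recolour (hC : Cls C) (hB : Bad C h v c E e0) {S : Finset ι} (hS : S ⊆ E)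
    {κ' : Type} (c' : ι → κ') (hc : ∀ e ∈ S, ∀ e' ∈ S, c e = c e' → c' e = c' e')
    (h2 : ∀ e ∈ S, ∀ e' ∈ S, ∀ e'' ∈ S, c' e = c' e' → c' e = c' e'' →
      e = e' ∨ e = e'' ∨ e' = e'')
    (hr : rk v S + 1 ≤ nc c' S) (hn : nc c' S < 2 * h) : h < bd (nc c' S) S.card := by
  by_contra hlt
  have hsys : Sys C v c' S := by
    refine ⟨?_, fun e he => hB.sys.ne e (hS he), h2, fun e he e' he' _ hne =>
      hB.par' (hS he) (hS he') hne, hr⟩
    refine hC.mono hB.sys.cls ?_
    rintro _ ⟨e, he, rfl⟩
    exact Or.inr (Or.inl ⟨e, hS he, rfl⟩)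
  obtain ⟨T, hTS, hTc, hTi, hTd⟩ := hB.ih (nc c' S) hn ι κ' V v c' S hsys rfl
  apply hB.short
  refine ⟨T, hTS.trans hS, by omega, ?_, hTd⟩
  intro x hx y hy hxy
  exact hTi hx hy (hc x (hTS hx) y (hTS hy) hxy)

theorem sub_fib (hB : Bad C h v c E e0) {X : Finset ι} (hX : X ⊆ E) (k : κ) [DecidableEq κ] :
    (X.filter fun x => c x = k).card ≤ 2 := by
  by_contra hlt
  push Not at hlt
  obtain ⟨x, hx, y, hy, z, hz, hxy, hxz, hyz⟩ := Finset.two_lt_card.1 hlt
  rw [Finset.mem_filter] at hx hy hz
  have := hB.sys.two x (hX hx.1) y (hX hy.1) z (hX hz.1) (hx.2.trans hy.2.symm)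
    (hx.2.trans hz.2.symm)
  rcases this with h | h | h
  · exact hxy h
  · exact hxz h
  · exact hyz h

/-- In a bad system the number of colours of a piece is at most its number of elements, which is at
most twice the number of colours. -/
theorem cnt_exists (hB : Bad C h v c E e0) {X : Finset ι} (hX : X ⊆ E) :
    ∃ a b : ℕ, Cnt c X a b := by
  classical
  have h1 : nc c X ≤ X.card := by
    unfold nc
    convert Finset.card_image_le (s := X) (f := c)
  have h2 : X.card ≤ 2 * nc c X := by
    unfold nc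
    convert Finset.card_le_mul_card_image (f := c) X 2 (fun k _ => sub_fib hB hX k)
  exact ⟨2 * nc c X - X.card, X.card - nc c X, by omega, by omega⟩

/-- The colours with one and with two elements. -/
theorem sub_split (hB : Bad C h v c E e0) [DecidableEq κ] {X : Finset ι} (hX : X ⊆ E) {a b : ℕ}
    (hcnt : Cnt c X a b) :
    ((X.image c).filter fun k => (X.filter fun x => c x = k).card = 1).card = a ∧
    ((X.image c).filter fun k => (X.filter fun x => c x = k).card = 2).card = b := by
  obtain ⟨h1, h2⟩ := hcnt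
  have h2' : (X.image c).card = a + b := by
    rw [← h2]
    exact (nc_image c X).symm
  have h3 : ∀ k ∈ X.image c, (X.filter fun x => c x = k).card = 1 ∨
      (X.filter fun x => c x = k).card = 2 := by
    intro k hk
    have h4 := sub_fib hB hX k
    have h5 : 0 < (X.filter fun x => c x = k).card := by
      rw [Finset.card_pos]
      obtain ⟨x, hx, hxk⟩ := Finset.mem_image.1 hk
      exact ⟨x, Finset.mem_filter.2 ⟨hx, hxk⟩⟩
    omega
  have h4 := Finset.card_eq_sum_card_image c X
  have h5 : ((X.image c).filter fun k => (X.filter fun x => c x = k).card = 1).card +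
      ((X.image c).filter fun k => (X.filter fun x => c x = k).card = 2).card =
      (X.image c).card := by
    rw [← Finset.card_filter_add_card_filter_not (s := X.image c)
      (fun k => (X.filter fun x => c x = k).card = 1)]
    congr 2
    ext k
    simp only [Finset.mem_filter]
    constructor
    · rintro ⟨hk, h⟩
      exact ⟨hk, by omega⟩
    · rintro ⟨hk, h⟩
      have := h3 k hk
      exact ⟨hk, by omega⟩
  have h6 : X.card = ((X.image c).filter fun k => (X.filter fun x => c x = k).card = 1).card +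
      2 * ((X.image c).filter fun k => (X.filter fun x => c x = k).card = 2).card := by
    rw [h4, Finset.card_filter, Finset.card_filter, Finset.mul_sum, ← Finset.sum_add_distrib]
    refine Finset.sum_congr rfl fun k hk => ?_
    rcases h3 k hk with h | h <;> rw [h] <;> simp
  omega

theorem select (hB : Bad C h v c E e0) {X : Finset ι} (hX : X ⊆ E) {a b a' b' : ℕ}
    (hcnt : Cnt c X a b) (ha : a' ≤ a) (hb : b' ≤ b) : ∃ S ⊆ X, Cnt c S a' b' := by
  classical
  obtain ⟨h1, h2⟩ := sub_split hB hX hcnt
  rw [← h1] at ha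
  rw [← h2] at hb
  obtain ⟨K1, hK1, hc1⟩ := Finset.exists_subset_card_eq ha
  obtain ⟨K2, hK2, hc2⟩ := Finset.exists_subset_card_eq hb
  have hdis : Disjoint K1 K2 := by
    rw [Finset.disjoint_left]
    intro k hk1 hk2
    have h3 := (Finset.mem_filter.1 (hK1 hk1)).2
    have h4 := (Finset.mem_filter.1 (hK2 hk2)).2
    omega
  have him : (X.filter fun x => c x ∈ K1 ∪ K2).image c = K1 ∪ K2 := by
    ext k
    rw [Finset.mem_image]
    constructor
    · rintro ⟨x, hx, rfl⟩
      exact (Finset.mem_filter.1 hx).2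
    · intro hk
      have hkX : k ∈ X.image c := by
        rcases Finset.mem_union.1 hk with hk | hk
        · exact (Finset.mem_filter.1 (hK1 hk)).1
        · exact (Finset.mem_filter.1 (hK2 hk)).1
      obtain ⟨x, hx, rfl⟩ := Finset.mem_image.1 hkX
      exact ⟨x, Finset.mem_filter.2 ⟨hx, hk⟩, rfl⟩
  refine ⟨X.filter fun x => c x ∈ K1 ∪ K2, Finset.filter_subset _ _, ?_, ?_⟩
  · rw [Finset.card_eq_sum_card_image c, him, Finset.sum_union hdis]
    have hf : ∀ k ∈ K1 ∪ K2, ((X.filter fun x => c x ∈ K1 ∪ K2).filter fun x => c x = k) =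
        X.filter fun x => c x = k := by
      intro k hk
      ext x
      simp only [Finset.mem_filter]
      constructor
      · rintro ⟨⟨h1, -⟩, h2⟩
        exact ⟨h1, h2⟩
      · rintro ⟨h1, h2⟩
        exact ⟨⟨h1, h2 ▸ hk⟩, h2⟩
    have hs1 : ∑ k ∈ K1, ((X.filter fun x => c x ∈ K1 ∪ K2).filter fun x => c x = k).card =
        ∑ k ∈ K1, 1 := by
      refine Finset.sum_congr rfl fun k hk => ?_
      rw [hf k (Finset.mem_union_left _ hk)]
      exact (Finset.mem_filter.1 (hK1 hk)).2
    have hs2 : ∑ k ∈ K2, ((X.filter fun x => c x ∈ K1 ∪ K2).filter fun x => c x = k).card =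
        ∑ k ∈ K2, 2 := by
      refine Finset.sum_congr rfl fun k hk => ?_
      rw [hf k (Finset.mem_union_right _ hk)]
      exact (Finset.mem_filter.1 (hK2 hk)).2
    rw [hs1, hs2, Finset.sum_const, Finset.sum_const, hc1, hc2]
    simp only [smul_eq_mul]
    ring
  · have h3 : ((X.filter fun x => c x ∈ K1 ∪ K2).image c).card = a' + b' := by
      rw [him, Finset.card_union_of_disjoint hdis, hc1, hc2]
    rw [← h3]
    exact nc_image _ _

theorem merge (hB : Bad C h v c E e0) {S : Finset ι} (hS : S ⊆ E) {a b : ℕ}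
    (hcnt : Cnt c S a b) (ha : 2 ≤ a) : ∃ c' : ι → ℕ,
      (∀ e ∈ S, ∀ e' ∈ S, c e = c e' → c' e = c' e') ∧
      (∀ e ∈ S, ∀ e' ∈ S, ∀ e'' ∈ S, c' e = c' e' → c' e = c' e'' →
        e = e' ∨ e = e'' ∨ e' = e'') ∧ Cnt c' S (a - 2) (b + 1) := by
  classical
  obtain ⟨h1, h2⟩ := sub_split hB hS hcnt
  have h3 : 1 < ((S.image c).filter fun k => (S.filter fun x => c x = k).card = 1).card := by
    omega
  obtain ⟨k1, k2, hk1, hk2, hne⟩ := Finset.one_lt_card_iff.1 h3
  obtain ⟨hk1m, hk1c⟩ := Finset.mem_filter.1 hk1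
  obtain ⟨hk2m, hk2c⟩ := Finset.mem_filter.1 hk2
  obtain ⟨e1, he1⟩ := Finset.card_eq_one.1 hk1c
  obtain ⟨e2, he2⟩ := Finset.card_eq_one.1 hk2c
  let K := S.image c
  let r : κ → κ := fun k => if k = k2 then k1 else k
  let g : κ → ℕ := fun k => if hk : k ∈ K then (K.equivFin ⟨k, hk⟩ : ℕ) else 0
  have hg : ∀ k ∈ K, ∀ k' ∈ K, g k = g k' → k = k' := by
    intro k hk k' hk' hkk
    simp only [g, dif_pos hk, dif_pos hk'] at hkk
    have := K.equivFin.injective (Fin.ext hkk)
    exact congrArg Subtype.val this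
  have hrK : ∀ k ∈ K, r k ∈ K := by
    intro k hk
    simp only [r]
    split_ifs
    · exact hk1m
    · exact hk
  have hcK : ∀ e ∈ S, c e ∈ K := fun e he => Finset.mem_image_of_mem c he
  have hiff : ∀ e ∈ S, ∀ e' ∈ S, g (r (c e)) = g (r (c e')) → r (c e) = r (c e') :=
    fun e he e' he' h => hg _ (hrK _ (hcK e he)) _ (hrK _ (hcK e' he')) h
  have hone : ∀ e ∈ S, r (c e) = k1 → e = e1 ∨ e = e2 := by
    intro e he hr
    simp only [r] at hr
    split_ifs at hr with hk
    · right
      have : e ∈ S.filter fun x => c x = k2 := Finset.mem_filter.2 ⟨he, hk⟩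
      rw [he2, Finset.mem_singleton] at this
      exact this
    · left
      have : e ∈ S.filter fun x => c x = k1 := Finset.mem_filter.2 ⟨he, hr⟩
      rw [he1, Finset.mem_singleton] at this
      exact this
  refine ⟨fun e => g (r (c e)), fun e _ e' _ hc => by simp only [hc], ?_, ?_, ?_⟩
  · intro e he e' he' e'' he'' hc hc'
    have hc1 := hiff e he e' he' hc
    have hc2 := hiff e he e'' he'' hc'
    by_cases hk : r (c e) = k1
    · have h4 := hone e he hk
      have h5 := hone e' he' (hc1 ▸ hk)
      have h6 := hone e'' he'' (hc2 ▸ hk)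
      rcases h4 with rfl | rfl <;> rcases h5 with rfl | rfl <;> rcases h6 with rfl | rfl <;>
        simp
    · have hce : ∀ x ∈ S, r (c e) = r (c x) → c e = c x := by
        intro x hx hxr
        simp only [r] at hk hxr
        by_cases ha1 : c e = k2
        · rw [if_pos ha1] at hk
          exact absurd rfl hk
        · rw [if_neg ha1] at hk hxr
          by_cases ha2 : c x = k2
          · rw [if_pos ha2] at hxr
            exact absurd hxr hk
          · rw [if_neg ha2] at hxr
            exact hxr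
      exact hB.sys.two e (hS he) e' (hS he') e'' (hS he'') (hce e' he' hc1) (hce e'' he'' hc2)
  · have := hcnt.1
    omega
  · have h4 : nc (fun e => g (r (c e))) S = (K.erase k2).card := by
      have h5 : S.image (fun e => g (r (c e))) = (K.erase k2).image g := by
        ext n
        rw [Finset.mem_image, Finset.mem_image]
        constructor
        · rintro ⟨e, he, rfl⟩
          refine ⟨r (c e), Finset.mem_erase.2 ⟨?_, hrK _ (hcK e he)⟩, rfl⟩
          simp only [r]
          split_ifs with hk
          · exact hne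
          · exact hk
        · rintro ⟨k, hk, rfl⟩
          obtain ⟨hk1', hk2'⟩ := Finset.mem_erase.1 hk
          obtain ⟨e, he, rfl⟩ := Finset.mem_image.1 hk2'
          refine ⟨e, he, ?_⟩
          simp only [r, if_neg hk1']
      rw [nc_image]
      have h6 : ((K.erase k2).image g).card = (K.erase k2).card :=
        Finset.card_image_of_injOn fun k hk k' hk' hkk =>
          hg k (Finset.mem_of_mem_erase hk) k' (Finset.mem_of_mem_erase hk') hkk
      rw [← h6, ← h5]
    rw [h4, Finset.card_erase_of_mem hk2m]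
    have h5 := hcnt.2
    have h6 : (S.image c).card = nc c S := (nc_image c S).symm
    omega

theorem sub_pairs (hC : Cls C) (hB : Bad C h v c E e0) {F : Finset ι} (hF : F ⊆ E) {a b : ℕ}
    (hcnt : Cnt c F a b) (h2 : rk v F + 2 ≤ 2 * h) : b ≤ rk v F := by
  by_contra hlt
  obtain ⟨S, hS, hSc⟩ := select hB hF hcnt (Nat.zero_le a) (show rk v F + 1 ≤ b by omega)
  have h3 := rk_mono v hS
  have h4 := hSc.2
  have h5 := recolour hC hB (hS.trans hF) c (fun _ _ _ _ h => h)
    (fun e he e' he' e'' he'' => hB.sys.two e (hF (hS he)) e' (hF (hS he')) e'' (hF (hS he'')))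
    (by omega) (by omega)
  rw [hSc.1, hSc.2, bd_eq_bb] at h5
  unfold bb at h5
  rw [if_pos rfl] at h5
  omega

theorem sub_ineq (hC : Cls C) (hB : Bad C h v c E e0) {F : Finset ι} (hF : F ⊆ E)
    (h1 : rk v F + 1 ≤ nc c F) (h2 : rk v F + 2 ≤ 2 * h) :
    h + (F.card - nc c F + 1) / 2 ≤ rk v F := by
  obtain ⟨a, b, hcnt⟩ := cnt_exists hB hF
  have hb := sub_pairs hC hB hF hcnt h2
  obtain ⟨hc1, hc2⟩ := hcnt
  obtain ⟨S, hS, hSc⟩ := select hB hF ⟨hc1, hc2⟩ (show rk v F + 1 - b ≤ a by omega) le_rfl
  have h3 := rk_mono v hS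
  have h4 := hSc.2
  have h5 := recolour hC hB (hS.trans hF) c (fun _ _ _ _ h => h)
    (fun e he e' he' e'' he'' => hB.sys.two e (hF (hS he)) e' (hF (hS he')) e'' (hF (hS he'')))
    (by omega) (by omega)
  rw [hSc.1, hSc.2, bd_eq_bb] at h5
  unfold bb at h5
  rw [if_neg (by omega)] at h5
  omega

theorem sub_merge (hC : Cls C) (hB : Bad C h v c E e0) {F : Finset ι} (hF : F ⊆ E)
    (h1 : rk v F + 2 ≤ nc c F) (h2 : rk v F + 2 ≤ 2 * h) :
    h + 1 + (F.card - nc c F) / 2 ≤ rk v F := by
  obtain ⟨a, b, hcnt⟩ := cnt_exists hB hF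
  have hb := sub_pairs hC hB hF hcnt h2
  obtain ⟨hc1, hc2⟩ := hcnt
  obtain ⟨S, hS, hSc⟩ := select hB hF ⟨hc1, hc2⟩ (show rk v F + 2 - b ≤ a by omega) le_rfl
  obtain ⟨c', hm1, hm2, hm3⟩ := merge hB (hS.trans hF) hSc (by omega)
  have h3 := rk_mono v hS
  have h4 := hm3.2
  have h5 := recolour hC hB (hS.trans hF) c' hm1 hm2 (by omega) (by omega)
  rw [hm3.1, hm3.2, bd_eq_bb] at h5
  unfold bb at h5
  split_ifs at h5 <;> omega

end RC
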