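import Pool.Agent.Helper73.RCS.Line
import Pool.Agent.Helper73.RCS.Sub

/-!
RCS-16a (moving the elements on the line of the triangle).  Put `L = span {x, y}`.  Call `e ∈ E` a
line element if `v e ∈ L`.  Put

`B' = {e ∈ B, v e ∉ L} ∪ {e ∈ E, v e ∈ L and there is f ∈ B with v f ∉ L, c f = c e}`, `A' = E \ B'`.

So the elements not on the line stay on their side, and a line element goes to the side of its
partner if the partner is not on the line and in `B`, otherwise to `A`.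

Split colours: let `a ∈ A'`, `b ∈ B'`, `c a = c b` (`a ≠ b`).  If `v a ∈ L`: as `a ∉ B'` there is no `f ∈ B` with
`v f ∉ L`, `c f = c a`; but `b ∈ B'` is itself such an `f` or gives one: contradiction.  So `v a ∉ L`, `a ∈ A`.
If `v b ∈ L` there is `f ∈ B`, `v f ∉ L`, `c f = c b`: then `a, b, f` are three different elements of the
same colour, contradiction to `hB.sys.two`.

Class: each `e ∈ A'` is in `A` or `v e ∈ L`; in the latter case `v e ≠ 0` (`hB.sys.ne`) and by `guts` (with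
`X = v '' A` or `X = v '' B`) `v e` is one of `x, y, z` or the negative of one: `hC.mono`.  The same for `B'`.

Spans: `span (v '' A') ≤ span (v '' A ∪ {x, y})`, `span (v '' B') ≤ span (v '' B ∪ {x, y})`.
-/

namespace RC

open Submodule Module

variable {C : ClsT} {ι κ V : Type} [DecidableEq ι] [AddCommGroup V] [Module ℚ V] {h : ℕ}
  {v : ι → V} {c : ι → κ} {E : Finset ι} {e0 : ι}

theorem rearr (hC : Cls C) (hB : Bad C h v c E e0) {A B : Finset ι} (hU : A ∪ B = E)
    (hd : Disjoint A B) {x y z : V} (hs : x + y + z = 0) (li : LinearIndependent ℚ ![x, y])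
    (hsp : span ℚ (v '' (A : Set ι) ∪ {x, y}) ⊓ span ℚ (v '' (B : Set ι) ∪ {x, y}) ≤
      span ℚ {x, y})
    (hA : C V (v '' (A : Set ι) ∪ {x, y, z})) (hB' : C V (v '' (B : Set ι) ∪ {x, y, z})) :
    ∃ A' B' : Finset ι, A' ∪ B' = E ∧ Disjoint A' B' ∧
      (∀ e ∈ A, v e ∉ span ℚ {x, y} → e ∈ A') ∧ (∀ e ∈ B, v e ∉ span ℚ {x, y} → e ∈ B') ∧
      C V (v '' (A' : Set ι) ∪ {x, y, z}) ∧ C V (v '' (B' : Set ι) ∪ {x, y, z}) ∧
      span ℚ (v '' (A' : Set ι)) ⊓ span ℚ (v '' (B' : Set ι)) ≤ span ℚ {x, y} ∧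
      (∀ a ∈ A', ∀ b ∈ B', c a = c b → v a ∉ span ℚ {x, y} ∧ v b ∉ span ℚ {x, y}) := by
  classical
  have hAE : ∀ a ∈ A, a ∈ E := fun a ha => hU ▸ Finset.mem_union_left _ ha
  have hBE : ∀ b ∈ B, b ∈ E := fun b hb => hU ▸ Finset.mem_union_right _ hb
  have hAB : ∀ a ∈ A, a ∉ B := fun a ha hb => Finset.disjoint_left.1 hd ha hb
  have hEAB : ∀ e ∈ E, e ∈ A ∨ e ∈ B := fun e he => Finset.mem_union.1 (hU.symm ▸ he)
  have xL : x ∈ span ℚ ({x, y} : Set V) := subset_span (by simp)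
  have yL : y ∈ span ℚ ({x, y} : Set V) := subset_span (by simp)
  -- the classes of the elements on the line
  have gA : ∀ e ∈ A, v e ∈ span ℚ ({x, y} : Set V) →
      (v e = x ∨ v e = y ∨ v e = z) ∨ (v e = -x ∨ v e = -y ∨ v e = -z) := fun e he hl =>
    guts (X := v '' (A : Set ι)) (hC.uni hA) hs li ⟨e, he, rfl⟩ hl (hB.sys.ne e (hAE e he))
  have gB : ∀ e ∈ B, v e ∈ span ℚ ({x, y} : Set V) →
      (v e = x ∨ v e = y ∨ v e = z) ∨ (v e = -x ∨ v e = -y ∨ v e = -z) := fun e he hl =>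
    guts (X := v '' (B : Set ι)) (hC.uni hB') hs li ⟨e, he, rfl⟩ hl (hB.sys.ne e (hBE e he))
  have fin6 : ∀ (Y : Set V) (w : V),
      (w = x ∨ w = y ∨ w = z) ∨ (w = -x ∨ w = -y ∨ w = -z) →
      w = 0 ∨ w ∈ Y ∪ {x, y, z} ∨ -w ∈ Y ∪ {x, y, z} := by
    intro Y w hw
    rcases hw with hw | hw
    · right; left; right
      simpa using hw
    · right; right; right
      rcases hw with rfl | rfl | rfl <;> simp
  set P : ι → Prop := fun e => (e ∈ B ∧ v e ∉ span ℚ ({x, y} : Set V)) ∨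
    (v e ∈ span ℚ ({x, y} : Set V) ∧ ∃ f ∈ B, v f ∉ span ℚ ({x, y} : Set V) ∧ c f = c e) with hP
  have mA : ∀ e, e ∈ E.filter (fun e => ¬ P e) ↔ e ∈ E ∧ ¬ P e := fun e => Finset.mem_filter
  have mB : ∀ e, e ∈ E.filter P ↔ e ∈ E ∧ P e := fun e => Finset.mem_filter
  have kA : ∀ e ∈ E.filter (fun e => ¬ P e), e ∈ A ∨ (e ∈ B ∧ v e ∈ span ℚ ({x, y} : Set V)) := by
    intro e he
    obtain ⟨heE, hn⟩ := (mA e).1 he
    rcases hEAB e heE with h1 | h1
    · exact Or.inl h1
    · right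
      refine ⟨h1, ?_⟩
      by_contra h2
      exact hn (Or.inl ⟨h1, h2⟩)
  have kB : ∀ e ∈ E.filter P, e ∈ B ∨ (e ∈ A ∧ v e ∈ span ℚ ({x, y} : Set V)) := by
    intro e he
    obtain ⟨heE, hn⟩ := (mB e).1 he
    rcases hEAB e heE with h1 | h1
    · right
      refine ⟨h1, ?_⟩
      rcases hn with h2 | h2
      · exact absurd h2.1 (hAB e h1)
      · exact h2.1
    · exact Or.inl h1
  refine ⟨E.filter (fun e => ¬ P e), E.filter P, ?_, ?_, ?_, ?_, ?_, ?_, ?_, ?_⟩
  · rw [Finset.union_comm]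
    exact Finset.filter_union_filter_not_eq _ _
  · exact (Finset.disjoint_filter_filter_not _ _ _).symm
  · intro e he hl
    refine (mA e).2 ⟨hAE e he, ?_⟩
    rintro (h1 | h1)
    · exact hAB e he h1.1
    · exact hl h1.1
  · intro e he hl
    exact (mB e).2 ⟨hBE e he, Or.inl ⟨he, hl⟩⟩
  · refine hC.mono hA ?_
    rintro w (⟨e, he, rfl⟩ | hw)
    · rcases kA e he with h1 | h1
      · exact Or.inr (Or.inl (Or.inl ⟨e, h1, rfl⟩))
      · exact fin6 _ _ (gB e h1.1 h1.2)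
    · exact Or.inr (Or.inl (Or.inr hw))
  · refine hC.mono hB' ?_
    rintro w (⟨e, he, rfl⟩ | hw)
    · rcases kB e he with h1 | h1
      · exact Or.inr (Or.inl (Or.inl ⟨e, h1, rfl⟩))
      · exact fin6 _ _ (gA e h1.1 h1.2)
    · exact Or.inr (Or.inl (Or.inr hw))
  · refine le_trans (inf_le_inf ?_ ?_) hsp
    · rw [span_le]
      rintro w ⟨e, he, rfl⟩
      rcases kA e he with h1 | h1
      · exact subset_span (Or.inl ⟨e, h1, rfl⟩)
      · exact span_mono Set.subset_union_right h1.2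
    · rw [span_le]
      rintro w ⟨e, he, rfl⟩
      rcases kB e he with h1 | h1
      · exact subset_span (Or.inl ⟨e, h1, rfl⟩)
      · exact span_mono Set.subset_union_right h1.2
  · intro a ha b hb hc
    obtain ⟨haE, hna⟩ := (mA a).1 ha
    obtain ⟨hbE, hpb⟩ := (mB b).1 hb
    have hva : v a ∉ span ℚ ({x, y} : Set V) := by
      intro hl
      apply hna
      right
      refine ⟨hl, ?_⟩
      rcases hpb with h1 | ⟨_, f, hf, hfl, hfc⟩
      · exact ⟨b, h1.1, h1.2, hc.symm⟩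
      · exact ⟨f, hf, hfl, hfc.trans hc.symm⟩
    refine ⟨hva, ?_⟩
    intro hl
    rcases hpb with h1 | ⟨_, f, hf, hfl, hfc⟩
    · exact h1.2 hl
    · have haA : a ∈ A := by
        rcases kA a ha with h1 | h1
        · exact h1
        · exact absurd h1.2 hva
      rcases hB.sys.two a haE b hbE f (hBE f hf) hc (hc.trans hfc.symm) with h1 | h1 | h1
      · subst h1
        exact hva hl
      · subst h1
        exact hAB a haA hf
      · subst h1
        exact hfl hl

end RC
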