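import Pool.Agent.Helper73.RCS.Sub

/-!
RCS-8 (combination).  If a nonzero vector `w` is in the span of a rainbow `T ⊆ S` and of a rainbow
`T' ⊆ S'` and no colour occurs in `S` and in `S'`, then `T ∪ T'` is rainbow and dependent (`T`, `T'` are
disjoint; if `T ∪ T'` is independent then the spans of `T` and `T'` intersect in `0`:
`LinearIndepOn.disjoint_span_image` or similar), with at most `k + l ≤ h` elements.

spn_zero: the span of the empty set is `0`.
-/

namespace RC

open Submodule Module

variable {C : ClsT} {ι κ V : Type} [AddCommGroup V] [Module ℚ V] {h : ℕ}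
  {v : ι → V} {c : ι → κ} {E : Finset ι} {e0 : ι}

theorem comb (hB : Bad C h v c E e0) {S S' : Finset ι} (hS : S ⊆ E) (hS' : S' ⊆ E)
    (hc : ∀ e ∈ S, ∀ e' ∈ S', c e ≠ c e') {w : V} (hw : w ≠ 0) {k l : ℕ}
    (h1 : Spn v c S w k) (h2 : Spn v c S' w l) (hkl : k + l ≤ h) : False := by
  classical
  obtain ⟨T, hTS, hTk, hTc, hwT⟩ := h1
  obtain ⟨T', hTS', hTl, hTc', hwT'⟩ := h2
  have hdj : Disjoint (T : Set ι) (T' : Set ι) := by
    rw [Set.disjoint_left]
    intro x hx hx'
    exact hc x (hTS hx) x (hTS' hx') rfl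
  apply hB.short
  refine ⟨T ∪ T', Finset.union_subset (hTS.trans hS) (hTS'.trans hS'),
    ((Finset.card_union_le _ _).trans (Nat.add_le_add hTk hTl)).trans hkl, ?_, ?_⟩
  · intro x hx y hy hxy
    rw [Finset.coe_union] at hx hy
    rcases hx with hx | hx <;> rcases hy with hy | hy
    · exact hTc hx hy hxy
    · exact absurd hxy (hc x (hTS hx) y (hTS' hy))
    · exact absurd hxy.symm (hc y (hTS hy) x (hTS' hx))
    · exact hTc' hx hy hxy
  · intro hli
    rw [Finset.coe_union] at hli
    have h3 := (linearIndepOn_union_iff hdj).1 hli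
    exact hw (Submodule.disjoint_def.1 h3.2.2 w hwT hwT')

theorem spn_zero {S : Finset ι} {w : V} (hw : w ≠ 0) (h1 : Spn v c S w 0) : False := by
  obtain ⟨T, _, hT0, _, hwT⟩ := h1
  have hT : T = ∅ := Finset.card_eq_zero.1 (Nat.le_zero.1 hT0)
  rw [hT, Finset.coe_empty, Set.image_empty, span_empty, Submodule.mem_bot] at hwT
  exact hw hwT

end RC
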