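import Pool.Agent.Helper73.RCS.Defs
import Pool.Agent.Helper59.RC.NcEq

/-!
RCS-5 (counting for a partition `A, B` of the bad system).

counts: `s` is the number of the colours which have an element in `A` and an element in `B`, `bA` and
`bB` the numbers of colour classes of size two inside `A`, inside `B`.  All classes except `{e0}`
have exactly two elements (`hB.two`, `hB.partner`).  So `|A| = 2 bA + s`, `nc A = bA + s`,
`|B| = 2 bB + s + 1`, `nc B = bB + s + 1`.  The number of colours is `2 h = bA + bB + s + 1`.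

Possible proof: `nc c E = nc c A + nc c B - s` with `s` the number of colours in
`A.image c ∩ B.image c`; `|E| = ∑` over the colours of the size of the class; for a colour in the
intersection the class has exactly one element in `A` and one in `B`; for a colour only in `A` the
class is contained in `A` and has two elements.

The last three parts: if `s = 0` no colour is common.  If `s = 1` there is exactly one common
colour, its elements are `a1 ∈ A`, `b1 ∈ B`; the sets `A \ {a1}`, `B \ {b1}` have one colour and one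
element less (`b1 ≠ e0` as the class of `e0` is `{e0}`).  If `bB = 0` two different elements of `B`
never have the same colour.

rank_sum: `Submodule.finrank_sup_add_finrank_inf_eq`.
-/

namespace RC

open Submodule Module

variable {C : ClsT} {ι κ V : Type} [DecidableEq ι] [AddCommGroup V] [Module ℚ V] {h : ℕ}
  {v : ι → V} {c : ι → κ} {E : Finset ι} {e0 : ι}

omit [DecidableEq ι] in
private theorem nc_eq_card [DecidableEq κ] (S : Finset ι) : nc c S = (S.image c).card :=
  nc_image c S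

private theorem cnt_pairs (S : Finset ι)
    (hp : ∀ a ∈ S, ∃ a' ∈ S, a' ≠ a ∧ c a' = c a)
    (h2 : ∀ a ∈ S, ∀ a' ∈ S, ∀ a'' ∈ S, c a = c a' → c a = c a'' → a = a' ∨ a = a'' ∨ a' = a'') :
    S.card = 2 * nc c S := by
  classical
  have h1 := Finset.card_eq_sum_card_image c S
  have h3 : ∀ k ∈ S.image c, (S.filter (fun a => c a = k)).card = 2 := by
    intro k hk
    obtain ⟨a, ha, rfl⟩ := Finset.mem_image.1 hk
    obtain ⟨a', ha', hne, hc⟩ := hp a ha
    have : S.filter (fun x => c x = c a) = {a, a'} := by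
      ext x
      simp only [Finset.mem_filter, Finset.mem_insert, Finset.mem_singleton]
      constructor
      · rintro ⟨hx, hxc⟩
        rcases h2 a ha a' ha' x hx hc.symm hxc.symm with h | h | h
        · exact absurd h.symm hne
        · exact Or.inl h.symm
        · exact Or.inr h.symm
      · rintro (rfl | rfl)
        · exact ⟨ha, rfl⟩
        · exact ⟨ha', hc⟩
    rw [this, Finset.card_pair (Ne.symm hne)]
  rw [Finset.sum_congr rfl h3, Finset.sum_const, smul_eq_mul] at h1
  rw [nc_eq_card, h1, mul_comm]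

private theorem nc_union_disj (S T : Finset ι) (hd : ∀ a ∈ S, ∀ b ∈ T, c a ≠ c b) :
    nc c (S ∪ T) = nc c S + nc c T := by
  classical
  rw [nc_eq_card, nc_eq_card, nc_eq_card, Finset.image_union]
  apply Finset.card_union_of_disjoint
  rw [Finset.disjoint_left]
  intro k hk hk'
  obtain ⟨a, ha, rfl⟩ := Finset.mem_image.1 hk
  obtain ⟨b, hb, hbc⟩ := Finset.mem_image.1 hk'
  exact hd a ha b hb hbc.symm

omit [DecidableEq ι] in
private theorem nc_inj (S : Finset ι) (hi : Set.InjOn c (S : Set ι)) : nc c S = S.card := by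
  classical
  rw [nc_eq_card]
  exact Finset.card_image_of_injOn hi

theorem counts (hB : Bad C h v c E e0) {A B : Finset ι} (hU : A ∪ B = E) (hd : Disjoint A B)
    (he : e0 ∈ B) : ∃ bA bB s : ℕ, Cnt c A s bA ∧ Cnt c B (s + 1) bB ∧ bA + bB + s + 1 = 2 * h ∧
      (s = 0 → ∀ a ∈ A, ∀ b ∈ B, c a ≠ c b) ∧
      (s = 1 → ∃ a1 ∈ A, ∃ b1 ∈ B, c a1 = c b1 ∧ (∀ a ∈ A, ∀ b ∈ B, c a = c b → a = a1 ∧ b = b1) ∧
        Cnt c (A.erase a1) 0 bA ∧ Cnt c (B.erase b1) 1 bB) ∧
      (bB = 0 → ∀ b ∈ B, ∀ b' ∈ B, c b = c b' → b = b') := by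
  classical
  have hAE : ∀ a ∈ A, a ∈ E := fun a ha => hU ▸ Finset.mem_union_left _ ha
  have hBE : ∀ b ∈ B, b ∈ E := fun b hb => hU ▸ Finset.mem_union_right _ hb
  have hAB : ∀ a ∈ A, ∀ b ∈ B, a ≠ b := fun a ha b hb => Finset.disjoint_iff_ne.1 hd a ha b hb
  set A1 := A.filter (fun a => ∃ b ∈ B, c a = c b) with hA1
  set A2 := A.filter (fun a => ¬ ∃ b ∈ B, c a = c b) with hA2
  set B1 := B.filter (fun b => ∃ a ∈ A, c a = c b) with hB1
  set B2 := B.filter (fun b => ¬ (∃ a ∈ A, c a = c b) ∧ b ≠ e0) with hB2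
  have he0A : ∀ a ∈ A, c a ≠ c e0 := fun a ha hc =>
    hAB a ha e0 he (hB.single a (hAE a ha) hc)
  have mA1 : ∀ a, a ∈ A1 ↔ a ∈ A ∧ ∃ b ∈ B, c a = c b := fun a => Finset.mem_filter
  have mA2 : ∀ a, a ∈ A2 ↔ a ∈ A ∧ ¬ ∃ b ∈ B, c a = c b := fun a => Finset.mem_filter
  have mB1 : ∀ b, b ∈ B1 ↔ b ∈ B ∧ ∃ a ∈ A, c a = c b := fun b => Finset.mem_filter
  have mB2 : ∀ b, b ∈ B2 ↔ b ∈ B ∧ ¬ (∃ a ∈ A, c a = c b) ∧ b ≠ e0 := fun b => Finset.mem_filter
  have iA1 : Set.InjOn c (A1 : Set ι) := by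
    intro a ha a' ha' hc
    rw [Finset.mem_coe, mA1] at ha ha'
    obtain ⟨haA, b, hb, hcb⟩ := ha
    rcases hB.sys.two b (hBE b hb) a (hAE a haA) a' (hAE a' ha'.1) hcb.symm
      (hcb.symm.trans hc) with h | h | h
    · exact absurd h.symm (hAB a haA b hb)
    · exact absurd h.symm (hAB a' ha'.1 b hb)
    · exact h
  have iB1 : Set.InjOn c (B1 : Set ι) := by
    intro b hb b' hb' hc
    rw [Finset.mem_coe, mB1] at hb hb'
    obtain ⟨hbB, a, ha, hca⟩ := hb
    rcases hB.sys.two a (hAE a ha) b (hBE b hbB) b' (hBE b' hb'.1) hca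
      (hca.trans hc) with h | h | h
    · exact absurd h (hAB a ha b hbB)
    · exact absurd h (hAB a ha b' hb'.1)
    · exact h
  have imAB : A1.image c = B1.image c := by
    ext k
    simp only [Finset.mem_image]
    constructor
    · rintro ⟨a, ha, rfl⟩
      obtain ⟨haA, b, hb, hcb⟩ := (mA1 a).1 ha
      exact ⟨b, (mB1 b).2 ⟨hb, a, haA, hcb⟩, hcb.symm⟩
    · rintro ⟨b, hb, rfl⟩
      obtain ⟨hbB, a, ha, hca⟩ := (mB1 b).1 hb
      exact ⟨a, (mA1 a).2 ⟨ha, b, hbB, hca⟩, hca⟩
  have nA1 : nc c A1 = A1.card := nc_inj A1 iA1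
  have nB1 : nc c B1 = B1.card := nc_inj B1 iB1
  have eAB : B1.card = A1.card := by
    rw [← nA1, ← nB1, nc_eq_card, nc_eq_card, imAB]
  have pA2 : A2.card = 2 * nc c A2 := by
    apply cnt_pairs
    · intro a ha
      obtain ⟨haA, hn⟩ := (mA2 a).1 ha
      obtain ⟨a', ha', hne, hc⟩ := hB.partner a (hAE a haA) (fun h => hAB a haA e0 he h)
      refine ⟨a', (mA2 a').2 ⟨?_, ?_⟩, hne, hc⟩
      · rcases Finset.mem_union.1 (hU.symm ▸ ha' : a' ∈ A ∪ B) with h | h
        · exact h
        · exact absurd ⟨a', h, hc.symm⟩ hn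
      · rintro ⟨b, hb, hcb⟩
        exact hn ⟨b, hb, hc.symm.trans hcb⟩
    · intro a ha a' ha' a'' ha'' h1 h2
      exact hB.sys.two a (hAE a ((mA2 a).1 ha).1) a' (hAE a' ((mA2 a').1 ha').1) a''
        (hAE a'' ((mA2 a'').1 ha'').1) h1 h2
  have pB2 : B2.card = 2 * nc c B2 := by
    apply cnt_pairs
    · intro b hb
      obtain ⟨hbB, hn, hb0⟩ := (mB2 b).1 hb
      obtain ⟨b', hb', hne, hc⟩ := hB.partner b (hBE b hbB) hb0
      refine ⟨b', (mB2 b').2 ⟨?_, ?_, ?_⟩, hne, hc⟩
      · rcases Finset.mem_union.1 (hU.symm ▸ hb' : b' ∈ A ∪ B) with h | h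
        · exact absurd ⟨b', h, hc⟩ hn
        · exact h
      · rintro ⟨a, ha, hca⟩
        exact hn ⟨a, ha, hca.trans hc⟩
      · rintro rfl
        exact hb0 (hB.single b (hBE b hbB) hc.symm)
    · intro a ha a' ha' a'' ha'' h1 h2
      exact hB.sys.two a (hBE a ((mB2 a).1 ha).1) a' (hBE a' ((mB2 a').1 ha').1) a''
        (hBE a'' ((mB2 a'').1 ha'').1) h1 h2
  have uA : A = A1 ∪ A2 := by
    ext a
    rw [Finset.mem_union, mA1, mA2]
    constructor
    · intro ha
      by_cases h1 : ∃ b ∈ B, c a = c b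
      · exact Or.inl ⟨ha, h1⟩
      · exact Or.inr ⟨ha, h1⟩
    · rintro (⟨ha, _⟩ | ⟨ha, _⟩) <;> exact ha
  have hdA : ∀ a ∈ A1, ∀ b ∈ A2, c a ≠ c b := by
    intro a ha b hb hc
    obtain ⟨_, x, hx, hcx⟩ := (mA1 a).1 ha
    exact ((mA2 b).1 hb).2 ⟨x, hx, hc.symm.trans hcx⟩
  have dA : Disjoint A1 A2 := by
    rw [Finset.disjoint_left]
    intro a h1 h2
    exact hdA a h1 a h2 rfl
  have cA : A.card = A1.card + A2.card := by
    conv_lhs => rw [uA]
    exact Finset.card_union_of_disjoint dA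
  have ncA : nc c A = A1.card + nc c A2 := by
    conv_lhs => rw [uA]
    rw [nc_union_disj _ _ hdA, nA1]
  -- the set `{e0} ∪ B2`
  have n0 : nc c ({e0} : Finset ι) = 1 := by
    rw [nc_inj _ (by simp)]
    simp
  have hd0 : ∀ a ∈ ({e0} : Finset ι), ∀ b ∈ B2, c a ≠ c b := by
    intro a ha b hb hc
    rw [Finset.mem_singleton] at ha
    subst ha
    obtain ⟨hbB, hn, hb0⟩ := (mB2 b).1 hb
    exact hb0 (hB.single b (hBE b hbB) hc.symm)
  have n02 : nc c ({e0} ∪ B2) = 1 + nc c B2 := by
    rw [nc_union_disj _ _ hd0, n0]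
  have c02 : ({e0} ∪ B2).card = 1 + B2.card := by
    rw [Finset.card_union_of_disjoint, Finset.card_singleton]
    rw [Finset.disjoint_left]
    intro a h1 h2
    exact hd0 a h1 a h2 rfl
  have uB : B = B1 ∪ ({e0} ∪ B2) := by
    ext b
    rw [Finset.mem_union, Finset.mem_union, mB1, mB2, Finset.mem_singleton]
    constructor
    · intro hb
      by_cases h1 : ∃ a ∈ A, c a = c b
      · exact Or.inl ⟨hb, h1⟩
      · by_cases h2 : b = e0
        · exact Or.inr (Or.inl h2)
        · exact Or.inr (Or.inr ⟨hb, h1, h2⟩)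
    · rintro (⟨hb, _⟩ | rfl | ⟨hb, _⟩)
      · exact hb
      · exact he
      · exact hb
  have hdB : ∀ a ∈ B1, ∀ b ∈ {e0} ∪ B2, c a ≠ c b := by
    intro b hb b' hb' hc
    obtain ⟨hbB, a, ha, hca⟩ := (mB1 b).1 hb
    rcases Finset.mem_union.1 hb' with h | h
    · rw [Finset.mem_singleton] at h
      subst h
      exact he0A a ha (hca.trans hc)
    · exact ((mB2 b').1 h).2.1 ⟨a, ha, hca.trans hc⟩
  have dB : Disjoint B1 ({e0} ∪ B2) := by
    rw [Finset.disjoint_left]
    intro a h1 h2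
    exact hdB a h1 a h2 rfl
  have cB : B.card = A1.card + (1 + B2.card) := by
    conv_lhs => rw [uB]
    rw [Finset.card_union_of_disjoint dB, c02, eAB]
  have ncB : nc c B = A1.card + (1 + nc c B2) := by
    conv_lhs => rw [uB]
    rw [nc_union_disj _ _ hdB, nB1, n02, eAB]
  have cE : E.card = A.card + B.card := by
    rw [← hU]
    exact Finset.card_union_of_disjoint hd
  have hcard := hB.card
  refine ⟨nc c A2, nc c B2, A1.card, ⟨by omega, by omega⟩, ⟨by omega, by omega⟩, by omega,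
    ?_, ?_, ?_⟩
  · intro hs a ha b hb hc
    have : a ∈ A1 := (mA1 a).2 ⟨ha, b, hb, hc⟩
    rw [Finset.card_eq_zero.1 hs] at this
    exact absurd this (Finset.notMem_empty a)
  · intro hs
    obtain ⟨a1, ha1⟩ := Finset.card_eq_one.1 hs
    obtain ⟨b1, hb1⟩ := Finset.card_eq_one.1 (eAB.trans hs)
    have m1 : a1 ∈ A1 := ha1 ▸ Finset.mem_singleton_self a1
    have m2 : b1 ∈ B1 := hb1 ▸ Finset.mem_singleton_self b1
    have hu : ∀ a ∈ A, ∀ b ∈ B, c a = c b → a = a1 ∧ b = b1 := by
      intro a ha b hb hc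
      have h1 : a ∈ A1 := (mA1 a).2 ⟨ha, b, hb, hc⟩
      have h2 : b ∈ B1 := (mB1 b).2 ⟨hb, a, ha, hc⟩
      rw [ha1, Finset.mem_singleton] at h1
      rw [hb1, Finset.mem_singleton] at h2
      exact ⟨h1, h2⟩
    refine ⟨a1, ((mA1 a1).1 m1).1, b1, ((mB1 b1).1 m2).1, ?_, hu, ?_, ?_⟩
    · obtain ⟨haA, b, hb, hcb⟩ := (mA1 a1).1 m1
      rw [hcb, (hu a1 haA b hb hcb).2]
    · have e1 : A.erase a1 = A2 := by
        ext a
        rw [Finset.mem_erase]
        constructor
        · rintro ⟨hne, ha⟩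
          refine (mA2 a).2 ⟨ha, ?_⟩
          rintro ⟨b, hb, hcb⟩
          exact hne (hu a ha b hb hcb).1
        · intro ha
          refine ⟨?_, ((mA2 a).1 ha).1⟩
          rintro rfl
          exact hdA a m1 a ha rfl
      rw [e1]
      exact ⟨by omega, by omega⟩
    · have e1 : B.erase b1 = {e0} ∪ B2 := by
        ext b
        rw [Finset.mem_erase]
        constructor
        · rintro ⟨hne, hb⟩
          rw [uB, Finset.mem_union] at hb
          rcases hb with h | h
          · rw [hb1, Finset.mem_singleton] at h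
            exact absurd h hne
          · exact h
        · intro hb
          refine ⟨?_, ?_⟩
          · rintro rfl
            exact hdB b m2 b hb rfl
          · rw [uB]
            exact Finset.mem_union_right _ hb
      rw [e1]
      exact ⟨by omega, by omega⟩
  · intro hs b hb b' hb' hc
    have hB2e : B2 = ∅ := by
      rw [← Finset.card_eq_zero]
      omega
    rw [uB, hB2e, Finset.union_empty, Finset.mem_union, Finset.mem_singleton] at hb hb'
    have hE0 : ∀ x ∈ B1, c x ≠ c e0 := fun x hx =>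
      hdB x hx e0 (Finset.mem_union_left _ (Finset.mem_singleton_self e0))
    rcases hb with h | h <;> rcases hb' with h' | h'
    · exact iB1 h h' hc
    · subst h'
      exact absurd hc (hE0 b h)
    · subst h
      exact absurd hc.symm (hE0 b' h')
    · rw [h, h']

theorem rank_sum (hB : Bad C h v c E e0) {A B : Finset ι} (hU : A ∪ B = E) :
    rk v A + rk v B + 1 = 2 * h + finrank ℚ
      (span ℚ (v '' (A : Set ι)) ⊓ span ℚ (v '' (B : Set ι)) : Submodule ℚ V) := by
  have h1 := hB.rank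
  have fA : FiniteDimensional ℚ (span ℚ (v '' (A : Set ι))) :=
    FiniteDimensional.span_of_finite ℚ ((Finset.finite_toSet A).image v)
  have fB : FiniteDimensional ℚ (span ℚ (v '' (B : Set ι))) :=
    FiniteDimensional.span_of_finite ℚ ((Finset.finite_toSet B).image v)
  have h2 := Submodule.finrank_sup_add_finrank_inf_eq (span ℚ (v '' (A : Set ι)))
    (span ℚ (v '' (B : Set ι)))
  have h3 : span ℚ (v '' (E : Set ι)) =
      span ℚ (v '' (A : Set ι)) ⊔ span ℚ (v '' (B : Set ι)) := by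
    rw [← hU, Finset.coe_union, Set.image_union, span_union]
  unfold rk at h1 ⊢
  rw [h3] at h1
  omega

omit [DecidableEq ι] in
/-- The dimension of the intersection of the spans is at most 2 if the intersection is contained in
the span of two vectors, at most 1 if it is contained in the span of one vector. -/
theorem finrank_inf_le {A B : Finset ι} {U : Submodule ℚ V} [FiniteDimensional ℚ U]
    (hU : span ℚ (v '' (A : Set ι)) ⊓ span ℚ (v '' (B : Set ι)) ≤ U) :
    finrank ℚ (span ℚ (v '' (A : Set ι)) ⊓ span ℚ (v '' (B : Set ι)) : Submodule ℚ V) ≤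
      finrank ℚ U := by
  exact Submodule.finrank_mono hU

end RC
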