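import Pool.Agent.Helper73.RCS.Defs

/-!
Symmetries of `Side` and first consequences.
-/

namespace RC

open Submodule Module

variable {C : ClsT} {ι V : Type} [AddCommGroup V] [Module ℚ V] {v : ι → V} {X : Finset ι}
  {x y z : V}

theorem Side.ne_x (hs : Side C v X x y z) : x ≠ 0 := by
  have := hs.li.ne_zero 0
  simpa using this

theorem Side.ne_y (hs : Side C v X x y z) : y ≠ 0 := by
  have := hs.li.ne_zero 1
  simpa using this

theorem Side.eq_z (hs : Side C v X x y z) : z = -x - y := by
  have h := hs.sum
  have : z = (x + y + z) - x - y := by abel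
  rw [this, h]; abel

theorem Side.memz (hs : Side C v X x y z) : z ∈ span ℚ (v '' (X : Set ι)) := by
  rw [hs.eq_z]
  exact sub_mem (neg_mem hs.memx) hs.memy

theorem li_swap {x y : V} (h : LinearIndependent ℚ ![x, y]) : LinearIndependent ℚ ![y, x] := by
  rw [LinearIndependent.pair_iff] at h ⊢
  intro s t hst
  have := h t s (by rw [add_comm]; exact hst)
  exact ⟨this.2, this.1⟩

theorem li_rot {x y z : V} (h : LinearIndependent ℚ ![x, y]) (hs : x + y + z = 0) :
    LinearIndependent ℚ ![y, z] := by
  have hz : z = -x - y := by
    have : z = (x + y + z) - x - y := by abel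
    rw [this, hs]; abel
  rw [LinearIndependent.pair_iff] at h ⊢
  intro s t hst
  rw [hz] at hst
  have h1 : (-t) • x + (s - t) • y = 0 := by
    rw [← hst]; module
  have := h _ _ h1
  constructor
  · linarith [this.1, this.2]
  · linarith [this.1, this.2]

theorem Side.swap (hs : Side C v X x y z) : Side C v X y x z where
  sum := by rw [add_comm y x]; exact hs.sum
  li := li_swap hs.li
  cls := by
    have h := hs.cls
    have e : v '' (X : Set ι) ∪ {y, x, z} = v '' (X : Set ι) ∪ {x, y, z} := by
      rw [Set.insert_comm]
    rw [e]; exact h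
  memx := hs.memy
  memy := hs.memx

theorem Side.rot (hs : Side C v X x y z) : Side C v X y z x where
  sum := by
    have h := hs.sum
    have e : y + z + x = x + y + z := by abel
    rw [e]; exact h
  li := li_rot hs.li hs.sum
  cls := by
    have h := hs.cls
    have e : v '' (X : Set ι) ∪ {y, z, x} = v '' (X : Set ι) ∪ {x, y, z} := by
      congr 1
      ext w
      simp only [Set.mem_insert_iff, Set.mem_singleton_iff]
      tauto
    rw [e]; exact h
  memx := hs.memy
  memy := hs.memz

theorem Side.ne_z (hs : Side C v X x y z) : z ≠ 0 := hs.rot.ne_y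

end RC
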