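import Pool.Agent.Helper73.RCS.Line
import Pool.Agent.Helper73.RCS.Sides

/-!
A combination of two of the three vectors `x, y, z` in the span of a subset `T` of a side.
-/

namespace RC

open Submodule Module

variable {C : ClsT} {ι V : Type} [AddCommGroup V] [Module ℚ V] {v : ι → V} {X : Finset ι}
  {x y z : V}

theorem line3 (hC : Cls C) (hs : Side C v X x y z) {T : Finset ι} (hT : T ⊆ X) {α β : ℚ}
    (hab : α ≠ 0 ∨ β ≠ 0) (hw : α • x + β • y ∈ span ℚ (v '' (T : Set ι))) :
    x ∈ span ℚ (v '' (T : Set ι)) ∨ y ∈ span ℚ (v '' (T : Set ι)) ∨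
      z ∈ span ℚ (v '' (T : Set ι)) := by
  have h1 : Uni (v '' (X : Set ι) ∪ {x, y, z}) := hC.uni hs.cls
  have h2 : α • x + β • y ∈ span ℚ ({x, y} : Set V) := by
    refine add_mem (smul_mem _ _ (subset_span (by simp))) (smul_mem _ _ (subset_span (by simp)))
  have h3 : α • x + β • y ≠ 0 := by
    intro h0
    have := (LinearIndependent.pair_iff.1 hs.li) α β h0
    rcases hab with h | h
    · exact h this.1
    · exact h this.2
  exact span_line h1 hs.sum hs.li (Set.image_mono (by exact_mod_cast hT)) hw h2 h3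

/-- The same for `x` and `z`. -/
theorem line3' (hC : Cls C) (hs : Side C v X x y z) {T : Finset ι} (hT : T ⊆ X) {α β : ℚ}
    (hab : α ≠ 0 ∨ β ≠ 0) (hw : α • x + β • z ∈ span ℚ (v '' (T : Set ι))) :
    x ∈ span ℚ (v '' (T : Set ι)) ∨ y ∈ span ℚ (v '' (T : Set ι)) ∨
      z ∈ span ℚ (v '' (T : Set ι)) := by
  have hs' : Side C v X x z y := hs.rot.rot.swap
  rcases line3 hC hs' hT hab hw with h | h | h
  · exact Or.inl h
  · exact Or.inr (Or.inr h)
  · exact Or.inr (Or.inl h)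

/-- The same for `y` and `z`. -/
theorem line3'' (hC : Cls C) (hs : Side C v X x y z) {T : Finset ι} (hT : T ⊆ X) {α β : ℚ}
    (hab : α ≠ 0 ∨ β ≠ 0) (hw : α • y + β • z ∈ span ℚ (v '' (T : Set ι))) :
    x ∈ span ℚ (v '' (T : Set ι)) ∨ y ∈ span ℚ (v '' (T : Set ι)) ∨
      z ∈ span ℚ (v '' (T : Set ι)) := by
  rcases line3 hC hs.rot hT hab hw with h | h | h
  · exact Or.inr (Or.inl h)
  · exact Or.inr (Or.inr h)
  · exact Or.inl h

end RC
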