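import Pool.Agent.Helper73.RCS.Ext
import Pool.Agent.Helper73.RCS.Line3

/-!
RCS-7a (gadgets of new single elements).

gad1: `ext_id` with `k = 1`, `m = 1`, `g = ![x]`, `γ = ![Sum.inr 0]`, `Y = {x}`.  `bd (u + b + 1)
(u + 2 b + 1) = bb (u + 1) b = u + 1 + b / 2` (`bd_eq_bb`).  The result: `T` with `T.card + 1 ≤ u + 1 + b / 2`
and `β 0 • x ∈ span T`, `β 0 ≠ 0`, so `x ∈ span T`.

gad2: `ext_id` with `k = 2`, `m = 2`, `g = ![x, y]`, `γ = ![Sum.inr 0, Sum.inr 1]`, `Y = {x, y, z}`.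
`bd (u + b + 2) (u + 2 b + 2) = bb (u + 2) b = u + 2 + b / 2`.  If `β 1 = 0` then `x ∈ span T`, `T.card ≤ u + 1 + b / 2`.
If `β 0 = 0` the same for `y`.  If both are not zero then `T.card ≤ u + b / 2` and
`β 0 • x + β 1 • y ∈ span T`, by `line3` `x`, `y` or `z` is in the span of `T`.
-/

namespace RC

open Submodule Module

variable {C : ClsT} {ι κ V : Type} [AddCommGroup V] [Module ℚ V] {h : ℕ}
  {v : ι → V} {c : ι → κ} {E : Finset ι} {e0 : ι}

theorem gadA_one {k : ℕ} {β : Fin k → ℚ} {i : Fin k} (hi : β i ≠ 0) :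
    1 ≤ (Finset.univ.filter fun i => β i ≠ 0).card :=
  Finset.card_pos.2 ⟨i, Finset.mem_filter.2 ⟨Finset.mem_univ _, hi⟩⟩

theorem gadA_two {k : ℕ} {β : Fin k → ℚ} {i i' : Fin k} (hi : β i ≠ 0) (hi' : β i' ≠ 0)
    (hne : i ≠ i') : 2 ≤ (Finset.univ.filter fun i => β i ≠ 0).card := by
  have h1 : ({i, i'} : Finset (Fin k)) ⊆ Finset.univ.filter fun i => β i ≠ 0 := by
    intro j hj
    rw [Finset.mem_insert, Finset.mem_singleton] at hj
    rcases hj with rfl | rfl
    · exact Finset.mem_filter.2 ⟨Finset.mem_univ _, hi⟩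
    · exact Finset.mem_filter.2 ⟨Finset.mem_univ _, hi'⟩
  have h2 := Finset.card_le_card h1
  rwa [Finset.card_pair hne] at h2

theorem gadA_smul {U : Submodule ℚ V} {r : ℚ} {y : V} (hr : r ≠ 0) (h : r • y ∈ U) : y ∈ U := by
  have := U.smul_mem r⁻¹ h
  rwa [smul_smul, inv_mul_cancel₀ hr, one_smul] at this

theorem gadA_Y {X : Finset ι} {x y z : V} (hs : Side C v X x y z) :
    ({x, y, z} : Set V) ⊆ span ℚ (v '' (X : Set ι)) := by
  intro w hw
  simp only [Set.mem_insert_iff, Set.mem_singleton_iff] at hw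
  rcases hw with rfl | rfl | rfl
  · exact hs.memx
  · exact hs.memy
  · exact hs.memz

theorem gad1 (hC : Cls C) (hB : Bad C h v c E e0) {S X : Finset ι} (hS : S ⊆ X) (hX : X ⊆ E)
    {x : V} (hcls : C V (v '' (X : Set ι) ∪ {x})) (hx0 : x ≠ 0)
    (hx : x ∈ span ℚ (v '' (X : Set ι))) {u b : ℕ} (hcnt : Cnt c S u b)
    (hr : rk v X ≤ u + b) (hn : u + b + 1 < 2 * h) (hb : u + 1 + b / 2 ≤ h) :
    Spn v c S x (u + b / 2) := by
  have hbd : bd (u + b + 1) (u + 2 * b + 1) = u + 1 + b / 2 := by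
    unfold bd
    rw [if_neg (by omega)]
    omega
  obtain ⟨T, β, hT, hi, hc, hne, hinj, hnew, hw⟩ := ext_id hC hB hS hX hcls
    (by intro w hw; rw [Set.mem_singleton_iff] at hw; rw [hw]; exact hx)
    (k := 1) (m := 1) hcnt ![x] ![Sum.inr 0]
    (by intro i; fin_cases i; simp)
    (by intro i; fin_cases i; exact hx0)
    (by
      intro i q hq
      fin_cases i
      cases hq)
    (by
      intro i i' hne _
      exact absurd (Subsingleton.elim i i') hne)
    (by
      intro i i' i'' _ _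
      exact Or.inl (Subsingleton.elim i i'))
    (by
      intro t
      refine ⟨0, ?_⟩
      have : t = 0 := Subsingleton.elim _ _
      rw [this]
      rfl)
    (by omega) (by omega)
    (by rw [hbd]; exact hb)
  rw [hbd] at hc
  rw [Fin.sum_univ_one] at hw
  have hw' : β 0 • x ∈ span ℚ (v '' (T : Set ι)) := hw
  have h0 : β 0 ≠ 0 := by
    obtain ⟨i, hi⟩ := hne
    fin_cases i
    exact hi
  have h2 := gadA_one h0
  exact ⟨T, hT, by omega, hi, gadA_smul h0 hw'⟩

theorem gad2 (hC : Cls C) (hB : Bad C h v c E e0) {S X : Finset ι} (hS : S ⊆ X) (hX : X ⊆ E)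
    {x y z : V} (hs : Side C v X x y z) {u b : ℕ} (hcnt : Cnt c S u b)
    (hr : rk v X ≤ u + b + 1) (hn : u + b + 2 < 2 * h) (hb : u + 2 + b / 2 ≤ h) :
    Spn v c S x (u + 1 + b / 2) ∨ Spn v c S y (u + 1 + b / 2) ∨ Spn v c S z (u + b / 2) := by
  have hbd : bd (u + b + 2) (u + 2 * b + 2) = u + 2 + b / 2 := by
    unfold bd
    rw [if_neg (by omega)]
    omega
  obtain ⟨T, β, hT, hi, hc, hne, hinj, hnew, hw⟩ := ext_id hC hB hS hX hs.cls (gadA_Y hs)
    (k := 2) (m := 2) hcnt ![x, y] ![Sum.inr 0, Sum.inr 1]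
    (by intro i; fin_cases i <;> simp)
    (by
      intro i
      fin_cases i
      · exact hs.ne_x
      · exact hs.ne_y)
    (by
      intro i q hq
      fin_cases i
      · cases hq
      · cases hq)
    (by
      intro i i' hne hii
      fin_cases i <;> fin_cases i'
      · exact absurd rfl hne
      · exact absurd hii (by simp)
      · exact absurd hii (by simp)
      · exact absurd rfl hne)
    (by
      intro i i' i'' _ _
      fin_cases i <;> fin_cases i' <;> fin_cases i'' <;> simp)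
    (by
      intro t
      fin_cases t
      · exact ⟨0, rfl⟩
      · exact ⟨1, rfl⟩)
    (by omega) (by omega)
    (by rw [hbd]; exact hb)
  rw [hbd] at hc
  rw [Fin.sum_univ_two] at hw
  have hw' : β 0 • x + β 1 • y ∈ span ℚ (v '' (T : Set ι)) := hw
  by_cases h0 : β 0 = 0
  · have h1 : β 1 ≠ 0 := by
      obtain ⟨i, hi⟩ := hne
      fin_cases i
      · exact absurd h0 hi
      · exact hi
    have h2 := gadA_one h1
    rw [h0, zero_smul, zero_add] at hw'
    exact Or.inr (Or.inl ⟨T, hT, by omega, hi, gadA_smul h1 hw'⟩)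
  · by_cases h1 : β 1 = 0
    · have h2 := gadA_one h0
      rw [h1, zero_smul, add_zero] at hw'
      exact Or.inl ⟨T, hT, by omega, hi, gadA_smul h0 hw'⟩
    · have h2 := gadA_two h0 h1 (by decide)
      rcases line3 hC hs (hT.trans hS) (Or.inl h0) hw' with h3 | h3 | h3
      · exact Or.inl ⟨T, hT, by omega, hi, h3⟩
      · exact Or.inr (Or.inl ⟨T, hT, by omega, hi, h3⟩)
      · exact Or.inr (Or.inr ⟨T, hT, by omega, hi, h3⟩)

end RC
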