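import Pool.Agent.Helper73.RCS.Num
import Pool.Agent.Helper73.RCS.Counts
import Pool.Agent.Helper73.RCS.Comb
import Pool.Agent.Helper73.RCS.GadA
import Pool.Agent.Helper73.RCS.Rank2

/-!
RCS-11 (1- and 2-separations of the bad system).

sep1: suppose `A`, `B` nonempty.  We may assume `e0 ∈ B` (the statement is symmetric).  `counts` gives
`bA, bB, s`; the ranks satisfy `rk A + rk B + 1 = 2 h` (`rank_sum`, the intersection is `0`), both are
positive (`hB.sys.ne`).  `sub_ineq` and `sub_merge` for `F = A` and `F = B` (`nc c A = s + bA`,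
`A.card - nc c A = bA`, `nc c B = s + 1 + bB`, `B.card - nc c B = bB`; `rk F + 2 ≤ 2 h`): `num1`.

sep2: suppose `A`, `B` have at least two elements.  The intersection of the spans of `A` and `B` is
contained in `span {p}`.  If it is `0` then `sep1` gives a contradiction.  Otherwise it is `span {p}`,
and `p` is in both spans.  We may assume `e0 ∈ B`.  `rank_sum`: `rk A + rk B = 2 h`.  Both ranks are
at least 2 (two elements are not parallel, `hB.par'`).  `num2` gives `s = 0`, `rk A = bA`,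
`rk B = bB + 1`, `bA + bB + 1 = 2 h`, `bA ≥ 2`, `bB ≥ 1`.  `gad1` on `A` (`S = X = A`, `u = 0`, `b = bA`):
`Spn v c A p (bA / 2)`.  `gad1` on `B` (`u = 1`, `b = bB`): `Spn v c B p (1 + bB / 2)`.  The sum is `h`
(one of `bA`, `bB` is odd): contradiction by `comb` (no common colour as `s = 0`).
-/

namespace RC

open Submodule Module

variable {C : ClsT} {ι κ V : Type} [DecidableEq ι] [AddCommGroup V] [Module ℚ V] {h : ℕ}
  {v : ι → V} {c : ι → κ} {E : Finset ι} {e0 : ι}

omit [DecidableEq ι] in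
theorem sp12_pos {A : Finset ι} {e : ι} (he : e ∈ A) (h0 : v e ≠ 0) : 1 ≤ rk v A := by
  unfold rk
  have hf : FiniteDimensional ℚ (span ℚ (v '' (A : Set ι))) :=
    FiniteDimensional.span_of_finite ℚ ((Finset.finite_toSet A).image v)
  have hn : Nontrivial (span ℚ (v '' (A : Set ι))) := by
    refine ⟨⟨⟨v e, subset_span ⟨e, Finset.mem_coe.2 he, rfl⟩⟩, 0, fun h => h0 ?_⟩⟩
    exact congrArg Subtype.val h
  exact finrank_pos

omit [DecidableEq ι] in
theorem sp12_two (hB : Bad C h v c E e0) {A : Finset ι} (hA : A ⊆ E) (h2 : 2 ≤ A.card) :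
    2 ≤ rk v A := by
  obtain ⟨a, ha, b, hb, hab⟩ := Finset.one_lt_card.1 h2
  have hf : FiniteDimensional ℚ (span ℚ (v '' (A : Set ι))) :=
    FiniteDimensional.span_of_finite ℚ ((Finset.finite_toSet A).image v)
  exact sub_two_le_finrank (span ℚ (v '' (A : Set ι))) (subset_span ⟨a, ha, rfl⟩)
    (subset_span ⟨b, hb, rfl⟩) (hB.par' (hA ha) (hA hb) hab)

omit [DecidableEq ι] in
/-- the inequality for one side -/
theorem sp12_ineq (hC : Cls C) (hB : Bad C h v c E e0) {A : Finset ι} (hA : A ⊆ E) {a b : ℕ}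
    (hcnt : Cnt c A a b) (h2 : rk v A + 2 ≤ 2 * h) :
    (rk v A + 1 ≤ a + b → h + (b + 1) / 2 ≤ rk v A) ∧
      (rk v A + 2 ≤ a + b → h + 1 + b / 2 ≤ rk v A) := by
  obtain ⟨h3, h4⟩ := hcnt
  have h5 : A.card - nc c A = b := by omega
  constructor
  · intro h6
    have h7 := sub_ineq hC hB hA (by omega) h2
    rwa [h5] at h7
  · intro h6
    have h7 := sub_merge hC hB hA (by omega) h2
    rwa [h5] at h7

theorem sp12_one (hC : Cls C) (hB : Bad C h v c E e0) {A B : Finset ι} (hU : A ∪ B = E)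
    (hd : Disjoint A B)
    (hsp : span ℚ (v '' (A : Set ι)) ⊓ span ℚ (v '' (B : Set ι)) = ⊥) (he : e0 ∈ B) :
    A = ∅ := by
  by_contra hne
  have hAE : A ⊆ E := hU ▸ Finset.subset_union_left
  have hBE : B ⊆ E := hU ▸ Finset.subset_union_right
  obtain ⟨a, ha⟩ := Finset.nonempty_of_ne_empty hne
  obtain ⟨bA, bB, s, hcA, hcB, hbb, -, -, -⟩ := counts hB hU hd he
  have hr := rank_sum hB hU
  rw [hsp, finrank_bot] at hr
  have h1 : 1 ≤ rk v A := sp12_pos ha (hB.sys.ne a (hAE ha))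
  have h2 : 1 ≤ rk v B := sp12_pos he (hB.sys.ne e0 (hBE he))
  have iA := sp12_ineq hC hB hAE hcA (by omega)
  have iB := sp12_ineq hC hB hBE hcB (by omega)
  exact num1 hbb (by omega) h1 h2 iA.1 iA.2 iB.1 iB.2

theorem sep1 (hC : Cls C) (hB : Bad C h v c E e0) {A B : Finset ι} (hU : A ∪ B = E)
    (hd : Disjoint A B)
    (hsp : span ℚ (v '' (A : Set ι)) ⊓ span ℚ (v '' (B : Set ι)) = ⊥) : A = ∅ ∨ B = ∅ := by
  have he : e0 ∈ A ∪ B := hU.symm ▸ hB.mem0
  rcases Finset.mem_union.1 he with he | he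
  · exact Or.inr (sp12_one hC hB ((Finset.union_comm B A).trans hU) hd.symm
      ((inf_comm _ _).trans hsp) he)
  · exact Or.inl (sp12_one hC hB hU hd hsp he)

theorem sp12_sep (hC : Cls C) (hB : Bad C h v c E e0) {A B : Finset ι} (hU : A ∪ B = E)
    (hd : Disjoint A B) {p : V} (hp : p ≠ 0)
    (hsp : span ℚ (v '' (A : Set ι)) ⊓ span ℚ (v '' (B : Set ι)) ≤ span ℚ {p})
    (hA : C V (v '' (A : Set ι) ∪ {p})) (hB' : C V (v '' (B : Set ι) ∪ {p}))
    (h2A : 2 ≤ A.card) (h2B : 2 ≤ B.card) (he : e0 ∈ B) : False := by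
  have hAE : A ⊆ E := hU ▸ Finset.subset_union_left
  have hBE : B ⊆ E := hU ▸ Finset.subset_union_right
  by_cases hbot : span ℚ (v '' (A : Set ι)) ⊓ span ℚ (v '' (B : Set ι)) = ⊥
  · rcases sep1 hC hB hU hd hbot with h1 | h1
    · rw [h1, Finset.card_empty] at h2A
      omega
    · rw [h1, Finset.card_empty] at h2B
      omega
  obtain ⟨y, hy, hy0⟩ := Submodule.exists_mem_ne_zero_of_ne_bot hbot
  obtain ⟨t, ht⟩ := Submodule.mem_span_singleton.1 (hsp hy)
  have ht0 : t ≠ 0 := by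
    intro h0
    rw [h0, zero_smul] at ht
    exact hy0 ht.symm
  have hpI : p ∈ span ℚ (v '' (A : Set ι)) ⊓ span ℚ (v '' (B : Set ι)) := by
    have h1 : p = t⁻¹ • y := by rw [← ht, smul_smul, inv_mul_cancel₀ ht0, one_smul]
    rw [h1]
    exact Submodule.smul_mem _ _ hy
  have hI : span ℚ (v '' (A : Set ι)) ⊓ span ℚ (v '' (B : Set ι)) = span ℚ {p} :=
    le_antisymm hsp (span_le.2 (Set.singleton_subset_iff.2 hpI))
  obtain ⟨bA, bB, s, hcA, hcB, hbb, hs0, -, -⟩ := counts hB hU hd he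
  have hr := rank_sum hB hU
  rw [hI, finrank_span_singleton hp] at hr
  have h1 : 2 ≤ rk v A := sp12_two hB hAE h2A
  have h2 : 2 ≤ rk v B := sp12_two hB hBE h2B
  have iA := sp12_ineq hC hB hAE hcA (by omega)
  have iB := sp12_ineq hC hB hBE hcB (by omega)
  obtain ⟨e1, e2, e3⟩ := num2 hbb (by omega) h1 h2 iA.1 iA.2 iB.1 iB.2
  subst e1
  have gA := gad1 hC hB (Finset.Subset.refl A) hAE hA hp hpI.1 (u := 0) (b := bA)
    hcA (by omega) (by omega) (by omega)
  have gB := gad1 hC hB (Finset.Subset.refl B) hBE hB' hp hpI.2 (u := 1) (b := bB)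
    (by simpa using hcB) (by omega) (by omega) (by omega)
  exact comb hB hAE hBE (hs0 rfl) hp gA gB (by omega)

theorem sep2 (hC : Cls C) (hB : Bad C h v c E e0) {A B : Finset ι} (hU : A ∪ B = E)
    (hd : Disjoint A B) {p : V} (hp : p ≠ 0)
    (hsp : span ℚ (v '' (A : Set ι)) ⊓ span ℚ (v '' (B : Set ι)) ≤ span ℚ {p})
    (hA : C V (v '' (A : Set ι) ∪ {p})) (hB' : C V (v '' (B : Set ι) ∪ {p})) :
    A.card ≤ 1 ∨ B.card ≤ 1 := by
  by_contra hno
  push Not at hno
  have he : e0 ∈ A ∪ B := hU.symm ▸ hB.mem0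
  rcases Finset.mem_union.1 he with he | he
  · exact sp12_sep hC hB ((Finset.union_comm B A).trans hU) hd.symm hp
      ((inf_comm _ _).le.trans hsp) hB' hA hno.2 hno.1 he
  · exact sp12_sep hC hB hU hd hp hsp hA hB' hno.1 hno.2 he

end RC
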