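import Pool.Agent.Helper73.RCS.Core3
import Pool.Agent.Helper73.RCS.Sep12
import Pool.Agent.Helper73.RCS.Rearr

/-!
The separation step for bad systems: `sep1`, `sep2` (in `Sep12.lean`) and `sep3`.
-/

namespace RC

open Submodule Module

variable {C : ClsT} {ι κ V : Type} [DecidableEq ι] [AddCommGroup V] [Module ℚ V] {h : ℕ}
  {v : ι → V} {c : ι → κ} {E : Finset ι} {e0 : ι} {x y z : V}

/-- A nonzero vector of the line in both spans: then one of `x, y, z` is in both spans. -/
theorem common_point {X Y : Set V} (hX : Uni (X ∪ {x, y, z})) (hY : Uni (Y ∪ {x, y, z}))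
    (hs : x + y + z = 0) (li : LinearIndependent ℚ ![x, y]) {w : V} (hw0 : w ≠ 0)
    (hwX : w ∈ span ℚ X) (hwY : w ∈ span ℚ Y) (hw : w ∈ span ℚ ({x, y} : Set V)) :
    ∃ p ∈ ({x, y, z} : Set V), p ∈ span ℚ X ∧ p ∈ span ℚ Y := by
  have zmem : z ∈ span ℚ ({x, y} : Set V) := by
    have hz : z = -x - y := by
      have : z = (x + y + z) - x - y := by abel
      rw [this, hs]; abel
    rw [hz]
    exact sub_mem (neg_mem (subset_span (by simp))) (subset_span (by simp))
  have hmem : ∀ p ∈ ({x, y, z} : Set V), p ∈ span ℚ ({x, y} : Set V) := by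
    intro p hp
    simp only [Set.mem_insert_iff, Set.mem_singleton_iff] at hp
    rcases hp with rfl | rfl | rfl
    · exact subset_span (by simp)
    · exact subset_span (by simp)
    · exact zmem
  have h1 : ∃ p ∈ ({x, y, z} : Set V), p ∈ span ℚ X := by
    rcases span_line hX hs li le_rfl hwX hw hw0 with h | h | h
    · exact ⟨x, by simp, h⟩
    · exact ⟨y, by simp, h⟩
    · exact ⟨z, by simp, h⟩
  have h2 : ∃ p ∈ ({x, y, z} : Set V), p ∈ span ℚ Y := by
    rcases span_line hY hs li le_rfl hwY hw hw0 with h | h | h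
    · exact ⟨x, by simp, h⟩
    · exact ⟨y, by simp, h⟩
    · exact ⟨z, by simp, h⟩
  obtain ⟨p, hp, hpX⟩ := h1
  obtain ⟨q, hq, hqY⟩ := h2
  by_cases hc : p ∈ span ℚ ({w} : Set V)
  · refine ⟨p, hp, hpX, ?_⟩
    have : span ℚ ({w} : Set V) ≤ span ℚ Y := by
      rw [span_le]; simpa using hwY
    exact this hc
  · refine ⟨q, hq, ?_, hqY⟩
    -- `w, p` span the plane
    have li2 : LinearIndependent ℚ ![w, p] := by
      rw [LinearIndependent.pair_iff]
      intro s t hst
      by_cases ht : t = 0
      · subst ht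
        rw [zero_smul, add_zero] at hst
        exact ⟨(smul_eq_zero.1 hst).resolve_right hw0, rfl⟩
      · exfalso
        apply hc
        have h1 : t • p = -(s • w) := eq_neg_of_add_eq_zero_right hst
        have h2 : p = t⁻¹ • (t • p) := by rw [smul_smul, inv_mul_cancel₀ ht, one_smul]
        rw [h2, h1]
        exact smul_mem _ _ (neg_mem (smul_mem _ _ (mem_span_singleton_self w)))
    have hle : span ℚ ({w, p} : Set V) ≤ span ℚ ({x, y} : Set V) := by
      rw [span_le]
      intro u hu
      simp only [Set.mem_insert_iff, Set.mem_singleton_iff] at hu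
      rcases hu with rfl | rfl
      · exact hw
      · exact hmem _ hp
    have hfin : FiniteDimensional ℚ (span ℚ ({x, y} : Set V)) :=
      FiniteDimensional.span_of_finite ℚ (Set.toFinite _)
    have heq : span ℚ ({w, p} : Set V) = span ℚ ({x, y} : Set V) :=
      Submodule.eq_of_le_of_finrank_eq hle
        (by rw [finrank_span_pair li2, finrank_span_pair li])
    have hq' : q ∈ span ℚ ({w, p} : Set V) := by rw [heq]; exact hmem _ hq
    have hle2 : span ℚ ({w, p} : Set V) ≤ span ℚ X := by
      rw [span_le]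
      intro u hu
      simp only [Set.mem_insert_iff, Set.mem_singleton_iff] at hu
      rcases hu with rfl | rfl
      · exact hwX
      · exact hpX
    exact hle2 hq'

/-- The core of `sep3`: a partition without split colours on the line, both sides with at least
four elements. -/
theorem core3' (hC : Cls C) (hB : Bad C h v c E e0) {A B : Finset ι} (hU : A ∪ B = E)
    (hd : Disjoint A B) (hs : x + y + z = 0) (li : LinearIndependent ℚ ![x, y])
    (hA : C V (v '' (A : Set ι) ∪ {x, y, z})) (hB' : C V (v '' (B : Set ι) ∪ {x, y, z}))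
    (hinf : span ℚ (v '' (A : Set ι)) ⊓ span ℚ (v '' (B : Set ι)) ≤ span ℚ {x, y})
    (hg : ∀ a ∈ A, ∀ b ∈ B, c a = c b → v a ∉ span ℚ {x, y} ∧ v b ∉ span ℚ {x, y})
    (hA4 : 4 ≤ A.card) (hB4 : 4 ≤ B.card) : False := by
  have hfin : FiniteDimensional ℚ (span ℚ ({x, y} : Set V)) :=
    FiniteDimensional.span_of_finite ℚ (Set.toFinite _)
  by_cases hbot : span ℚ (v '' (A : Set ι)) ⊓ span ℚ (v '' (B : Set ι)) = ⊥
  · rcases sep1 hC hB hU hd hbot with h | h
    · rw [h] at hA4; simp at hA4
    · rw [h] at hB4; simp at hB4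
  · obtain ⟨w, hw, hw0⟩ := (Submodule.ne_bot_iff _).1 hbot
    obtain ⟨p, hp, hpA, hpB⟩ := common_point (hC.uni hA) (hC.uni hB') hs li hw0 hw.1 hw.2
      (hinf hw)
    have hpsub : ({p} : Set V) ⊆ ({x, y, z} : Set V) := by simpa using hp
    have monoA : C V (v '' (A : Set ι) ∪ {p}) :=
      hC.mono hA (fun u hu => Or.inr (Or.inl (Set.union_subset_union_right _ hpsub hu)))
    have monoB : C V (v '' (B : Set ι) ∪ {p}) :=
      hC.mono hB' (fun u hu => Or.inr (Or.inl (Set.union_subset_union_right _ hpsub hu)))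
    have hxne : x ≠ 0 := by simpa using li.ne_zero 0
    have hyne : y ≠ 0 := by simpa using li.ne_zero 1
    have hzne : z ≠ 0 := by simpa using (li_rot li hs).ne_zero 1
    have hp0 : p ≠ 0 := by
      simp only [Set.mem_insert_iff, Set.mem_singleton_iff] at hp
      rcases hp with rfl | rfl | rfl
      · exact hxne
      · exact hyne
      · exact hzne
    by_cases hfull : x ∈ span ℚ (v '' (A : Set ι)) ⊓ span ℚ (v '' (B : Set ι)) ∧
        y ∈ span ℚ (v '' (A : Set ι)) ⊓ span ℚ (v '' (B : Set ι))
    · obtain ⟨⟨hx1, hx2⟩, ⟨hy1, hy2⟩⟩ := hfull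
      have he : e0 ∈ A ∪ B := by rw [hU]; exact hB.mem0
      rcases Finset.mem_union.1 he with he | he
      · refine core3 hC (A := B) (B := A) (x := x) (y := y) (z := z)
          ⟨hB, by rw [Finset.union_comm]; exact hU, hd.symm, he, ⟨hs, li, hB', hx2, hy2⟩,
            ⟨hs, li, hA, hx1, hy1⟩⟩ (by rw [inf_comm]; exact hinf) hB4 hA4 ?_
        intro a ha b hb hab
        exact (hg b hb a ha hab.symm).symm
      · exact core3 hC (A := A) (B := B) (x := x) (y := y) (z := z)
          ⟨hB, hU, hd, he, ⟨hs, li, hA, hx1, hy1⟩, ⟨hs, li, hB', hx2, hy2⟩⟩ hinf hA4 hB4 hg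
    · -- the intersection has dimension one
      have hle : span ℚ (v '' (A : Set ι)) ⊓ span ℚ (v '' (B : Set ι)) ≤ span ℚ {p} := by
        intro w' hw'
        by_contra hcon
        apply hfull
        have li2 : LinearIndependent ℚ ![p, w'] := by
          rw [LinearIndependent.pair_iff]
          intro s t hst
          by_cases ht : t = 0
          · subst ht
            rw [zero_smul, add_zero] at hst
            exact ⟨(smul_eq_zero.1 hst).resolve_right hp0, rfl⟩
          · exfalso
            apply hcon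
            have h1 : t • w' = -(s • p) := eq_neg_of_add_eq_zero_right hst
            have h2 : w' = t⁻¹ • (t • w') := by rw [smul_smul, inv_mul_cancel₀ ht, one_smul]
            rw [h2, h1]
            exact smul_mem _ _ (neg_mem (smul_mem _ _ (mem_span_singleton_self p)))
        have hle2 : span ℚ ({p, w'} : Set V) ≤
            span ℚ (v '' (A : Set ι)) ⊓ span ℚ (v '' (B : Set ι)) := by
          rw [span_le]
          intro u hu
          simp only [Set.mem_insert_iff, Set.mem_singleton_iff] at hu
          rcases hu with rfl | rfl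
          · exact ⟨hpA, hpB⟩
          · exact hw'
        have heq : span ℚ ({p, w'} : Set V) = span ℚ ({x, y} : Set V) :=
          Submodule.eq_of_le_of_finrank_eq (hle2.trans hinf)
            (by rw [finrank_span_pair li2, finrank_span_pair li])
        rw [heq] at hle2
        exact ⟨hle2 (subset_span (by simp)), hle2 (subset_span (by simp))⟩
      rcases sep2 hC hB hU hd hp0 hle monoA monoB with h | h <;> omega

open Classical in
/-- 3-separations of a bad system: one side has at most three elements outside the line of the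
triangle. -/
theorem sep3 (hC : Cls C) (hB : Bad C h v c E e0) {A B : Finset ι} (hU : A ∪ B = E)
    (hd : Disjoint A B) {p q : V} (li : LinearIndependent ℚ ![p, q])
    (hsp : span ℚ (v '' (A : Set ι) ∪ {p, q}) ⊓ span ℚ (v '' (B : Set ι) ∪ {p, q}) ≤
      span ℚ {p, q})
    (hA : C V (v '' (A : Set ι) ∪ {p, q, p + q}))
    (hB' : C V (v '' (B : Set ι) ∪ {p, q, p + q})) :
    (A.filter fun e => v e ∉ span ℚ {p, q}).card ≤ 3 ∨
      (B.filter fun e => v e ∉ span ℚ {p, q}).card ≤ 3 := by
  have hs : p + q + (-(p + q)) = 0 := add_neg_cancel _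
  have mono : ∀ Y : Set V, C V (Y ∪ {p, q, p + q}) → C V (Y ∪ {p, q, -(p + q)}) := by
    intro Y hY
    refine hC.mono hY ?_
    intro u hu
    rcases hu with hu | hu
    · exact Or.inr (Or.inl (Or.inl hu))
    · simp only [Set.mem_insert_iff, Set.mem_singleton_iff] at hu
      rcases hu with rfl | rfl | rfl
      · exact Or.inr (Or.inl (Or.inr (by simp)))
      · exact Or.inr (Or.inl (Or.inr (by simp)))
      · exact Or.inr (Or.inr (Or.inr (by simp)))
  obtain ⟨A', B', hU', hd', hAA, hBB, cA, cB, hinf, hg⟩ :=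
    rearr hC hB hU hd hs li hsp (mono _ hA) (mono _ hB')
  by_contra hcon
  push Not at hcon
  obtain ⟨h1, h2⟩ := hcon
  have hA4 : 4 ≤ A'.card := by
    refine le_trans h1 (Finset.card_le_card ?_)
    intro e he
    rw [Finset.mem_filter] at he
    exact hAA e he.1 he.2
  have hB4 : 4 ≤ B'.card := by
    refine le_trans h2 (Finset.card_le_card ?_)
    intro e he
    rw [Finset.mem_filter] at he
    exact hBB e he.1 he.2
  exact core3' hC hB hU' hd' hs li cA cB hinf hg hA4 hB4

end RC
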