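import Pool.Agent.Helper73.RCS.Ext
import Pool.Agent.Helper73.RCS.Line3
import Pool.Agent.Helper73.RCS.GadA

/-!
RCS-7b (gadgets with a pair `{x, y}` of the same new colour).

gad3: `ext_id` with `k = 2`, `m = 1`, `g = ![x, y]`, `γ = ![Sum.inr 0, Sum.inr 0]`, `Y = {x, y, z}`.
`bd (u + b + 1) (u + 2 b + 2) = bb u (b + 1)` (`bd_eq_bb`).  At most one of `β 0`, `β 1` is not zero (same
colour), so `x ∈ span T` or `y ∈ span T` with `T.card + 1 ≤ bb u (b + 1)`.

gad4: `ext_id` with `k = 3`, `m = 2`, `g = ![x, y, z]`, `γ = ![Sum.inr 0, Sum.inr 0, Sum.inr 1]`,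
`Y = {x, y, z}`.  `bd (u + b + 2) (u + 2 b + 3) = bb (u + 1) (b + 1) = u + 1 + (b + 1) / 2`.  At most one of
`β 0`, `β 1` is not zero.  If only one `β i` is not zero then `g i ∈ span T`.  If `β 2 ≠ 0` and one of
`β 0`, `β 1` is not zero then `line3'` (`line3''`) gives one of `x, y, z` in `span T`.  In all cases
`T.card ≤ u + (b + 1) / 2`.
-/

namespace RC

open Submodule Module

variable {C : ClsT} {ι κ V : Type} [AddCommGroup V] [Module ℚ V] {h : ℕ}
  {v : ι → V} {c : ι → κ} {E : Finset ι} {e0 : ι}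

theorem gad3 (hC : Cls C) (hB : Bad C h v c E e0) {S X : Finset ι} (hS : S ⊆ X) (hX : X ⊆ E)
    {x y z : V} (hs : Side C v X x y z) {u b : ℕ} (hcnt : Cnt c S u b)
    (hr : rk v X ≤ u + b) (hn : u + b + 1 < 2 * h) (hb : bb u (b + 1) ≤ h) :
    Spn v c S x (bb u (b + 1) - 1) ∨ Spn v c S y (bb u (b + 1) - 1) := by
  have hbd : bd (u + b + 1) (u + 2 * b + 2) = bb u (b + 1) := by
    rw [← bd_eq_bb]
    congr 1
  obtain ⟨T, β, hT, hi, hc, hne, hinj, hnew, hw⟩ := ext_id hC hB hS hX hs.cls (gadA_Y hs)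
    (k := 2) (m := 1) hcnt ![x, y] ![Sum.inr 0, Sum.inr 0]
    (by intro i; fin_cases i <;> simp)
    (by
      intro i
      fin_cases i
      · exact hs.ne_x
      · exact hs.ne_y)
    (by
      intro i q hq
      fin_cases i
      · cases hq
      · cases hq)
    (by
      intro i i' hne hii
      fin_cases i <;> fin_cases i'
      · exact absurd rfl hne
      · exact ⟨⟨0, rfl⟩, hs.li⟩
      · exact ⟨⟨0, rfl⟩, li_swap hs.li⟩
      · exact absurd rfl hne)
    (by
      intro i i' i'' _ _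
      fin_cases i <;> fin_cases i' <;> fin_cases i'' <;> simp)
    (by
      intro t
      refine ⟨0, ?_⟩
      have : t = 0 := Subsingleton.elim _ _
      rw [this]
      rfl)
    (by omega) (by omega)
    (by rw [hbd]; exact hb)
  rw [hbd] at hc
  rw [Fin.sum_univ_two] at hw
  have hw' : β 0 • x + β 1 • y ∈ span ℚ (v '' (T : Set ι)) := hw
  have h01 : β 0 = 0 ∨ β 1 = 0 := by
    by_contra hno
    push Not at hno
    have := hinj 0 1 hno.1 hno.2 rfl
    exact absurd this (by decide)
  by_cases h0 : β 0 = 0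
  · have h1 : β 1 ≠ 0 := by
      obtain ⟨i, hi⟩ := hne
      fin_cases i
      · exact absurd h0 hi
      · exact hi
    have h2 := gadA_one h1
    rw [h0, zero_smul, zero_add] at hw'
    exact Or.inr ⟨T, hT, by omega, hi, gadA_smul h1 hw'⟩
  · have h1 : β 1 = 0 := h01.resolve_left h0
    have h2 := gadA_one h0
    rw [h1, zero_smul, add_zero] at hw'
    exact Or.inl ⟨T, hT, by omega, hi, gadA_smul h0 hw'⟩

theorem gad4 (hC : Cls C) (hB : Bad C h v c E e0) {S X : Finset ι} (hS : S ⊆ X) (hX : X ⊆ E)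
    {x y z : V} (hs : Side C v X x y z) {u b : ℕ} (hcnt : Cnt c S u b)
    (hr : rk v X ≤ u + b + 1) (hn : u + b + 2 < 2 * h) (hb : u + 1 + (b + 1) / 2 ≤ h) :
    Spn v c S x (u + (b + 1) / 2) ∨ Spn v c S y (u + (b + 1) / 2) ∨
      Spn v c S z (u + (b + 1) / 2) := by
  have hbd : bd (u + b + 2) (u + 2 * b + 3) = u + 1 + (b + 1) / 2 := by
    unfold bd
    rw [if_neg (by omega)]
    omega
  obtain ⟨T, β, hT, hi, hc, hne, hinj, hnew, hw⟩ := ext_id hC hB hS hX hs.cls (gadA_Y hs)
    (k := 3) (m := 2) hcnt ![x, y, z] ![Sum.inr 0, Sum.inr 0, Sum.inr 1]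
    (by intro i; fin_cases i <;> simp)
    (by
      intro i
      fin_cases i
      · exact hs.ne_x
      · exact hs.ne_y
      · exact hs.ne_z)
    (by
      intro i q hq
      fin_cases i
      · cases hq
      · cases hq
      · cases hq)
    (by
      intro i i' hne hii
      fin_cases i <;> fin_cases i'
      · exact absurd rfl hne
      · exact ⟨⟨0, rfl⟩, hs.li⟩
      · exact absurd hii (by simp)
      · exact ⟨⟨0, rfl⟩, li_swap hs.li⟩
      · exact absurd rfl hne
      · exact absurd hii (by simp)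
      · exact absurd hii (by simp)
      · exact absurd hii (by simp)
      · exact absurd rfl hne)
    (by
      intro i i' i'' h1 h2
      fin_cases i <;> fin_cases i' <;> fin_cases i'' <;>
        first
          | exact Or.inl rfl
          | exact Or.inr (Or.inl rfl)
          | exact Or.inr (Or.inr rfl)
          | (exfalso; simp at h1 h2; done))
    (by
      intro t
      fin_cases t
      · exact ⟨0, rfl⟩
      · exact ⟨2, rfl⟩)
    (by omega) (by omega) (by rw [hbd]; exact hb)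
  rw [hbd] at hc
  rw [Fin.sum_univ_three] at hw
  have hw' : β 0 • x + β 1 • y + β 2 • z ∈ span ℚ (v '' (T : Set ι)) := hw
  have h01 : β 0 = 0 ∨ β 1 = 0 := by
    by_contra hno
    push Not at hno
    have := hinj 0 1 hno.1 hno.2 rfl
    exact absurd this (by decide)
  have hpos : 1 ≤ (Finset.univ.filter fun i => β i ≠ 0).card := by
    obtain ⟨i, hi⟩ := hne
    exact gadA_one hi
  have fin : (x ∈ span ℚ (v '' (T : Set ι)) ∨ y ∈ span ℚ (v '' (T : Set ι)) ∨
      z ∈ span ℚ (v '' (T : Set ι))) → Spn v c S x (u + (b + 1) / 2) ∨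
      Spn v c S y (u + (b + 1) / 2) ∨ Spn v c S z (u + (b + 1) / 2) := by
    rintro (h3 | h3 | h3)
    · exact Or.inl ⟨T, hT, by omega, hi, h3⟩
    · exact Or.inr (Or.inl ⟨T, hT, by omega, hi, h3⟩)
    · exact Or.inr (Or.inr ⟨T, hT, by omega, hi, h3⟩)
  apply fin
  rcases h01 with h0 | h1
  · rw [h0, zero_smul, zero_add] at hw'
    refine line3'' hC hs (hT.trans hS) ?_ hw'
    obtain ⟨i, hi⟩ := hne
    fin_cases i
    · exact absurd h0 hi
    · exact Or.inl hi
    · exact Or.inr hi
  · rw [h1, zero_smul, add_zero] at hw'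
    refine line3' hC hs (hT.trans hS) ?_ hw'
    obtain ⟨i, hi⟩ := hne
    fin_cases i
    · exact Or.inl hi
    · exact absurd h1 hi
    · exact Or.inr hi

end RC
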