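import Pool.Agent.Helper73.RCS.Ext
import Pool.Agent.Helper73.RCS.Sides

/-!
RCS-7d (the claw gadget).  `ext_lemma` with `W = V × ℚ`, `j = LinearMap.inl ℚ V ℚ`, `k = 3`, `m = 2`,
`g = ![(0, 1), (x, 1), (-y, 1)]`, `γ = ![Sum.inr 0, Sum.inr 1, Sum.inr 1]`.

`hcls`: `hC.claw` with `p = x`, `q = y` and the set `v '' X ∪ {x, y, x + y}` (in the class by `hC.mono`,
since `-(x + y) = z`), then `hC.mono`.  Independence of `(x, 1)`, `(-y, 1)`: second coordinates, and
`x`, `y` independent.  Rank: the span is contained in `span (v '' X) × ℚ`, of dimension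
`rk v X + 1` (`x, y ∈ span (v '' X)`), so at most `u + b + 1`.  `bd (u + b + 2) (u + 2 b + 3) =
bb (u + 1) (b + 1) = u + 1 + (b + 1) / 2`.

The result: `(y', 0) = β 0 • (0, 1) + β 1 • (x, 1) + β 2 • (-y, 1)` with `y' ∈ span T`, at most one of
`β 1`, `β 2` nonzero.  The second coordinate: `β 0 + β 1 + β 2 = 0`, so (`β ≠ 0`) `β 0 ≠ 0` and exactly one
of `β 1`, `β 2` is not zero: `y' = β 1 x` or `y' = - β 2 y`, and `T.card + 2 ≤ u + 1 + (b + 1) / 2`.
-/

namespace RC

open Submodule Module

variable {C : ClsT} {ι κ V : Type} [AddCommGroup V] [Module ℚ V] {h : ℕ}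
  {v : ι → V} {c : ι → κ} {E : Finset ι} {e0 : ι}

theorem gad7 (hC : Cls C) (hB : Bad C h v c E e0) {S X : Finset ι} (hS : S ⊆ X) (hX : X ⊆ E)
    {x y z : V} (hs : Side C v X x y z) {u b : ℕ} (hcnt : Cnt c S u b)
    (hr : rk v X ≤ u + b) (hn : u + b + 2 < 2 * h) (hb : u + 1 + (b + 1) / 2 ≤ h) :
    Spn v c S x (u + (b + 1) / 2 - 1) ∨ Spn v c S y (u + (b + 1) / 2 - 1) := by
  classical
  have hbd : bd (u + b + 2) (u + 2 * b + 3) = u + 1 + (b + 1) / 2 := by
    have h1 := bd_eq_bb (u + 1) (b + 1)
    have e1 : u + 1 + (b + 1) = u + b + 2 := by omega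
    have e2 : u + 1 + 2 * (b + 1) = u + 2 * b + 3 := by omega
    rw [e1, e2] at h1
    rw [h1]
    unfold bb
    rw [if_neg (by omega)]
  have hSX : v '' (S : Set ι) ⊆ v '' (X : Set ι) := Set.image_mono (by exact_mod_cast hS)
  set g : Fin 3 → V × ℚ := ![(0, 1), (x, 1), (-y, 1)] with hgdef
  set γ : Fin 3 → κ ⊕ Fin 2 := ![Sum.inr 0, Sum.inr 1, Sum.inr 1] with hγdef
  have g0 : g 0 = (0, 1) := rfl
  have g1 : g 1 = (x, 1) := rfl
  have g2 : g 2 = (-y, 1) := rfl
  have γ0 : γ 0 = Sum.inr 0 := rfl
  have γ1 : γ 1 = Sum.inr 1 := rfl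
  have γ2 : γ 2 = Sum.inr 1 := rfl
  have hjinl : ∀ w : V, LinearMap.inl ℚ V ℚ w = (w, 0) := fun w => rfl
  -- the class
  have hX' : C V (v '' (X : Set ι) ∪ {x, y, x + y}) := by
    refine hC.mono hs.cls ?_
    intro w hw
    rcases hw with hw | hw
    · exact Or.inr (Or.inl (Or.inl hw))
    · simp only [Set.mem_insert_iff, Set.mem_singleton_iff] at hw
      rcases hw with rfl | rfl | rfl
      · exact Or.inr (Or.inl (Or.inr (by simp)))
      · exact Or.inr (Or.inl (Or.inr (by simp)))
      · refine Or.inr (Or.inr (Or.inr ?_))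
        have h1 : -(x + y) = z := by
          rw [hs.eq_z]
          abel
        rw [h1]
        simp
  have hcl := hC.claw hX' (p := x) (q := y) (Or.inr (by simp)) (Or.inr (by simp))
    (Or.inr (by simp)) hs.li
  have hcls : C (V × ℚ) (LinearMap.inl ℚ V ℚ '' (v '' (S : Set ι)) ∪ Set.range g) := by
    refine hC.mono hcl ?_
    intro w hw
    refine Or.inr (Or.inl ?_)
    rcases hw with ⟨w', hw', rfl⟩ | ⟨i, rfl⟩
    · exact Or.inl ⟨w', Or.inl (hSX hw'), rfl⟩
    · refine Or.inr ?_
      fin_cases i
      · simp [hgdef]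
      · simp [hgdef]
      · simp [hgdef]
  -- the rank
  have hfin : FiniteDimensional ℚ (span ℚ (v '' (X : Set ι))) :=
    FiniteDimensional.span_of_finite ℚ ((Finset.finite_toSet X).image v)
  have hrank : finrank ℚ (span ℚ (LinearMap.inl ℚ V ℚ '' (v '' (S : Set ι)) ∪ Set.range g)) + 1
      ≤ u + b + 2 := by
    set A : Submodule ℚ (V × ℚ) := (span ℚ (v '' (X : Set ι))).map (LinearMap.inl ℚ V ℚ) with hA
    set B : Submodule ℚ (V × ℚ) := span ℚ {((0 : V), (1 : ℚ))} with hB'
    have hfA : FiniteDimensional ℚ A := by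
      rw [hA]
      infer_instance
    have hfB : FiniteDimensional ℚ B := by
      rw [hB']
      infer_instance
    have hle : span ℚ (LinearMap.inl ℚ V ℚ '' (v '' (S : Set ι)) ∪ Set.range g) ≤ A ⊔ B := by
      rw [span_le]
      have hb1 : ((0 : V), (1 : ℚ)) ∈ A ⊔ B := le_sup_right (a := A) (subset_span rfl)
      have ha1 : ∀ w ∈ span ℚ (v '' (X : Set ι)), ((w, 0) : V × ℚ) ∈ A ⊔ B := by
        intro w hw
        exact le_sup_left (b := B) (mem_map_of_mem (f := LinearMap.inl ℚ V ℚ) hw)
      intro w hw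
      rcases hw with ⟨w', hw', rfl⟩ | ⟨i, rfl⟩
      · exact ha1 w' (subset_span (hSX hw'))
      · fin_cases i
        · exact hb1
        · have h1 := (A ⊔ B).add_mem (ha1 x hs.memx) hb1
          have h2 : (x, (0 : ℚ)) + ((0 : V), (1 : ℚ)) = (x, 1) := by simp
          rw [h2] at h1
          exact h1
        · have h1 := (A ⊔ B).add_mem (ha1 (-y) (neg_mem hs.memy)) hb1
          have h2 : (-y, (0 : ℚ)) + ((0 : V), (1 : ℚ)) = (-y, 1) := by simp
          rw [h2] at h1
          exact h1
    have h1 : finrank ℚ (span ℚ (LinearMap.inl ℚ V ℚ '' (v '' (S : Set ι)) ∪ Set.range g))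
        ≤ finrank ℚ (A ⊔ B : Submodule ℚ (V × ℚ)) :=
      LinearMap.finrank_le_finrank_of_injective (Submodule.inclusion_injective hle)
    have h2 := Submodule.finrank_add_le_finrank_add_finrank A B
    have h3 : finrank ℚ A ≤ rk v X := Submodule.finrank_map_le _ _
    have h4 : finrank ℚ B ≤ 1 := by
      rw [hB']
      have h5 := finrank_span_le_card (R := ℚ) ({((0 : V), (1 : ℚ))} : Set (V × ℚ))
      simpa using h5
    omega
  -- independence of the pair of gadgets
  have hli12 : LinearIndependent ℚ ![g 1, g 2] := by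
    rw [g1, g2, LinearIndependent.pair_iff]
    intro s t hst
    have h1 : s • x + t • (-y) = 0 := by
      have := congrArg Prod.fst hst
      simpa using this
    have h2 := LinearIndependent.pair_iff.1 hs.li s (-t) (by
      rw [← h1, smul_neg, neg_smul])
    exact ⟨h2.1, by linarith [h2.2]⟩
  have hkey := ext_lemma (k := 3) (m := 2) hB (hS.trans hX) (LinearMap.inl ℚ V ℚ)
    (fun y _ hy => by
      rw [hjinl] at hy
      exact congrArg Prod.fst hy) hcnt g γ hcls
    (by
      intro i hi
      have h1 : (g i).2 = 1 := by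
        fin_cases i <;> rfl
      rw [hi] at h1
      simp at h1)
    (by
      intro i q hi
      fin_cases i
      · rw [show γ ⟨0, by omega⟩ = Sum.inr 0 from rfl] at hi
        cases hi
      · rw [show γ ⟨1, by omega⟩ = Sum.inr 1 from rfl] at hi
        cases hi
      · rw [show γ ⟨2, by omega⟩ = Sum.inr 1 from rfl] at hi
        cases hi)
    (by
      intro i i' hne heq
      have h01 : γ 0 ≠ γ 1 := by
        rw [γ0, γ1]
        simp
      have h02 : γ 0 ≠ γ 2 := by
        rw [γ0, γ2]
        simp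
      fin_cases i <;> fin_cases i'
      · exact absurd rfl hne
      · exact absurd heq h01
      · exact absurd heq h02
      · exact absurd heq.symm h01
      · exact absurd rfl hne
      · exact ⟨⟨1, rfl⟩, hli12⟩
      · exact absurd heq.symm h02
      · exact ⟨⟨1, rfl⟩, li_swap hli12⟩
      · exact absurd rfl hne)
    (by
      intro i i' i'' h1 h2
      have h01 : γ 0 ≠ γ 1 := by
        rw [γ0, γ1]
        simp
      have h02 : γ 0 ≠ γ 2 := by
        rw [γ0, γ2]
        simp
      fin_cases i <;> fin_cases i' <;> fin_cases i'' <;>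
        first
          | exact Or.inl rfl
          | exact Or.inr (Or.inl rfl)
          | exact Or.inr (Or.inr rfl)
          | exact absurd h1 h01
          | exact absurd h1 h02
          | exact absurd h1.symm h01
          | exact absurd h1.symm h02
          | exact absurd h2 h01
          | exact absurd h2 h02
          | exact absurd h2.symm h01)
    (by
      intro t
      fin_cases t
      · exact ⟨0, rfl⟩
      · exact ⟨1, rfl⟩)
    hrank hn (by
      rw [hbd]
      exact hb)
  obtain ⟨T, β, y', hTS, hTc, hcard, ⟨i0, hi0⟩, hsame, -, hy', hsum⟩ := hkey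
  rw [hbd] at hcard
  rw [hjinl, Fin.sum_univ_three, g0, g1, g2] at hsum
  have hfst : y' = β 1 • x + β 2 • (-y) := by
    have := congrArg Prod.fst hsum
    simpa using this
  have hsnd : 0 = β 0 + β 1 + β 2 := by
    have := congrArg Prod.snd hsum
    simpa using this
  by_cases hβ1 : β 1 = 0
  · have hβ2 : β 2 ≠ 0 := by
      intro h2
      have h0 : β 0 = 0 := by
        rw [hβ1, h2] at hsnd
        linarith
      apply hi0
      fin_cases i0
      · exact h0
      · exact hβ1
      · exact h2
    have hβ0 : β 0 ≠ 0 := by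
      intro h0
      apply hβ2
      rw [hβ1, h0] at hsnd
      linarith
    right
    refine ⟨T, hTS, ?_, hTc, ?_⟩
    · have h1 : ({0, 2} : Finset (Fin 3)) ⊆ Finset.univ.filter fun i => β i ≠ 0 := by
        intro i hi
        simp only [Finset.mem_insert, Finset.mem_singleton] at hi
        rcases hi with rfl | rfl
        · simpa using hβ0
        · simpa using hβ2
      have h2 := Finset.card_le_card h1
      have h3 : ({0, 2} : Finset (Fin 3)).card = 2 := by decide
      omega
    · rw [hβ1, zero_smul, zero_add] at hfst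
      have h1 : y = (-(β 2)⁻¹) • y' := by
        rw [hfst, smul_smul, smul_neg, neg_mul, inv_mul_cancel₀ hβ2, neg_smul, neg_neg, one_smul]
      rw [h1]
      exact smul_mem _ _ hy'
  · have hβ2 : β 2 = 0 := by
      by_contra h2
      have h3 := hsame 1 2 hβ1 h2 (by rw [γ1, γ2])
      exact absurd h3 (by decide)
    have hβ0 : β 0 ≠ 0 := by
      intro h0
      apply hβ1
      rw [hβ2, h0] at hsnd
      linarith
    left
    refine ⟨T, hTS, ?_, hTc, ?_⟩
    · have h1 : ({0, 1} : Finset (Fin 3)) ⊆ Finset.univ.filter fun i => β i ≠ 0 := by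
        intro i hi
        simp only [Finset.mem_insert, Finset.mem_singleton] at hi
        rcases hi with rfl | rfl
        · simpa using hβ0
        · simpa using hβ1
      have h2 := Finset.card_le_card h1
      have h3 : ({0, 1} : Finset (Fin 3)).card = 2 := by decide
      omega
    · rw [hβ2, zero_smul, add_zero] at hfst
      have h1 : x = (β 1)⁻¹ • y' := by
        rw [hfst, smul_smul, inv_mul_cancel₀ hβ1, one_smul]
      rw [h1]
      exact smul_mem _ _ hy'

end RC
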