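import Pool.Agent.Helper73.RCS.Part
import Pool.Agent.Helper73.RCS.Comb
import Pool.Agent.Helper73.RCS.GadA
import Pool.Agent.Helper73.RCS.GadB
import Pool.Agent.Helper73.RCS.GadD

/-!
RCS-12, 13 (separations without split colour).  Write `α v ≤ k` for `Spn v c A v k`, `β v ≤ k` for
`Spn v c B v k` (`v` one of `x, y, z`).  By `comb` (`hcol`): `α v ≤ k` and `β v ≤ l` with `k + l ≤ h` is
impossible.  `Part`, `Side` may be permuted by `rot` and `swap`; `Part.subA`, `Part.subB`; all divisions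
are handled by `omega`.

case022 (`rk A = bA + 1`, `rk B = bB + 1`), `2 h = bA + bB + 1`.
`bA` even (`bB` odd): `gad4` on `A` (`S = X = A`, `u = 0`, `b = bA`): `α v ≤ bA / 2` for some `v` of `x, y, z`.
`gad1` on `B` (`S = X = B`, `u = 1`, `b = bB`; the class condition of `gad1` follows from `sB.cls` by `hC.mono`):
`β v ≤ (bB + 1) / 2` for all `v`.  The sum is `h`.
`bA` odd (`bB` even): `gad3` on `B` (`u = 1`, `b = bB`; `bb 1 (bB + 1) - 1 = bB / 2`) for each pair of labels: at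
least two of the three have `β ≤ bB / 2` (`two_of_three`); by rotating we may assume `x`, `y`.  `gad1` on
`B`: `β z ≤ 1 + bB / 2`.  `gad2` on `A` (`u = 0`): `α x ≤ (bA + 1) / 2` or `α y ≤ (bA + 1) / 2` or
`α z ≤ (bA - 1) / 2`.  In each case the sum is `h`.

case013 (`rk A = bA`, `rk B = bB + 2`), `2 h = bA + bB + 1`.
`bA` odd (`bB` even): `gad1` on `A` (`u = 0`): `α v ≤ (bA - 1) / 2` for all `v`.  `gad4` on `B` (`u = 1`):
`β v ≤ 1 + bB / 2` for some `v`.  The sum is `h`.
`bA` even (so `bA ≥ 4`, `bB` odd, `bB ≥ 3`): `gad1` on `A`: `α v ≤ bA / 2` for all `v`.  `gad2` on `B` (`u = 1`) for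
each pair `v, v'`, third `v''`: `β v ≤ (bB + 3) / 2` or `β v' ≤ (bB + 3) / 2` or `β v'' ≤ (bB + 1) / 2`, the
last is impossible.  So (`two_of_three`) two of them, after rotating `x` and `y`, have
`β ≤ (bB + 3) / 2`.  `gad7` on `A` (`u = 0`): `α x ≤ bA / 2 - 1` or `α y ≤ bA / 2 - 1`.  The sum is `h`.
-/

namespace RC

open Submodule Module

variable {C : ClsT} {ι κ V : Type} [DecidableEq ι] [AddCommGroup V] [Module ℚ V] {h : ℕ}
  {v : ι → V} {c : ι → κ} {E A B : Finset ι} {e0 : ι} {x y z : V}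

/-- Every label on the first side. -/
private theorem c013_alpha (hC : Cls C) (hP : Part C h v c E e0 A B x y z) {bA bB : ℕ}
    (cA : Cnt c A 0 bA) (hsum : bA + bB + 1 = 2 * h) (rA : rk v A = bA) (hB : 2 ≤ bB) :
    Spn v c A x (bA / 2) := by
  have h1 := gad1 hC hP.bad (S := A) (X := A) subset_rfl hP.subA (x := x)
    (hC.mono hP.sA.cls (fun w hw => Or.inr (Or.inl (by
      rcases hw with hw | hw
      · exact Or.inl hw
      · rw [Set.mem_singleton_iff] at hw
        rw [hw]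
        exact Or.inr (by simp)))))
    hP.sA.ne_x hP.sA.memx cA (by omega) (by omega) (by omega)
  rwa [Nat.zero_add] at h1

/-- Two labels on the second side. -/
private theorem c013_beta (hC : Cls C) (hP : Part C h v c E e0 A B x y z) {bA bB : ℕ}
    (cA : Cnt c A 0 bA) (cB : Cnt c B 1 bB) (hsum : bA + bB + 1 = 2 * h)
    (hcol : ∀ a ∈ A, ∀ b ∈ B, c a ≠ c b) (rA : rk v A = bA) (rB : rk v B = bB + 2)
    (hA : 4 ≤ bA) (hB : 3 ≤ bB) (hev : bA % 2 = 0) :
    Spn v c B x (2 + bB / 2) ∨ Spn v c B y (2 + bB / 2) := by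
  rcases gad2 hC hP.bad (S := B) (X := B) subset_rfl hP.subB hP.sB cB (by omega) (by omega)
    (by omega) with h1 | h1 | h1
  · exact Or.inl h1
  · exact Or.inr h1
  · have h2 := c013_alpha hC hP.rot.rot (bB := bB) cA hsum rA (by omega)
    exact (comb hP.bad hP.subA hP.subB hcol hP.sA.ne_z h2 h1 (by omega)).elim

private theorem c013_fin (hC : Cls C) (hP : Part C h v c E e0 A B x y z) {bA bB : ℕ}
    (cA : Cnt c A 0 bA) (hsum : bA + bB + 1 = 2 * h)
    (hcol : ∀ a ∈ A, ∀ b ∈ B, c a ≠ c b) (rA : rk v A = bA)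
    (hB : 3 ≤ bB) (hA : 4 ≤ bA) (hev : bA % 2 = 0)
    (hx : Spn v c B x (2 + bB / 2)) (hy : Spn v c B y (2 + bB / 2)) : False := by
  rcases gad7 hC hP.bad (S := A) (X := A) subset_rfl hP.subA hP.sA cA (by omega) (by omega)
    (by omega) with h1 | h1
  · exact comb hP.bad hP.subA hP.subB hcol hP.sA.ne_x h1 hx (by omega)
  · exact comb hP.bad hP.subA hP.subB hcol hP.sA.ne_y h1 hy (by omega)

theorem case013 (hC : Cls C) (hP : Part C h v c E e0 A B x y z) {bA bB : ℕ}
    (cA : Cnt c A 0 bA) (cB : Cnt c B 1 bB) (hsum : bA + bB + 1 = 2 * h)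
    (hcol : ∀ a ∈ A, ∀ b ∈ B, c a ≠ c b) (rA : rk v A = bA) (rB : rk v B = bB + 2)
    (hA : 3 ≤ bA) (hB : 2 ≤ bB) : False := by
  rcases Nat.mod_two_eq_zero_or_one bA with hpar | hpar
  · -- `bA` even
    have hA' : 4 ≤ bA := by omega
    have hB' : 3 ≤ bB := by omega
    rcases two_of_three (P := fun w => Spn v c B w (2 + bB / 2))
      (c013_beta hC hP cA cB hsum hcol rA rB hA' hB' hpar)
      (c013_beta hC hP.rot cA cB hsum hcol rA rB hA' hB' hpar)
      (c013_beta hC hP.rot.rot cA cB hsum hcol rA rB hA' hB' hpar) with h1 | h1 | h1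
    · exact c013_fin hC hP cA hsum hcol rA hB' hA' hpar h1.1 h1.2
    · exact c013_fin hC hP.rot cA hsum hcol rA hB' hA' hpar h1.1 h1.2
    · exact c013_fin hC hP.rot.rot cA hsum hcol rA hB' hA' hpar h1.1 h1.2
  · -- `bA` odd
    rcases gad4 hC hP.bad (S := B) (X := B) subset_rfl hP.subB hP.sB cB (by omega) (by omega)
      (by omega) with h1 | h1 | h1
    · exact comb hP.bad hP.subA hP.subB hcol hP.sA.ne_x (c013_alpha hC hP cA hsum rA hB) h1
        (by omega)
    · exact comb hP.bad hP.subA hP.subB hcol hP.sA.ne_y (c013_alpha hC hP.rot cA hsum rA hB) h1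
        (by omega)
    · exact comb hP.bad hP.subA hP.subB hcol hP.sA.ne_z (c013_alpha hC hP.rot.rot cA hsum rA hB)
        h1 (by omega)

end RC
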