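import Pool.Agent.Helper73.RCS.Part
import Pool.Agent.Helper73.RCS.Comb
import Pool.Agent.Helper73.RCS.GadA
import Pool.Agent.Helper73.RCS.GadB
import Pool.Agent.Helper73.RCS.GadD

/-!
RCS-12, 13 (separations without split colour).  Write `α v ≤ k` for `Spn v c A v k`, `β v ≤ k` for
`Spn v c B v k` (`v` one of `x, y, z`).  By `comb` (`hcol`): `α v ≤ k` and `β v ≤ l` with `k + l ≤ h` is
impossible.  `Part`, `Side` may be permuted by `rot` and `swap`; `Part.subA`, `Part.subB`; all divisions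
are handled by `omega`.

case022 (`rk A = bA + 1`, `rk B = bB + 1`), `2 h = bA + bB + 1`.
`bA` even (`bB` odd): `gad4` on `A` (`S = X = A`, `u = 0`, `b = bA`): `α v ≤ bA / 2` for some `v` of `x, y, z`.
`gad1` on `B` (`S = X = B`, `u = 1`, `b = bB`; the class condition of `gad1` follows from `sB.cls` by `hC.mono`):
`β v ≤ (bB + 1) / 2` for all `v`.  The sum is `h`.
`bA` odd (`bB` even): `gad3` on `B` (`u = 1`, `b = bB`; `bb 1 (bB + 1) - 1 = bB / 2`) for each pair of labels: at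
least two of the three have `β ≤ bB / 2` (`two_of_three`); by rotating we may assume `x`, `y`.  `gad1` on
`B`: `β z ≤ 1 + bB / 2`.  `gad2` on `A` (`u = 0`): `α x ≤ (bA + 1) / 2` or `α y ≤ (bA + 1) / 2` or
`α z ≤ (bA - 1) / 2`.  In each case the sum is `h`.

case013 (`rk A = bA`, `rk B = bB + 2`), `2 h = bA + bB + 1`.
`bA` odd (`bB` even): `gad1` on `A` (`u = 0`): `α v ≤ (bA - 1) / 2` for all `v`.  `gad4` on `B` (`u = 1`):
`β v ≤ 1 + bB / 2` for some `v`.  The sum is `h`.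
`bA` even (so `bA ≥ 4`, `bB` odd, `bB ≥ 3`): `gad1` on `A`: `α v ≤ bA / 2` for all `v`.  `gad2` on `B` (`u = 1`) for
each pair `v, v'`, third `v''`: `β v ≤ (bB + 3) / 2` or `β v' ≤ (bB + 3) / 2` or `β v'' ≤ (bB + 1) / 2`, the
last is impossible.  So (`two_of_three`) two of them, after rotating `x` and `y`, have
`β ≤ (bB + 3) / 2`.  `gad7` on `A` (`u = 0`): `α x ≤ bA / 2 - 1` or `α y ≤ bA / 2 - 1`.  The sum is `h`.
-/

namespace RC

open Submodule Module

variable {C : ClsT} {ι κ V : Type} [DecidableEq ι] [AddCommGroup V] [Module ℚ V] {h : ℕ}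
  {v : ι → V} {c : ι → κ} {E A B : Finset ι} {e0 : ι} {x y z : V}

theorem h85_cls1 (hC : Cls C) {X : Finset ι} (hs : Side C v X x y z) :
    C V (v '' (X : Set ι) ∪ {x}) := by
  refine hC.mono hs.cls ?_
  intro w hw
  rcases hw with hw | hw
  · exact Or.inr (Or.inl (Or.inl hw))
  · rw [Set.mem_singleton_iff] at hw
    subst hw
    exact Or.inr (Or.inl (Or.inr (by simp)))

theorem h85_c022_bx (hC : Cls C) (hP : Part C h v c E e0 A B x y z) {bA bB : ℕ}
    (cB : Cnt c B 1 bB) (hsum : bA + bB + 1 = 2 * h) (rB : rk v B = bB + 1)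
    (hA : 2 ≤ bA) : Spn v c B x (1 + bB / 2) :=
  gad1 hC hP.bad (Finset.Subset.refl B) hP.subB (h85_cls1 hC hP.sB) hP.sB.ne_x hP.sB.memx cB
    (by omega) (by omega) (by omega)

theorem h85_c022_even (hC : Cls C) (hP : Part C h v c E e0 A B x y z) {bA bB : ℕ}
    (cB : Cnt c B 1 bB) (hsum : bA + bB + 1 = 2 * h)
    (hcol : ∀ a ∈ A, ∀ b ∈ B, c a ≠ c b) (rB : rk v B = bB + 1)
    (hA : 2 ≤ bA) (h2 : bA % 2 = 0) (hx : Spn v c A x (0 + (bA + 1) / 2)) : False :=
  comb hP.bad hP.subA hP.subB hcol hP.sA.ne_x hx (h85_c022_bx hC hP cB hsum rB hA) (by omega)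

theorem h85_c022_odd (hC : Cls C) (hP : Part C h v c E e0 A B x y z) {bA bB : ℕ}
    (cA : Cnt c A 0 bA) (cB : Cnt c B 1 bB) (hsum : bA + bB + 1 = 2 * h)
    (hcol : ∀ a ∈ A, ∀ b ∈ B, c a ≠ c b) (rA : rk v A = bA + 1) (rB : rk v B = bB + 1)
    (hA : 2 ≤ bA) (hB : 2 ≤ bB) (h2 : bA % 2 = 1) (hx : Spn v c B x (bb 1 (bB + 1) - 1))
    (hy : Spn v c B y (bb 1 (bB + 1) - 1)) : False := by
  have hbb : bb 1 (bB + 1) = 1 + (bB + 1) / 2 := by
    unfold bb
    rw [if_neg (by omega)]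
  have hz : Spn v c B z (1 + bB / 2) := h85_c022_bx hC hP.rot.rot cB hsum rB hA
  rcases gad2 hC hP.bad (Finset.Subset.refl A) hP.subA hP.sA cA (by omega) (by omega) (by omega)
    with h1 | h1 | h1
  · exact comb hP.bad hP.subA hP.subB hcol hP.sA.ne_x h1 hx (by omega)
  · exact comb hP.bad hP.subA hP.subB hcol hP.sA.ne_y h1 hy (by omega)
  · exact comb hP.bad hP.subA hP.subB hcol hP.sA.ne_z h1 hz (by omega)

theorem h85_c022_pair (hC : Cls C) (hP : Part C h v c E e0 A B x y z) {bA bB : ℕ}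
    (cB : Cnt c B 1 bB) (hsum : bA + bB + 1 = 2 * h) (rB : rk v B = bB + 1)
    (hA : 2 ≤ bA) (h2 : bA % 2 = 1) :
    Spn v c B x (bb 1 (bB + 1) - 1) ∨ Spn v c B y (bb 1 (bB + 1) - 1) := by
  have hbb : bb 1 (bB + 1) = 1 + (bB + 1) / 2 := by
    unfold bb
    rw [if_neg (by omega)]
  exact gad3 hC hP.bad (Finset.Subset.refl B) hP.subB hP.sB cB (by omega) (by omega) (by omega)

theorem case022 (hC : Cls C) (hP : Part C h v c E e0 A B x y z) {bA bB : ℕ}
    (cA : Cnt c A 0 bA) (cB : Cnt c B 1 bB) (hsum : bA + bB + 1 = 2 * h)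
    (hcol : ∀ a ∈ A, ∀ b ∈ B, c a ≠ c b) (rA : rk v A = bA + 1) (rB : rk v B = bB + 1)
    (hA : 2 ≤ bA) (hB : 2 ≤ bB) : False := by
  rcases Nat.mod_two_eq_zero_or_one bA with h2 | h2
  · rcases gad4 hC hP.bad (Finset.Subset.refl A) hP.subA hP.sA cA (by omega) (by omega) (by omega)
      with h1 | h1 | h1
    · exact h85_c022_even hC hP cB hsum hcol rB hA h2 h1
    · exact h85_c022_even hC hP.rot cB hsum hcol rB hA h2 h1
    · exact h85_c022_even hC hP.rot.rot cB hsum hcol rB hA h2 h1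
  · rcases two_of_three (P := fun w => Spn v c B w (bb 1 (bB + 1) - 1))
      (h85_c022_pair hC hP cB hsum rB hA h2) (h85_c022_pair hC hP.rot cB hsum rB hA h2)
      (h85_c022_pair hC hP.rot.rot cB hsum rB hA h2) with h1 | h1 | h1
    · exact h85_c022_odd hC hP cA cB hsum hcol rA rB hA hB h2 h1.1 h1.2
    · exact h85_c022_odd hC hP.rot cA cB hsum hcol rA rB hA hB h2 h1.1 h1.2
    · exact h85_c022_odd hC hP.rot.rot cA cB hsum hcol rA rB hA hB h2 h1.1 h1.2

end RC
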