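import Pool.Agent.Helper73.RCS.Ext
import Pool.Agent.Helper73.RCS.Line3

/-!
RCS-7c (gadgets where an element `a` which is alone in `S` with its colour gets a partner).

gad5: `ext_id` with `k = 2`, `m = 1`, `g = ![x, y]`, `γ = ![Sum.inl (c a), Sum.inr 0]`, `Y = {x, y, z}`.
`bd (u + b + 1) (u + 2 b + 2) = bb u (b + 1) = u + (b + 1) / 2` (`u ≥ 1`).  If `β 0 = 0` then `y ∈ span T`,
`T.card + 1 ≤ u + (b + 1) / 2`.  If `β 0 ≠ 0` then no element of `T` has the colour of `a`, so
`T ⊆ S.erase a`; if also `β 1 = 0` then `x ∈ span T`, `T.card + 1 ≤ u + (b + 1) / 2`; if `β 1 ≠ 0` then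
`T.card + 2 ≤ u + (b + 1) / 2` and by `line3` one of `x, y, z` is in `span T`.

gad6: `ext_id` with `k = 3`, `m = 1`, `g = ![x, y, z]`, `γ = ![Sum.inr 0, Sum.inr 0, Sum.inl (c a)]`.
`bd (u + b + 1) (u + 2 b + 3) = bb (u - 1) (b + 2)` (`u ≥ 1`).  At most one of `β 0`, `β 1` is not zero.  If
`β 2 = 0` then `x ∈ span T` or `y ∈ span T`.  If `β 2 ≠ 0` then `T ⊆ S.erase a`, and `z ∈ span T`
or (`line3'`, `line3''`) one of `x, y, z` is in `span T`.
-/

namespace RC

open Submodule Module

variable {C : ClsT} {ι κ V : Type} [DecidableEq ι] [AddCommGroup V] [Module ℚ V] {h : ℕ}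
  {v : ι → V} {c : ι → κ} {E : Finset ι} {e0 : ι}

theorem gadC_one {k : ℕ} {β : Fin k → ℚ} {i : Fin k} (hi : β i ≠ 0) :
    1 ≤ (Finset.univ.filter fun i => β i ≠ 0).card :=
  Finset.card_pos.2 ⟨i, Finset.mem_filter.2 ⟨Finset.mem_univ _, hi⟩⟩

theorem gadC_two {k : ℕ} {β : Fin k → ℚ} {i i' : Fin k} (hi : β i ≠ 0) (hi' : β i' ≠ 0)
    (hne : i ≠ i') : 2 ≤ (Finset.univ.filter fun i => β i ≠ 0).card := by
  have h1 : ({i, i'} : Finset (Fin k)) ⊆ Finset.univ.filter fun i => β i ≠ 0 := by
    intro j hj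
    rw [Finset.mem_insert, Finset.mem_singleton] at hj
    rcases hj with rfl | rfl
    · exact Finset.mem_filter.2 ⟨Finset.mem_univ _, hi⟩
    · exact Finset.mem_filter.2 ⟨Finset.mem_univ _, hi'⟩
  have h2 := Finset.card_le_card h1
  rwa [Finset.card_pair hne] at h2

theorem gadC_smul {U : Submodule ℚ V} {r : ℚ} {y : V} (hr : r ≠ 0) (h : r • y ∈ U) : y ∈ U := by
  have := U.smul_mem r⁻¹ h
  rwa [smul_smul, inv_mul_cancel₀ hr, one_smul] at this

omit [DecidableEq ι] in
theorem gadC_Y {X : Finset ι} {x y z : V} (hs : Side C v X x y z) :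
    ({x, y, z} : Set V) ⊆ span ℚ (v '' (X : Set ι)) := by
  intro w hw
  simp only [Set.mem_insert_iff, Set.mem_singleton_iff] at hw
  rcases hw with rfl | rfl | rfl
  · exact hs.memx
  · exact hs.memy
  · exact hs.memz

theorem gad5 (hC : Cls C) (hB : Bad C h v c E e0) {S X : Finset ι} (hS : S ⊆ X) (hX : X ⊆ E)
    {x y z : V} (hs : Side C v X x y z) {u b : ℕ} (hcnt : Cnt c S u b) (hu : 1 ≤ u)
    {a : ι} (ha : a ∈ S) (hsg : ∀ e ∈ S, c e = c a → e = a)
    (hli : LinearIndependent ℚ ![v a, x])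
    (hr : rk v X ≤ u + b) (hn : u + b + 1 < 2 * h) (hb : u + (b + 1) / 2 ≤ h) :
    Spn v c S y (u + (b + 1) / 2 - 1) ∨ Spn v c (S.erase a) x (u + (b + 1) / 2 - 1) ∨
      Spn v c (S.erase a) z (u + (b + 1) / 2 - 2) := by
  obtain ⟨T, β, hT, hi, hc, hne, hinj, hnew, hw⟩ := ext_id hC hB hS hX hs.cls (gadC_Y hs)
    (k := 2) (m := 1) hcnt ![x, y] ![Sum.inl (c a), Sum.inr 0]
    (by intro i; fin_cases i <;> simp)
    (by
      intro i
      fin_cases i
      · exact hs.ne_x
      · exact hs.ne_y)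
    (by
      intro i q hq
      fin_cases i
      · have hq' : c a = q := Sum.inl_injective hq
        subst hq'
        exact ⟨a, ha, rfl, hsg, hli⟩
      · cases hq)
    (by
      intro i i' hne hii
      fin_cases i <;> fin_cases i'
      · exact absurd rfl hne
      · cases hii
      · cases hii
      · exact absurd rfl hne)
    (by
      intro i i' i'' _ _
      fin_cases i <;> fin_cases i' <;> fin_cases i'' <;> simp)
    (by
      intro t
      refine ⟨1, ?_⟩
      have : t = 0 := Subsingleton.elim _ _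
      rw [this]
      rfl)
    (by omega) (by omega)
    (by
      have : bd (u + b + 1) (u + 2 * b + 2) = u + (b + 1) / 2 := by
        unfold bd
        rw [if_neg (by omega)]
        omega
      rw [this]; exact hb)
  have hbd : bd (u + b + 1) (u + 2 * b + 2) = u + (b + 1) / 2 := by
    unfold bd
    rw [if_neg (by omega)]
    omega
  rw [hbd] at hc
  rw [Fin.sum_univ_two] at hw
  have hw' : β 0 • x + β 1 • y ∈ span ℚ (v '' (T : Set ι)) := hw
  by_cases h0 : β 0 = 0
  · have h1 : β 1 ≠ 0 := by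
      obtain ⟨i, hi⟩ := hne
      fin_cases i
      · exact absurd h0 hi
      · exact hi
    left
    have h2 := gadC_one h1
    rw [h0, zero_smul, zero_add] at hw'
    exact ⟨T, hT, by omega, hi, gadC_smul h1 hw'⟩
  · have haT : a ∉ T := fun haT => hnew 0 h0 a haT rfl
    have hTe : T ⊆ S.erase a := fun e he =>
      Finset.mem_erase.2 ⟨fun h => haT (h ▸ he), hT he⟩
    by_cases h1 : β 1 = 0
    · right; left
      have h2 := gadC_one h0
      rw [h1, zero_smul, add_zero] at hw'
      exact ⟨T, hTe, by omega, hi, gadC_smul h0 hw'⟩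
    · have h2 := gadC_two h0 h1 (by decide)
      rcases line3 hC hs (hT.trans hS) (Or.inl h0) hw' with h3 | h3 | h3
      · exact Or.inr (Or.inl ⟨T, hTe, by omega, hi, h3⟩)
      · exact Or.inl ⟨T, hT, by omega, hi, h3⟩
      · exact Or.inr (Or.inr ⟨T, hTe, by omega, hi, h3⟩)

theorem gad6 (hC : Cls C) (hB : Bad C h v c E e0) {S X : Finset ι} (hS : S ⊆ X) (hX : X ⊆ E)
    {x y z : V} (hs : Side C v X x y z) {u b : ℕ} (hcnt : Cnt c S u b) (hu : 1 ≤ u)
    {a : ι} (ha : a ∈ S) (hsg : ∀ e ∈ S, c e = c a → e = a)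
    (hli : LinearIndependent ℚ ![v a, z])
    (hr : rk v X ≤ u + b) (hn : u + b + 1 < 2 * h) (hb : bb (u - 1) (b + 2) ≤ h) :
    Spn v c S x (bb (u - 1) (b + 2) - 1) ∨ Spn v c S y (bb (u - 1) (b + 2) - 1) ∨
      Spn v c (S.erase a) z (bb (u - 1) (b + 2) - 1) := by
  have hbd : bd (u + b + 1) (u + 2 * b + 3) = bb (u - 1) (b + 2) := by
    rw [← bd_eq_bb]
    congr 1 <;> omega
  obtain ⟨T, β, hT, hi, hc, hne, hinj, hnew, hw⟩ := ext_id hC hB hS hX hs.cls (gadC_Y hs)
    (k := 3) (m := 1) hcnt ![x, y, z] ![Sum.inr 0, Sum.inr 0, Sum.inl (c a)]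
    (by intro i; fin_cases i <;> simp)
    (by
      intro i
      fin_cases i
      · exact hs.ne_x
      · exact hs.ne_y
      · exact hs.ne_z)
    (by
      intro i q hq
      fin_cases i
      · cases hq
      · cases hq
      · have hq' : c a = q := Sum.inl_injective hq
        subst hq'
        exact ⟨a, ha, rfl, hsg, hli⟩)
    (by
      intro i i' hne hii
      fin_cases i <;> fin_cases i'
      · exact absurd rfl hne
      · exact ⟨⟨0, rfl⟩, hs.li⟩
      · cases hii
      · exact ⟨⟨0, rfl⟩, li_swap hs.li⟩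
      · exact absurd rfl hne
      · cases hii
      · cases hii
      · cases hii
      · exact absurd rfl hne)
    (by
      intro i i' i'' h1 h2
      fin_cases i <;> fin_cases i' <;> fin_cases i'' <;>
        first
          | exact Or.inl rfl
          | exact Or.inr (Or.inl rfl)
          | exact Or.inr (Or.inr rfl)
          | (cases h1; done)
          | (cases h2; done))
    (by
      intro t
      refine ⟨0, ?_⟩
      have : t = 0 := Subsingleton.elim _ _
      rw [this]
      rfl)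
    (by omega) (by omega) (by rw [hbd]; exact hb)
  rw [hbd] at hc
  rw [Fin.sum_univ_three] at hw
  have hw' : β 0 • x + β 1 • y + β 2 • z ∈ span ℚ (v '' (T : Set ι)) := hw
  have h01 : β 0 = 0 ∨ β 1 = 0 := by
    by_contra hno
    push Not at hno
    have := hinj 0 1 hno.1 hno.2 rfl
    exact absurd this (by decide)
  by_cases h2 : β 2 = 0
  · rw [h2, zero_smul, add_zero] at hw'
    by_cases h0 : β 0 = 0
    · have h1 : β 1 ≠ 0 := by
        obtain ⟨i, hi⟩ := hne
        fin_cases i
        · exact absurd h0 hi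
        · exact hi
        · exact absurd h2 hi
      have h3 := gadC_one h1
      rw [h0, zero_smul, zero_add] at hw'
      exact Or.inr (Or.inl ⟨T, hT, by omega, hi, gadC_smul h1 hw'⟩)
    · have h1 : β 1 = 0 := h01.resolve_left h0
      have h3 := gadC_one h0
      rw [h1, zero_smul, add_zero] at hw'
      exact Or.inl ⟨T, hT, by omega, hi, gadC_smul h0 hw'⟩
  · have haT : a ∉ T := fun haT => hnew 2 h2 a haT rfl
    have hTe : T ⊆ S.erase a := fun e he =>
      Finset.mem_erase.2 ⟨fun h => haT (h ▸ he), hT he⟩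
    have h3 := gadC_one h2
    by_cases h0 : β 0 = 0
    · rw [h0, zero_smul, zero_add] at hw'
      by_cases h1 : β 1 = 0
      · rw [h1, zero_smul, zero_add] at hw'
        exact Or.inr (Or.inr ⟨T, hTe, by omega, hi, gadC_smul h2 hw'⟩)
      · rcases line3'' hC hs (hT.trans hS) (Or.inl h1) hw' with h4 | h4 | h4
        · exact Or.inl ⟨T, hT, by omega, hi, h4⟩
        · exact Or.inr (Or.inl ⟨T, hT, by omega, hi, h4⟩)
        · exact Or.inr (Or.inr ⟨T, hTe, by omega, hi, h4⟩)
    · have h1 : β 1 = 0 := h01.resolve_left h0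
      rw [h1, zero_smul, add_zero] at hw'
      rcases line3' hC hs (hT.trans hS) (Or.inl h0) hw' with h4 | h4 | h4
      · exact Or.inl ⟨T, hT, by omega, hi, h4⟩
      · exact Or.inr (Or.inl ⟨T, hT, by omega, hi, h4⟩)
      · exact Or.inr (Or.inr ⟨T, hTe, by omega, hi, h4⟩)

end RC
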