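import Pool.Agent.Helper73.RCS.Part
import Pool.Agent.Helper73.RCS.Comb
import Pool.Agent.Helper73.RCS.GadA
import Pool.Agent.Helper73.RCS.GadB
import Pool.Agent.Helper73.RCS.GadC

/-!
RCS-14, 15 (separations with exactly one split colour `{a1, b1}`).  Write `α w ≤ k` for
`Spn v c A w k`, `α0 w ≤ k` for `Spn v c (A.erase a1) w k`, `β w ≤ k` for `Spn v c B w k`, `β0 w ≤ k`
for `Spn v c (B.erase b1) w k` (`w` one of `x, y, z`).  By `comb`: `α0 w ≤ k`, `β w ≤ l`, `k + l ≤ h` is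
impossible, `α w ≤ k`, `β0 w ≤ l`, `k + l ≤ h` is impossible (no common colour of `A \ {a1}` and `B`, of
`A` and `B \ {b1}`, by `huniq`).  `a1` is alone in `A` with its colour, `b1` in `B` (`huniq`).
`2 h = bA + bB + 2`.  All permutations of `x, y, z` are allowed (`rot`, `swap`).

case1odd (`bA`, `bB` odd, so `bA ≥ 3`).
`gad1` on `A` (`S = X = A`, `u = 1`, `b = bA`): `α w ≤ (bA + 1) / 2` for all `w`.
`gad6` on `B` (`S = X = B`, `u = 2`, `b = bB`, `a = b1`) for each labelling: `β x ≤ (bB + 1) / 2` or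
`β y ≤ (bB + 1) / 2` or `β0 z ≤ (bB + 1) / 2` (`bb 1 (bB + 2) - 1 = (bB + 1) / 2`); the last contradicts the bound for
`α z`.  So (`two_of_three`) two of the three, after rotating `x`, `y`, have `β ≤ (bB + 1) / 2`.
`gad2` with `S = A.erase a1`, `X = A`, `u = 0`, `b = bA`: `α0 x ≤ (bA + 1) / 2` or `α0 y ≤ (bA + 1) / 2`: the sum
with `β` is `h`; or `α0 z ≤ (bA - 1) / 2`: `gad1` on `B` (`u = 2`) gives `β z ≤ (bB + 3) / 2`, the sum is `h`.

case1even (`bA`, `bB` even, `bA, bB ≥ 2`), `h = bA / 2 + bB / 2 + 1`.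
P0: `gad4` with `S = A.erase a1`, `X = A`, `u = 0`: `α0 w ≤ bA / 2` for some `w`.
P1: `gad3` on `A` (`u = 1`) for each pair: at least two of the three have `α w ≤ bA / 2`.
Q1: `gad3` on `B` (`u = 2`) for each pair: at least two of the three have `β w ≤ 1 + bB / 2`.
R1: `gad4` with `S = B.erase b1`, `X = B`, `u = 1`: `β0 w ≤ 1 + bB / 2` for some `w`.
`P0 ∩ Q1` is empty, `P1 ∩ R1` is empty (sum `h`).  `R1 ⊆ Q1` (`Spn.mono`), `P0 ⊆ P1`.  So there is exactly one
`v0` in P0, Q1 is the rest; there is exactly one `w` in R1, P1 is the rest, `w ≠ v0` as `w ∈ Q1`.  Let `u` be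
the third: `u ∈ P1 ∩ Q1`.  `gad5` on `A` (`u = 1`, `b = bA`, `a = a1`, `x := u`, `y := w`, `z := v0`):
`α w ≤ bA / 2`: impossible by `w ∈ R1`; or `α0 u ≤ bA / 2`: impossible by `u ∈ Q1`; or
`α0 v0 ≤ bA / 2 - 1`.  If `bA = 2` this is impossible by `spn_zero`.  If `bA ≥ 4`: `gad1` on `B` (`u = 2`)
gives `β v0 ≤ 2 + bB / 2`, the sum is `h`.
(It is convenient to prove the final step for fixed labels `u, w, v0` = `x, y, z` as a lemma and then to
go through the six permutations.)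
-/

namespace RC

open Submodule Module

variable {C : ClsT} {ι κ V : Type} [DecidableEq ι] [AddCommGroup V] [Module ℚ V] {h : ℕ}
  {v : ι → V} {c : ι → κ} {E A B : Finset ι} {e0 : ι} {x y z : V}

omit [DecidableEq ι] in
private theorem h19_cls (hC : Cls C) {X : Finset ι} (hs : Side C v X x y z) :
    C V (v '' (X : Set ι) ∪ {x}) := by
  refine hC.mono hs.cls ?_
  intro w hw
  refine Or.inr (Or.inl ?_)
  rcases hw with hw | hw
  · exact Or.inl hw
  · refine Or.inr ?_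
    rw [Set.mem_singleton_iff] at hw
    rw [hw]
    exact Set.mem_insert _ _

/-- the final step for fixed labels -/
private theorem h19_odd (hC : Cls C) (hP : Part C h v c E e0 A B x y z) {bA bB : ℕ} {a1 b1 : ι}
    (huniq : ∀ a ∈ A, ∀ b ∈ B, c a = c b → a = a1 ∧ b = b1)
    (cB : Cnt c B 2 bB) (cA0 : Cnt c (A.erase a1) 0 bA)
    (hsum : bA + bB + 2 = 2 * h)
    (rA : rk v A = bA + 1) (rB : rk v B = bB + 2)
    (hA : 2 ≤ bA) (hB : 1 ≤ bB) (hodd : bA % 2 = 1)
    (hx : Spn v c B x ((bB + 1) / 2)) (hy : Spn v c B y ((bB + 1) / 2)) : False := by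
  have hcomb : ∀ w : V, w ≠ 0 → ∀ k l : ℕ, Spn v c (A.erase a1) w k → Spn v c B w l →
      k + l ≤ h → False := by
    intro w hw k l h1 h2 h3
    refine comb hP.bad ((Finset.erase_subset _ _).trans hP.subA) hP.subB ?_ hw h1 h2 h3
    intro e he e' he' hc
    rw [Finset.mem_erase] at he
    exact he.1 (huniq e he.2 e' he' hc).1
  rcases gad2 hC hP.bad (Finset.erase_subset a1 A) hP.subA hP.sA cA0 (by omega) (by omega)
    (by omega) with h1 | h1 | h1
  · exact hcomb x hP.sA.ne_x _ _ h1 hx (by omega)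
  · exact hcomb y hP.sA.ne_y _ _ h1 hy (by omega)
  · have hz := gad1 hC hP.bad (Finset.Subset.refl B) hP.subB (h19_cls hC hP.sB.rot.rot)
      hP.sB.ne_z hP.sB.memz cB (by omega) (by omega) (by omega)
    exact hcomb z hP.sA.ne_z _ _ h1 hz (by omega)

/-- two of the three triangle elements -/
private theorem h19_two (hC : Cls C) (hP : Part C h v c E e0 A B x y z) {bA bB : ℕ} {a1 b1 : ι}
    (ha1 : a1 ∈ A) (hb1 : b1 ∈ B) (hab : c a1 = c b1)
    (huniq : ∀ a ∈ A, ∀ b ∈ B, c a = c b → a = a1 ∧ b = b1)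
    (cA : Cnt c A 1 bA) (cB : Cnt c B 2 bB) (hsum : bA + bB + 2 = 2 * h)
    (rA : rk v A = bA + 1) (rB : rk v B = bB + 2)
    (hlb : LinearIndependent ℚ ![v b1, z])
    (hA : 2 ≤ bA) (hB : 1 ≤ bB) (hodd : bA % 2 = 1) :
    Spn v c B x ((bB + 1) / 2) ∨ Spn v c B y ((bB + 1) / 2) := by
  have hsgB : ∀ e ∈ B, c e = c b1 → e = b1 := fun e he hc =>
    (huniq a1 ha1 e he (hab.trans hc.symm)).2
  have hbb : bb (2 - 1) (bB + 2) = 1 + (bB + 2) / 2 := by
    unfold bb
    rw [if_neg (by omega)]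
  have hcomb : ∀ w : V, w ≠ 0 → ∀ k l : ℕ, Spn v c A w k → Spn v c (B.erase b1) w l →
      k + l ≤ h → False := by
    intro w hw k l h1 h2 h3
    refine comb hP.bad hP.subA ((Finset.erase_subset _ _).trans hP.subB) ?_ hw h1 h2 h3
    intro e he e' he' hc
    rw [Finset.mem_erase] at he'
    exact he'.1 (huniq e he e' he'.2 hc).2
  rcases gad6 hC hP.bad (Finset.Subset.refl B) hP.subB hP.sB cB (by omega) hb1 hsgB hlb
    (by omega) (by omega) (by rw [hbb]; omega) with h1 | h1 | h1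
  · exact Or.inl (h1.mono (Finset.Subset.refl _) (by rw [hbb]; omega))
  · exact Or.inr (h1.mono (Finset.Subset.refl _) (by rw [hbb]; omega))
  · exfalso
    have hz := gad1 hC hP.bad (Finset.Subset.refl A) hP.subA (h19_cls hC hP.sA.rot.rot)
      hP.sA.ne_z hP.sA.memz cA (by omega) (by omega) (by omega)
    exact hcomb z hP.sA.ne_z _ _ hz h1 (by rw [hbb]; omega)

theorem case1odd (hC : Cls C) (hP : Part C h v c E e0 A B x y z) {bA bB : ℕ} {a1 b1 : ι}
    (ha1 : a1 ∈ A) (hb1 : b1 ∈ B) (hab : c a1 = c b1)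
    (huniq : ∀ a ∈ A, ∀ b ∈ B, c a = c b → a = a1 ∧ b = b1)
    (cA : Cnt c A 1 bA) (cB : Cnt c B 2 bB) (cA0 : Cnt c (A.erase a1) 0 bA)
    (cB0 : Cnt c (B.erase b1) 1 bB) (hsum : bA + bB + 2 = 2 * h)
    (rA : rk v A = bA + 1) (rB : rk v B = bB + 2)
    (hla : ∀ w ∈ ({x, y, z} : Set V), LinearIndependent ℚ ![v a1, w])
    (hlb : ∀ w ∈ ({x, y, z} : Set V), LinearIndependent ℚ ![v b1, w])
    (hA : 2 ≤ bA) (hB : 1 ≤ bB) (hodd : bA % 2 = 1) : False := by
  have h1 := h19_two hC hP ha1 hb1 hab huniq cA cB hsum rA rB (hlb z (by simp)) hA hB hodd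
  have h2 := h19_two hC hP.rot ha1 hb1 hab huniq cA cB hsum rA rB (hlb x (by simp)) hA hB hodd
  have h3 := h19_two hC hP.rot.rot ha1 hb1 hab huniq cA cB hsum rA rB (hlb y (by simp)) hA hB
    hodd
  rcases two_of_three (P := fun w => Spn v c B w ((bB + 1) / 2)) h1 h2 h3 with h | h | h
  · exact h19_odd hC hP huniq cB cA0 hsum rA rB hA hB hodd h.1 h.2
  · exact h19_odd hC hP.rot huniq cB cA0 hsum rA rB hA hB hodd h.1 h.2
  · exact h19_odd hC hP.rot.rot huniq cB cA0 hsum rA rB hA hB hodd h.1 h.2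

end RC
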