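import Pool.Agent.Helper73.RCS.Cocircuit
import Pool.Agent.Helper73.RCS.Rank2
import Pool.Agent.Helper73.RCS.Sides

/-!
RCS-9 (sides with four elements and rank 3).

quadA: `A ∪ B = E`, `e0 ∈ B`.  Let `D` be the set of the `a ∈ A` with `v a ∉ span (v '' B)`.  Then
`span (v '' (E \ D)) = span (v '' B)`, so `rk v (E \ D) = rk v B` and by `coc_notin` (`e0 ∉ D`) `4 ≤ D.card`, so
`D = A`: no element of `A` is in the span of `B`.  But `x, y, z` are.  So the four vectors of `A` and
`x, y, z` are seven pairwise non-parallel vectors (`hB.par'` in `A`; `v a` and `x`: `v a` is not in the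
span of `B`) of a unimodular set (`hs.cls`) inside the span of `v '' A`, of rank at most 3: contradiction
to `rank_three`.

quadB: `D` = the `b ∈ B` with `v b ∉ span (v '' A)`.  `rk v (E \ D) = rk v A`.  If `e0 ∉ D` then
`4 ≤ D.card` but `D ⊆ B \ {e0}`.  So `e0 ∈ D`, by `coc_in` `3 ≤ D.card`, and if `D.card = 3` there are two
different elements with the same colour in `B`: contradiction to `hcol`.  So `D = B`.  The rest is the
same.
-/

namespace RC

open Submodule Module

variable {C : ClsT} {ι κ V : Type} [DecidableEq ι] [AddCommGroup V] [Module ℚ V] {h : ℕ}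
  {v : ι → V} {c : ι → κ} {E : Finset ι} {e0 : ι}

private theorem h19_li {U : Submodule ℚ V} {p w : V} (hp : p ∉ U) (hw : w ∈ U) (hw0 : w ≠ 0) :
    LinearIndependent ℚ ![p, w] := by
  rw [LinearIndependent.pair_iff]
  intro s t hst
  have hs : s = 0 := by
    by_contra hs
    apply hp
    have h1 : p = (-(s⁻¹ * t)) • w := by
      have h2 : s⁻¹ • (s • p + t • w) = 0 := by rw [hst, smul_zero]
      rw [smul_add, smul_smul, smul_smul, inv_mul_cancel₀ hs, one_smul] at h2
      rw [neg_smul]
      exact eq_neg_of_add_eq_zero_left h2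
    rw [h1]
    exact U.smul_mem _ hw
  refine ⟨hs, ?_⟩
  rw [hs, zero_smul, zero_add] at hst
  exact (smul_eq_zero.1 hst).resolve_right hw0

/-- seven vectors in rank 3 -/
private theorem h19_seven (hC : Cls C) (hB : Bad C h v c E e0) {S S' : Finset ι} (hS : S ⊆ E)
    {x y z : V} (hs : Side C v S x y z)
    (hx : x ∈ span ℚ (v '' (S' : Set ι))) (hy : y ∈ span ℚ (v '' (S' : Set ι)))
    (hcard : S.card = 4) (hr : rk v S ≤ 3)
    (hno : ∀ a ∈ S, v a ∉ span ℚ (v '' (S' : Set ι))) : False := by
  let e : Fin 4 ≃ S := (Finset.equivFinOfCardEq hcard).symm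
  have hz : z ∈ span ℚ (v '' (S' : Set ι)) := by
    rw [hs.eq_z]
    exact sub_mem (neg_mem hx) hy
  have hne : ∀ i j : Fin 4, i ≠ j → ((e i : S) : ι) ≠ ((e j : S) : ι) := fun i j hij h =>
    hij (e.injective (Subtype.ext h))
  let u : Fin (4 + 3) → V := Fin.append (fun i : Fin 4 => v (e i)) ![x, y, z]
  have hul : ∀ i : Fin 4, u (Fin.castAdd 3 i) = v (e i) := fun i => Fin.append_left _ _ i
  have hur : ∀ i : Fin 3, u (Fin.natAdd 4 i) = ![x, y, z] i := fun i => Fin.append_right _ _ i
  have hw : ∀ i : Fin 3, ![x, y, z] i ∈ span ℚ (v '' (S' : Set ι)) := by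
    intro i
    fin_cases i
    · exact hx
    · exact hy
    · exact hz
  have hw' : ∀ i : Fin 3, ![x, y, z] i ∈ span ℚ (v '' (S : Set ι)) := by
    intro i
    fin_cases i
    · exact hs.memx
    · exact hs.memy
    · exact hs.memz
  have hw0 : ∀ i : Fin 3, ![x, y, z] i ≠ 0 := by
    intro i
    fin_cases i
    · exact hs.ne_x
    · exact hs.ne_y
    · exact hs.ne_z
  have hww : ∀ i j : Fin 3, i ≠ j → LinearIndependent ℚ ![![x, y, z] i, ![x, y, z] j] := by
    intro i j hij
    fin_cases i <;> fin_cases j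
    · exact absurd rfl hij
    · exact hs.li
    · exact li_swap hs.rot.rot.li
    · exact li_swap hs.li
    · exact absurd rfl hij
    · exact hs.rot.li
    · exact hs.rot.rot.li
    · exact li_swap hs.rot.li
    · exact absurd rfl hij
  have hu1 : ∀ i : Fin (4 + 3), u i ∈ v '' (S : Set ι) ∪ {x, y, z} := by
    intro i
    refine Fin.addCases (fun i => ?_) (fun i => ?_) i
    · rw [hul]
      exact Or.inl ⟨_, (e i).2, rfl⟩
    · rw [hur]
      refine Or.inr ?_
      fin_cases i
      · exact Or.inl rfl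
      · exact Or.inr (Or.inl rfl)
      · exact Or.inr (Or.inr rfl)
  have hu2 : ∀ i j : Fin (4 + 3), i ≠ j → LinearIndependent ℚ ![u i, u j] := by
    intro i j
    refine Fin.addCases (fun i => ?_) (fun i => ?_) i <;>
      refine Fin.addCases (fun j => ?_) (fun j => ?_) j
    · intro hij
      rw [hul, hul]
      exact hB.par' (hS (e i).2) (hS (e j).2) (hne i j fun h => hij (by rw [h]))
    · intro _
      rw [hul, hur]
      exact h19_li (hno _ (e i).2) (hw j) (hw0 j)
    · intro _
      rw [hul, hur]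
      exact li_swap (h19_li (hno _ (e j).2) (hw i) (hw0 i))
    · intro hij
      rw [hur, hur]
      exact hww i j fun h => hij (by rw [h])
  refine rank_three (hC.uni hs.cls) u hu1 hu2 ?_
  · have hf : FiniteDimensional ℚ (span ℚ (v '' (S : Set ι))) :=
      FiniteDimensional.span_of_finite ℚ ((Finset.finite_toSet S).image v)
    have hle : span ℚ (Set.range u) ≤ span ℚ (v '' (S : Set ι)) := by
      rw [span_le]
      rintro _ ⟨i, rfl⟩
      refine Fin.addCases (fun i => ?_) (fun i => ?_) i
      · rw [hul]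
        exact subset_span ⟨_, (e i).2, rfl⟩
      · rw [hur]
        exact hw' i
    exact (Submodule.finrank_mono hle).trans hr

omit [DecidableEq ι] in
private theorem h19_rk_le {T S' : Finset ι}
    (hT : ∀ t ∈ T, v t ∈ span ℚ (v '' (S' : Set ι))) : rk v T ≤ rk v S' := by
  have hf : FiniteDimensional ℚ (span ℚ (v '' (S' : Set ι))) :=
    FiniteDimensional.span_of_finite ℚ ((Finset.finite_toSet S').image v)
  refine Submodule.finrank_mono ?_
  rw [span_le]
  rintro _ ⟨t, ht, rfl⟩
  exact hT t ht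

theorem quadA (hC : Cls C) (hB : Bad C h v c E e0) {A B : Finset ι} (hU : A ∪ B = E)
    (hd : Disjoint A B) (he : e0 ∈ B) {x y z : V} (hs : Side C v A x y z)
    (hx : x ∈ span ℚ (v '' (B : Set ι))) (hy : y ∈ span ℚ (v '' (B : Set ι)))
    (hcard : A.card = 4) (hrA : rk v A ≤ 3) (hrB : rk v B + 2 ≤ 2 * h) : False := by
  classical
  set D := A.filter fun a => v a ∉ span ℚ (v '' (B : Set ι)) with hDdef
  have hDA : D ⊆ A := Finset.filter_subset _ _
  have hAE : A ⊆ E := by rw [← hU]; exact Finset.subset_union_left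
  have he0 : e0 ∉ D := fun h0 => (Finset.disjoint_left.1 hd (hDA h0)) he
  have hrk : rk v (E \ D) ≤ rk v B := by
    refine h19_rk_le fun t ht => ?_
    rw [Finset.mem_sdiff, ← hU, Finset.mem_union] at ht
    by_contra hno
    rcases ht with ⟨h1 | h1, h2⟩
    · exact h2 (Finset.mem_filter.2 ⟨h1, hno⟩)
    · exact hno (subset_span ⟨t, h1, rfl⟩)
  have h4 := coc_notin hC hB (hDA.trans hAE) he0 (by omega)
  have hDeq : D = A := Finset.eq_of_subset_of_card_le hDA (by omega)
  refine h19_seven hC hB hAE hs hx hy hcard hrA fun a ha => ?_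
  rw [← hDeq] at ha
  exact (Finset.mem_filter.1 ha).2

theorem quadB (hC : Cls C) (hB : Bad C h v c E e0) {A B : Finset ι} (hU : A ∪ B = E)
    (hd : Disjoint A B) (he : e0 ∈ B) {x y z : V} (hs : Side C v B x y z)
    (hx : x ∈ span ℚ (v '' (A : Set ι))) (hy : y ∈ span ℚ (v '' (A : Set ι)))
    (hcard : B.card = 4) (hcol : ∀ b ∈ B, ∀ b' ∈ B, c b = c b' → b = b')
    (hrB : rk v B ≤ 3) (hrA : rk v A + 2 ≤ 2 * h) : False := by
  classical
  set D := B.filter fun a => v a ∉ span ℚ (v '' (A : Set ι)) with hDdef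
  have hDB : D ⊆ B := Finset.filter_subset _ _
  have hBE : B ⊆ E := by rw [← hU]; exact Finset.subset_union_right
  have hrk : rk v (E \ D) ≤ rk v A := by
    refine h19_rk_le fun t ht => ?_
    rw [Finset.mem_sdiff, ← hU, Finset.mem_union] at ht
    by_contra hno
    rcases ht with ⟨h1 | h1, h2⟩
    · exact hno (subset_span ⟨t, h1, rfl⟩)
    · exact h2 (Finset.mem_filter.2 ⟨h1, hno⟩)
  have h4 : 4 ≤ D.card := by
    by_cases he0 : e0 ∈ D
    · obtain ⟨h3, h3'⟩ := coc_in hC hB (hDB.trans hBE) he0 (by omega)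
      by_contra hlt
      obtain ⟨p, hp, q, hq, hpq, -, -, hc, -⟩ := h3' (by omega)
      exact hpq (hcol p (hDB hp) q (hDB hq) hc)
    · exact coc_notin hC hB (hDB.trans hBE) he0 (by omega)
  have hDeq : D = B := Finset.eq_of_subset_of_card_le hDB (by omega)
  refine h19_seven hC hB hBE hs hx hy hcard hrB fun a ha => ?_
  rw [← hDeq] at ha
  exact (Finset.mem_filter.1 ha).2

end RC
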