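import Pool.Agent.Helper73.RCS.Num
import Pool.Agent.Helper73.RCS.Counts
import Pool.Agent.Helper73.RCS.Quad
import Pool.Agent.Helper73.RCS.Case022
import Pool.Agent.Helper73.RCS.Case013
import Pool.Agent.Helper73.RCS.Case1odd
import Pool.Agent.Helper73.RCS.Case1even

/-!
The separation step, 3-separations with both vectors of the triangle in both spans.
-/

namespace RC

open Submodule Module

variable {C : ClsT} {ι κ V : Type} [DecidableEq ι] [AddCommGroup V] [Module ℚ V] {h : ℕ}
  {v : ι → V} {c : ι → κ} {E A B : Finset ι} {e0 : ι} {x y z : V}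

omit [DecidableEq ι] in
theorem rk_ge_three (hC : Cls C) (hB : Bad C h v c E e0) (hA : A ⊆ E) (hcard : 4 ≤ A.card) :
    3 ≤ rk v A := by
  by_contra hcon
  have h1 : A.card ≤ 3 := by
    refine rank_two (hC.uni hB.sys.cls) A v (fun e he => ⟨e, by exact_mod_cast hA he, rfl⟩) ?_ ?_
    · intro e he e' he' hne
      exact hB.par' (hA he) (hA he') hne
    · have : rk v A ≤ 2 := by omega
      exact this
  omega

omit [DecidableEq ι] in
theorem finrank_span_pair (li : LinearIndependent ℚ ![x, y]) :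
    finrank ℚ (span ℚ ({x, y} : Set V)) = 2 := by
  have h1 := finrank_span_eq_card li
  have h2 : Set.range ![x, y] = {x, y} := by
    simp [Matrix.range_cons, Matrix.range_empty, Set.pair_comm]
  rw [h2] at h1
  simpa using h1

omit [DecidableEq ι] in
theorem li_of_not_mem (hw0 : z ≠ 0) (hz : z ∈ span ℚ ({x, y} : Set V)) {w : V}
    (hw : w ∉ span ℚ ({x, y} : Set V)) : LinearIndependent ℚ ![w, z] := by
  rw [LinearIndependent.pair_iff]
  intro s t hst
  by_cases hs : s = 0
  · subst hs
    rw [zero_smul, zero_add] at hst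
    exact ⟨rfl, (smul_eq_zero.1 hst).resolve_right hw0⟩
  · exfalso
    apply hw
    have : w = (-(s⁻¹ * t)) • z := by
      have h1 : s • w = -(t • z) := eq_neg_of_add_eq_zero_left hst
      have h2 : w = s⁻¹ • (s • w) := by rw [smul_smul, inv_mul_cancel₀ hs, one_smul]
      rw [h2, h1, smul_neg, smul_smul, neg_smul]
    rw [this]
    exact smul_mem _ _ hz

theorem core3 (hC : Cls C) (hP : Part C h v c E e0 A B x y z)
    (hinf : span ℚ (v '' (A : Set ι)) ⊓ span ℚ (v '' (B : Set ι)) ≤ span ℚ {x, y})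
    (hA4 : 4 ≤ A.card) (hB4 : 4 ≤ B.card)
    (hg : ∀ a ∈ A, ∀ b ∈ B, c a = c b → v a ∉ span ℚ {x, y} ∧ v b ∉ span ℚ {x, y}) :
    False := by
  have hB := hP.bad
  have hAE := hP.subA
  have hBE := hP.subB
  obtain ⟨bA, bB, s, cA, cB, hsum, hs0, hs1, hfull⟩ := counts hB hP.hU hP.hd hP.he
  have hrs := rank_sum hB hP.hU
  have hinf' : span ℚ (v '' (A : Set ι)) ⊓ span ℚ (v '' (B : Set ι)) = span ℚ {x, y} := by
    refine le_antisymm hinf ?_
    rw [span_le]
    intro w hw
    simp only [Set.mem_insert_iff, Set.mem_singleton_iff] at hw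
    rcases hw with rfl | rfl
    · exact ⟨hP.sA.memx, hP.sB.memx⟩
    · exact ⟨hP.sA.memy, hP.sB.memy⟩
  rw [hinf', finrank_span_pair hP.sA.li] at hrs
  have rA3 := rk_ge_three hC hB hAE hA4
  have rB3 := rk_ge_three hC hB hBE hB4
  have hcA := cA.1
  have hnA := cA.2
  have hcB := cB.1
  have hnB := cB.2
  have a1 : rk v A + 1 ≤ s + bA → h + (bA + 1) / 2 ≤ rk v A := by
    intro h1
    have := sub_ineq hC hB hAE (by omega) (by omega)
    rw [hcA, hnA] at this
    have e : s + 2 * bA - (s + bA) = bA := by omega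
    rwa [e] at this
  have a2 : rk v A + 2 ≤ s + bA → h + 1 + bA / 2 ≤ rk v A := by
    intro h1
    have := sub_merge hC hB hAE (by omega) (by omega)
    rw [hcA, hnA] at this
    have e : s + 2 * bA - (s + bA) = bA := by omega
    rwa [e] at this
  have b1 : rk v B + 1 ≤ s + 1 + bB → h + (bB + 1) / 2 ≤ rk v B := by
    intro h1
    have := sub_ineq hC hB hBE (by omega) (by omega)
    rw [hcB, hnB] at this
    have e : s + 1 + 2 * bB - (s + 1 + bB) = bB := by omega
    rwa [e] at this
  have b2 : rk v B + 2 ≤ s + 1 + bB → h + 1 + bB / 2 ≤ rk v B := by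
    intro h1
    have := sub_merge hC hB hBE (by omega) (by omega)
    rw [hcB, hnB] at this
    have e : s + 1 + 2 * bB - (s + 1 + bB) = bB := by omega
    rwa [e] at this
  have key := num3 (h := h) (bA := bA) (bB := bB) (s := s) (rA := rk v A) (rB := rk v B)
    (by omega) (by omega) rA3 rB3 (by omega) (by omega) a1 a2 b1 b2
  rcases key with ⟨k1, k2, k3⟩ | ⟨k1, k2, k3⟩ | ⟨k1, k2, k3⟩ | ⟨k1, k2⟩ | ⟨k1, k2, k3⟩
  · subst k1
    exact case013 hC hP cA cB (by omega) (hs0 rfl) k2 k3 (by omega) (by omega)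
  · subst k1
    exact case022 hC hP cA cB (by omega) (hs0 rfl) k2 k3 (by omega) (by omega)
  · subst k1
    obtain ⟨p, hp, q, hq, hpq, hu, cA0, cB0⟩ := hs1 rfl
    obtain ⟨g1, g2⟩ := hg p hp q hq hpq
    have zmem : z ∈ span ℚ ({x, y} : Set V) := by
      rw [hP.sA.eq_z]
      exact sub_mem (neg_mem (subset_span (by simp))) (subset_span (by simp))
    have hw : ∀ w' : V, w' ∉ span ℚ ({x, y} : Set V) →
        ∀ w ∈ ({x, y, z} : Set V), LinearIndependent ℚ ![w', w] := by
      intro w' hw' w hw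
      simp only [Set.mem_insert_iff, Set.mem_singleton_iff] at hw
      rcases hw with rfl | rfl | rfl
      · exact li_of_not_mem hP.sA.ne_x (subset_span (by simp)) hw'
      · exact li_of_not_mem hP.sA.ne_y (subset_span (by simp)) hw'
      · exact li_of_not_mem hP.sA.ne_z zmem hw'
    rcases Nat.mod_two_eq_zero_or_one bA with hpar | hpar
    · exact case1even hC hP hp hq hpq hu cA cB cA0 cB0 (by omega) k2 k3 (hw _ g1) (hw _ g2)
        (by omega) (by omega) hpar
    · exact case1odd hC hP hp hq hpq hu cA cB cA0 cB0 (by omega) k2 k3 (hw _ g1) (hw _ g2)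
        (by omega) (by omega) hpar
  · exact quadA hC hB hP.hU hP.hd hP.he hP.sA hP.sB.memx hP.sB.memy (by omega) (by omega)
      (by omega)
  · exact quadB hC hB hP.hU hP.hd hP.he hP.sB hP.sA.memx hP.sA.memy (by omega) (hfull k3)
      (by omega) (by omega)

end RC
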