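import Pool.Agent.Helper59.RC.Defs

/-!
Separation step for short rainbow circuits in regular matroids (MP_2ac654): definitions.
Guide: `/team-store/helper73_RCS_Guide.md`.
-/

namespace RC

open Submodule Module

/-- `w` lies in the span of a rainbow subset of `S` with at most `k` elements. -/
def Spn {ι κ V : Type} [AddCommGroup V] [Module ℚ V] (v : ι → V) (c : ι → κ)
    (S : Finset ι) (w : V) (k : ℕ) : Prop :=
  ∃ T : Finset ι, T ⊆ S ∧ T.card ≤ k ∧ Set.InjOn c (T : Set ι) ∧
    w ∈ span ℚ (v '' (T : Set ι))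

/-- The bound `bd` in terms of the number `a` of singles and the number `b` of pairs. -/
def bb (a b : ℕ) : ℕ := if a = 0 then (b + 1) / 2 else a + b / 2

theorem bd_eq_bb (a b : ℕ) : bd (a + b) (a + 2 * b) = bb a b := by
  unfold bd bb
  split_ifs <;> omega

/-- The triangle `x, y, z` (with `x + y + z = 0`) of a separation, seen from the side `X`. -/
structure Side (C : ClsT) {ι V : Type} [AddCommGroup V] [Module ℚ V] (v : ι → V)
    (X : Finset ι) (x y z : V) : Prop where
  sum : x + y + z = 0
  li : LinearIndependent ℚ ![x, y]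
  cls : C V (v '' (X : Set ι) ∪ {x, y, z})
  memx : x ∈ span ℚ (v '' (X : Set ι))
  memy : y ∈ span ℚ (v '' (X : Set ι))

/-- The numbers belonging to a piece `S`: it contains `b` full colour classes of size two and
`a` classes with one element. -/
def Cnt {ι κ : Type} (c : ι → κ) (S : Finset ι) (a b : ℕ) : Prop :=
  S.card = a + 2 * b ∧ nc c S = a + b

theorem Spn.mono {ι κ V : Type} [AddCommGroup V] [Module ℚ V] {v : ι → V} {c : ι → κ}
    {S S' : Finset ι} {w : V} {k k' : ℕ} (h : Spn v c S w k) (hS : S ⊆ S') (hk : k ≤ k') :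
    Spn v c S' w k' := by
  obtain ⟨T, h1, h2, h3, h4⟩ := h
  exact ⟨T, h1.trans hS, h2.trans hk, h3, h4⟩

theorem Spn.neg {ι κ V : Type} [AddCommGroup V] [Module ℚ V] {v : ι → V} {c : ι → κ}
    {S : Finset ι} {w : V} {k : ℕ} (h : Spn v c S w k) : Spn v c S (-w) k := by
  obtain ⟨T, h1, h2, h3, h4⟩ := h
  exact ⟨T, h1, h2, h3, neg_mem h4⟩

theorem rk_mono {ι V : Type} [AddCommGroup V] [Module ℚ V] (v : ι → V) {S T : Finset ι}
    (h : S ⊆ T) : rk v S ≤ rk v T := by
  unfold rk
  have : span ℚ (v '' (S : Set ι)) ≤ span ℚ (v '' (T : Set ι)) :=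
    span_mono (Set.image_mono (by exact_mod_cast h))
  have hf : FiniteDimensional ℚ (span ℚ (v '' (T : Set ι))) :=
    FiniteDimensional.span_of_finite ℚ ((Finset.finite_toSet T).image v)
  exact LinearMap.finrank_le_finrank_of_injective (Submodule.inclusion_injective this)

end RC
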