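import Pool.Agent.Helper73.RCS.Sub

/-!
RCS-6 (adding gadget vectors to a piece of the bad system).

`S ⊆ E` has `u` colours with one element and `b` colours with two elements.  `j : V → W` is injective
on the span of `S`; `g 0, …, g (k-1)` are further vectors of `W`, `g i` gets the colour `γ i`, which is
either an old colour `Sum.inl q` of an element `a` which is alone in `S` with this colour, or one of
`m` new colours.

Proof: put `ι' = ι ⊕ Fin k`, `v' = Sum.elim (j ∘ v) g`, `c' = Sum.elim (Sum.inl ∘ c) γ`,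
`E' = S.disjSum Finset.univ`.  Then `E'.card = u + 2 b + k`, `nc c' E' = u + b + m` (by `h1` the
colours `Sum.inl q` of gadgets are colours of elements of `S`, by `h3` all `m` new colours occur).
`Sys C v' c' E'`: `cls` is `hcls` (`v' '' E' = j '' (v '' S) ∪ range g`), `ne` from `hB.sys.ne`, `hj` and
`hg`, `two` from `hB.sys.two`, `h1`, `h1'`, `h2` (two gadgets with the same colour have a new colour),
`par` from `hB.sys.par` and `hj` (injective on the span preserves independence), `h1`, `h1'`, `rank` is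
`hr`.  By `hB.ih` there is a rainbow dependent `T' ⊆ E'` with at most `bd ..` elements.  Let `T` be the
part of `T'` in `ι`, `G` the part in `Fin k`.  A nontrivial relation
`∑ e ∈ T, α e • j (v e) = ∑ i ∈ G, β i • g i` (put `β i = 0` for `i ∉ G`).  If `β = 0` then
`j (∑ α e • v e) = 0`, so `∑ α e • v e = 0` and `T` is dependent, rainbow (for `c`), with at most
`h` elements: contradiction to `hB.short`.  So `β ≠ 0` and `y = ∑ α e • v e` is as wanted.
-/

namespace RC

open Submodule Module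

variable {C : ClsT} {ι κ V : Type} [AddCommGroup V] [Module ℚ V] {h : ℕ}
  {v : ι → V} {c : ι → κ} {E : Finset ι} {e0 : ι}

theorem ext_lemma (hB : Bad C h v c E e0) {S : Finset ι} (hS : S ⊆ E)
    {W : Type} [AddCommGroup W] [Module ℚ W] (j : V →ₗ[ℚ] W)
    (hj : ∀ y ∈ span ℚ (v '' (S : Set ι)), j y = 0 → y = 0)
    {k m u b : ℕ} (hcnt : Cnt c S u b) (g : Fin k → W) (γ : Fin k → κ ⊕ Fin m)
    (hcls : C W (j '' (v '' (S : Set ι)) ∪ Set.range g))
    (hg : ∀ i, g i ≠ 0)
    (h1 : ∀ i q, γ i = Sum.inl q → ∃ a ∈ S, c a = q ∧ (∀ e ∈ S, c e = q → e = a) ∧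
      LinearIndependent ℚ ![j (v a), g i])
    (h1' : ∀ i i', i ≠ i' → γ i = γ i' → (∃ t, γ i = Sum.inr t) ∧
      LinearIndependent ℚ ![g i, g i'])
    (h2 : ∀ i i' i'', γ i = γ i' → γ i = γ i'' → i = i' ∨ i = i'' ∨ i' = i'')
    (h3 : ∀ t, ∃ i, γ i = Sum.inr t)
    (hr : finrank ℚ (span ℚ (j '' (v '' (S : Set ι)) ∪ Set.range g)) + 1 ≤ u + b + m)
    (hn : u + b + m < 2 * h)
    (hbd : bd (u + b + m) (u + 2 * b + k) ≤ h) :
    ∃ (T : Finset ι) (β : Fin k → ℚ) (y : V), T ⊆ S ∧ Set.InjOn c (T : Set ι) ∧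
      T.card + (Finset.univ.filter fun i => β i ≠ 0).card ≤ bd (u + b + m) (u + 2 * b + k) ∧
      (∃ i, β i ≠ 0) ∧
      (∀ i i', β i ≠ 0 → β i' ≠ 0 → γ i = γ i' → i = i') ∧
      (∀ i, β i ≠ 0 → ∀ e ∈ T, γ i ≠ Sum.inl (c e)) ∧
      y ∈ span ℚ (v '' (T : Set ι)) ∧ j y = ∑ i, β i • g i := by
  classical
  let v' : ι ⊕ Fin k → W := Sum.elim (fun e => j (v e)) g
  let c' : ι ⊕ Fin k → κ ⊕ Fin m := Sum.elim (fun e => Sum.inl (c e)) γ
  let E' : Finset (ι ⊕ Fin k) := S.disjSum Finset.univ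
  have hcard : E'.card = u + 2 * b + k := by
    simp only [E', Finset.card_disjSum, Finset.card_univ, Fintype.card_fin, hcnt.1]
  have himg : E'.image c' = (S.image c).disjSum (Finset.univ : Finset (Fin m)) := by
    ext x
    rcases x with q | t
    · simp only [Finset.mem_image, E', Finset.inl_mem_disjSum]
      constructor
      · rintro ⟨y, hy, hyq⟩
        rcases y with e | i
        · exact ⟨e, Finset.inl_mem_disjSum.1 hy, Sum.inl_injective hyq⟩
        · obtain ⟨a, ha, haq, -⟩ := h1 i q hyq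
          exact ⟨a, ha, haq⟩
      · rintro ⟨e, he, rfl⟩
        exact ⟨Sum.inl e, Finset.inl_mem_disjSum.2 he, rfl⟩
    · simp only [Finset.mem_image, E', Finset.inr_mem_disjSum, Finset.mem_univ, iff_true]
      obtain ⟨i, hi⟩ := h3 t
      exact ⟨Sum.inr i, Finset.inr_mem_disjSum.2 (Finset.mem_univ _), hi⟩
  have hnc : nc c' E' = u + b + m := by
    have h4 : (E'.image c').card = u + b + m := by
      rw [himg, Finset.card_disjSum, Finset.card_univ, Fintype.card_fin, ← hcnt.2,
        nc_image]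
    rw [← h4]
    exact nc_image _ _
  have hset : v' '' (E' : Set (ι ⊕ Fin k)) = j '' (v '' (S : Set ι)) ∪ Set.range g := by
    ext x
    constructor
    · rintro ⟨y, hy, rfl⟩
      rcases y with e | i
      · exact Or.inl ⟨v e, ⟨e, Finset.inl_mem_disjSum.1 (Finset.mem_coe.1 hy), rfl⟩, rfl⟩
      · exact Or.inr ⟨i, rfl⟩
    · rintro (⟨_, ⟨e, he, rfl⟩, rfl⟩ | ⟨i, rfl⟩)
      · exact ⟨Sum.inl e, Finset.mem_coe.2 (Finset.inl_mem_disjSum.2 he), rfl⟩
      · exact ⟨Sum.inr i, Finset.mem_coe.2 (Finset.inr_mem_disjSum.2 (Finset.mem_univ _)), rfl⟩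
  have hvS : ∀ e ∈ S, v e ∈ span ℚ (v '' (S : Set ι)) := fun e he =>
    subset_span ⟨e, Finset.mem_coe.2 he, rfl⟩
  have hpar1 : ∀ a ∈ S, ∀ i, γ i = Sum.inl (c a) → LinearIndependent ℚ ![j (v a), g i] := by
    intro a ha i hi
    obtain ⟨a0, ha0, -, huniq, hli⟩ := h1 i (c a) hi
    have h4 := huniq a ha rfl
    rw [h4]
    exact hli
  have hdup : ∀ i i', γ i = γ i' → ∀ q, γ i = Sum.inl q → i = i' := by
    intro i i' hii q hq
    by_contra hne
    obtain ⟨⟨t, ht⟩, -⟩ := h1' i i' hne hii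
    rw [hq] at ht
    cases ht
  have hold : ∀ a ∈ S, ∀ a' ∈ S, ∀ i, γ i = Sum.inl (c a) → c a' = c a → a = a' := by
    intro a ha a' ha' i hi haa
    obtain ⟨a0, ha0, -, huniq, -⟩ := h1 i (c a) hi
    rw [huniq a ha rfl, huniq a' ha' haa]
  have hsys : Sys C v' c' E' := by
    refine ⟨?_, ?_, ?_, ?_, ?_⟩
    · rw [hset]
      exact hcls
    · intro x hx hx0
      rcases x with e | i
      · have he : e ∈ S := Finset.inl_mem_disjSum.1 hx
        exact hB.sys.ne e (hS he) (hj _ (hvS e he) hx0)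
      · exact hg i hx0
    · intro x hx y hy z hz hxy hxz
      rcases x with e | i <;> rcases y with e' | i' <;> rcases z with e'' | i''
      · have he : e ∈ S := Finset.inl_mem_disjSum.1 hx
        have he' : e' ∈ S := Finset.inl_mem_disjSum.1 hy
        have he'' : e'' ∈ S := Finset.inl_mem_disjSum.1 hz
        have h4 := hB.sys.two e (hS he) e' (hS he') e'' (hS he'') (Sum.inl_injective hxy)
          (Sum.inl_injective hxz)
        rcases h4 with h4 | h4 | h4
        · exact Or.inl (by rw [h4])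
        · exact Or.inr (Or.inl (by rw [h4]))
        · exact Or.inr (Or.inr (by rw [h4]))
      · have he : e ∈ S := Finset.inl_mem_disjSum.1 hx
        have he' : e' ∈ S := Finset.inl_mem_disjSum.1 hy
        left
        rw [hold e he e' he' i'' hxz.symm (Sum.inl_injective hxy).symm]
      · have he : e ∈ S := Finset.inl_mem_disjSum.1 hx
        have he'' : e'' ∈ S := Finset.inl_mem_disjSum.1 hz
        right; left
        rw [hold e he e'' he'' i' hxy.symm (Sum.inl_injective hxz).symm]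
      · right; right
        rw [hdup i' i'' ((hxy.symm.trans hxz)) (c e) hxy.symm]
      · have he' : e' ∈ S := Finset.inl_mem_disjSum.1 hy
        have he'' : e'' ∈ S := Finset.inl_mem_disjSum.1 hz
        right; right
        rw [hold e' he' e'' he'' i hxy (Sum.inl_injective (hxy.symm.trans hxz)).symm]
      · right; left
        rw [hdup i i'' hxz (c e') hxy]
      · left
        rw [hdup i i' hxy (c e'') hxz]
      · have h4 := h2 i i' i'' hxy hxz
        rcases h4 with h4 | h4 | h4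
        · exact Or.inl (by rw [h4])
        · exact Or.inr (Or.inl (by rw [h4]))
        · exact Or.inr (Or.inr (by rw [h4]))
    · intro x hx y hy hxy hne
      rcases x with e | i <;> rcases y with e' | i'
      · have he : e ∈ S := Finset.inl_mem_disjSum.1 hx
        have he' : e' ∈ S := Finset.inl_mem_disjSum.1 hy
        have h4 := hB.sys.par e (hS he) e' (hS he') (Sum.inl_injective hxy)
          (fun h5 => hne (by rw [h5]))
        rw [LinearIndependent.pair_iff] at h4 ⊢
        intro s t hst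
        apply h4
        apply hj
        · exact Submodule.add_mem _ (Submodule.smul_mem _ _ (hvS e he))
            (Submodule.smul_mem _ _ (hvS e' he'))
        · rw [map_add, map_smul, map_smul]
          exact hst
      · have he : e ∈ S := Finset.inl_mem_disjSum.1 hx
        exact hpar1 e he i' hxy.symm
      · have he' : e' ∈ S := Finset.inl_mem_disjSum.1 hy
        exact LinearIndependent.pair_symm_iff.1 (hpar1 e' he' i hxy)
      · exact (h1' i i' (fun h5 => hne (by rw [h5])) hxy).2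
    · rw [hnc]
      unfold rk
      rw [hset]
      exact hr
  obtain ⟨T', hTE, hTc, hTi, hTd⟩ := hB.ih (u + b + m) hn (ι ⊕ Fin k) (κ ⊕ Fin m) W v' c' E' hsys
    hnc
  rw [hcard] at hTc
  rw [linearIndepOn_finset_iff] at hTd
  push Not at hTd
  obtain ⟨f, hf, x0, hx0, hfx0⟩ := hTd
  have hsum : ∑ x ∈ T', f x • v' x = ∑ e ∈ T'.toLeft, f (Sum.inl e) • j (v e) +
      ∑ i ∈ T'.toRight, f (Sum.inr i) • g i := by
    conv_lhs => rw [← Finset.toLeft_disjSum_toRight (u := T')]
    rw [Finset.sum_disjSum]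
    rfl
  have hTS : T'.toLeft ⊆ S := by
    intro e he
    exact Finset.inl_mem_disjSum.1 (hTE (Finset.mem_toLeft.1 he))
  have hci : Set.InjOn c (T'.toLeft : Set ι) := by
    intro e he e' he' hee
    have h4 := hTi (Finset.mem_coe.2 (Finset.mem_toLeft.1 (Finset.mem_coe.1 he)))
      (Finset.mem_coe.2 (Finset.mem_toLeft.1 (Finset.mem_coe.1 he')))
      (show Sum.inl (c e) = Sum.inl (c e') by rw [hee])
    exact Sum.inl_injective h4
  have hcardT : T'.toLeft.card + T'.toRight.card = T'.card :=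
    Finset.card_toLeft_add_card_toRight
  let β : Fin k → ℚ := fun i => if i ∈ T'.toRight then - f (Sum.inr i) else 0
  have hβG : ∀ i, β i ≠ 0 → i ∈ T'.toRight := by
    intro i hi
    by_contra hno
    exact hi (if_neg hno)
  have hβsum : ∑ i, β i • g i = - ∑ i ∈ T'.toRight, f (Sum.inr i) • g i := by
    rw [← Finset.sum_subset (Finset.subset_univ T'.toRight) (f := fun i => β i • g i)]
    · rw [← Finset.sum_neg_distrib]
      refine Finset.sum_congr rfl fun i hi => ?_
      simp only [β, if_pos hi, neg_smul]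
    · intro i _ hi
      simp only [β, if_neg hi, zero_smul]
  have hjy : j (∑ e ∈ T'.toLeft, f (Sum.inl e) • v e) = ∑ i, β i • g i := by
    rw [map_sum, hβsum, eq_neg_iff_add_eq_zero, ← hf, hsum]
    congr 1
    exact Finset.sum_congr rfl fun e _ => by rw [map_smul]
  have hyT : ∑ e ∈ T'.toLeft, f (Sum.inl e) • v e ∈ span ℚ (v '' (T'.toLeft : Set ι)) :=
    Submodule.sum_mem _ fun e he => Submodule.smul_mem _ _ (subset_span ⟨e, he, rfl⟩)
  refine ⟨T'.toLeft, β, ∑ e ∈ T'.toLeft, f (Sum.inl e) • v e, hTS, hci, ?_, ?_, ?_, ?_, hyT, hjy⟩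
  · have h4 : (Finset.univ.filter fun i => β i ≠ 0).card ≤ T'.toRight.card :=
      Finset.card_le_card fun i hi => hβG i (Finset.mem_filter.1 hi).2
    omega
  · by_contra hno
    push Not at hno
    have hj0 : j (∑ e ∈ T'.toLeft, f (Sum.inl e) • v e) = 0 := by
      rw [hjy]
      exact Finset.sum_eq_zero fun i _ => by rw [hno i, zero_smul]
    have hy0 : ∑ e ∈ T'.toLeft, f (Sum.inl e) • v e = 0 :=
      hj _ (span_mono (Set.image_mono (Finset.coe_subset.2 hTS)) hyT) hj0
    apply hB.short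
    refine ⟨T'.toLeft, hTS.trans hS, by omega, hci, ?_⟩
    intro hli
    rw [linearIndepOn_finset_iff] at hli
    have h4 := hli (fun e => f (Sum.inl e)) hy0
    apply hfx0
    rcases x0 with e | i
    · exact h4 e (Finset.mem_toLeft.2 hx0)
    · have h5 := hno i
      simp only [β, if_pos (Finset.mem_toRight.2 hx0), neg_eq_zero] at h5
      exact h5
  · intro i i' hi hi' hii
    have h4 := hTi (Finset.mem_coe.2 (Finset.mem_toRight.1 (hβG i hi)))
      (Finset.mem_coe.2 (Finset.mem_toRight.1 (hβG i' hi'))) (show γ i = γ i' from hii)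
    exact Sum.inr_injective h4
  · intro i hi e he hie
    have h4 := hTi (Finset.mem_coe.2 (Finset.mem_toRight.1 (hβG i hi)))
      (Finset.mem_coe.2 (Finset.mem_toLeft.1 he)) (show γ i = Sum.inl (c e) from hie)
    cases h4

/-- The version with gadgets in `V`: all gadget vectors are in a set `Y` inside the span of
`X ⊇ S`, and `X` together with `Y` is in the class.  From `ext_lemma` with `j` the identity,
`hC.mono`, and `finrank ≤ rk v X` since the span of `v '' S ∪ range g` is contained in the span of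
`v '' X`. -/
theorem ext_id (hC : Cls C) (hB : Bad C h v c E e0) {S X : Finset ι} (hS : S ⊆ X) (hX : X ⊆ E)
    {Y : Set V} (hcls : C V (v '' (X : Set ι) ∪ Y)) (hY : Y ⊆ span ℚ (v '' (X : Set ι)))
    {k m u b : ℕ} (hcnt : Cnt c S u b) (g : Fin k → V) (γ : Fin k → κ ⊕ Fin m)
    (hgY : ∀ i, g i ∈ Y) (hg : ∀ i, g i ≠ 0)
    (h1 : ∀ i q, γ i = Sum.inl q → ∃ a ∈ S, c a = q ∧ (∀ e ∈ S, c e = q → e = a) ∧
      LinearIndependent ℚ ![v a, g i])
    (h1' : ∀ i i', i ≠ i' → γ i = γ i' → (∃ t, γ i = Sum.inr t) ∧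
      LinearIndependent ℚ ![g i, g i'])
    (h2 : ∀ i i' i'', γ i = γ i' → γ i = γ i'' → i = i' ∨ i = i'' ∨ i' = i'')
    (h3 : ∀ t, ∃ i, γ i = Sum.inr t)
    (hr : rk v X + 1 ≤ u + b + m)
    (hn : u + b + m < 2 * h)
    (hbd : bd (u + b + m) (u + 2 * b + k) ≤ h) :
    ∃ (T : Finset ι) (β : Fin k → ℚ), T ⊆ S ∧ Set.InjOn c (T : Set ι) ∧
      T.card + (Finset.univ.filter fun i => β i ≠ 0).card ≤ bd (u + b + m) (u + 2 * b + k) ∧
      (∃ i, β i ≠ 0) ∧
      (∀ i i', β i ≠ 0 → β i' ≠ 0 → γ i = γ i' → i = i') ∧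
      (∀ i, β i ≠ 0 → ∀ e ∈ T, γ i ≠ Sum.inl (c e)) ∧
      ∑ i, β i • g i ∈ span ℚ (v '' (T : Set ι)) := by
  have hsub : (LinearMap.id : V →ₗ[ℚ] V) '' (v '' (S : Set ι)) ∪ Set.range g ⊆
      (span ℚ (v '' (X : Set ι)) : Set V) := by
    rintro x (⟨_, ⟨e, he, rfl⟩, rfl⟩ | ⟨i, rfl⟩)
    · exact subset_span ⟨e, Finset.mem_coe.2 (hS he), rfl⟩
    · exact hY (hgY i)
  have hfin : finrank ℚ (span ℚ ((LinearMap.id : V →ₗ[ℚ] V) '' (v '' (S : Set ι)) ∪
      Set.range g)) ≤ rk v X := by
    unfold rk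
    have hle : span ℚ ((LinearMap.id : V →ₗ[ℚ] V) '' (v '' (S : Set ι)) ∪ Set.range g) ≤
        span ℚ (v '' (X : Set ι)) := span_le.2 hsub
    have hf : FiniteDimensional ℚ (span ℚ (v '' (X : Set ι))) :=
      FiniteDimensional.span_of_finite ℚ ((Finset.finite_toSet X).image v)
    exact LinearMap.finrank_le_finrank_of_injective (Submodule.inclusion_injective hle)
  obtain ⟨T, β, y, hT, hi, hc, hne, hinj, hnew, hy, hjy⟩ :=
    ext_lemma hB (hS.trans hX) (LinearMap.id : V →ₗ[ℚ] V) (fun y _ hy => hy) hcnt g γ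
      (by
        refine hC.mono hcls ?_
        rintro x (⟨_, ⟨e, he, rfl⟩, rfl⟩ | ⟨i, rfl⟩)
        · exact Or.inr (Or.inl (Or.inl ⟨e, Finset.mem_coe.2 (hS he), rfl⟩))
        · exact Or.inr (Or.inl (Or.inr (hgY i))))
      hg (fun i q hq => h1 i q hq) h1' h2 h3 (by omega) hn hbd
  refine ⟨T, β, hT, hi, hc, hne, hinj, hnew, ?_⟩
  rw [← hjy]
  exact hy

end RC
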