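import Pool.Agent.Helper73.RCS.Defs

/-!
RCS-2 (the guts line of a separation).  `x + y + z = 0`, `x, y` independent, `X ∪ {x, y, z}`
unimodular.

span_line: if the span of `T ⊆ X` contains a nonzero vector `w` of `span {x, y}`, then it contains
`x`, `y` or `z`.  Proof: suppose not.  Then `span T ⊓ span {x, y} = span {w}`.  Write
`w = ∑ a ∈ t, k a • a` with `t` a finite linearly independent subset of `T` and all `k a ≠ 0`, pick
`a0 ∈ t`, and `w = α • x + β • y`.  The set `t \ {a0} ∪ {x, y}` is linearly independent (a relation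
`u + γ x + δ y = 0` gives `γ x + δ y ∈ span T`, so it is a multiple of `w`; if not zero then
`w ∈ span (t \ {a0})`, contradiction), in particular `x, y ∉ t`.  Since
`a0 = (α / k0) x + (β / k0) y - ∑ (k a / k0) a ∈ X`, `α / k0` and `β / k0` are in `0, 1, -1`.  With the
independent set `t \ {a0} ∪ {x, z}` (same span) and `α x + β y = (α - β) x - β z` also
`(α - β) / k0` is in `0, 1, -1`.  So `α = 0` (then `y ∈ span T`) or `β = 0` (`x ∈ span T`) or `α = β`
(`z ∈ span T`).

guts: `w ∈ X`, `w ≠ 0`, `w ∈ span {x, y}` is `x, y, z` or the negative of one of them: the same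
computation with `w = α x + β y` and the sets `{x, y}`, `{x, z}`.
-/

namespace RC

open Submodule Module

variable {V : Type} [AddCommGroup V] [Module ℚ V]

private theorem h93_pair_zero {p q : V} (li : LinearIndependent ℚ ![p, q]) {a b : ℚ}
    (h : a • p + b • q = 0) : a = 0 ∧ b = 0 :=
  LinearIndependent.pair_iff.1 li a b h

private theorem h93_li_xz {x y z : V} (hs : x + y + z = 0)
    (li : LinearIndependent ℚ ![x, y]) : LinearIndependent ℚ ![x, z] := by
  have hz : z = -x - y := by
    have h1 : z = (x + y + z) - x - y := by abel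
    rw [h1, hs]
    abel
  refine LinearIndependent.pair_iff.2 fun a b h => ?_
  have h2 : (a - b) • x + (-b) • y = 0 := by
    rw [← h, hz]
    module
  obtain ⟨h3, h4⟩ := h93_pair_zero li h2
  have hb : b = 0 := by linarith
  exact ⟨by linarith, hb⟩

/-- The computation with two independent vectors outside the span of `T`. -/
private theorem h93_core {Y : Set V} {p q : V} (hX : Uni Y) (hp : p ∈ Y) (hq : q ∈ Y)
    {T : Set V} (hT : T ⊆ Y) (t : Finset V) (ht : (t : Set V) ⊆ T)
    (hli : LinearIndepOn ℚ id (t : Set V)) (k : V → ℚ) {a0 : V} (ha0 : a0 ∈ t)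
    (hk0 : k a0 ≠ 0) {w : V} (hw0 : w ≠ 0) (hw : ∑ a ∈ t, k a • a = w) {α β : ℚ}
    (hpq : w = α • p + β • q) (hpT : p ∉ span ℚ T) (hqT : q ∉ span ℚ T)  :
    (α / k a0 = 0 ∨ α / k a0 = 1 ∨ α / k a0 = -1) ∧
      (β / k a0 = 0 ∨ β / k a0 = 1 ∨ β / k a0 = -1) := by
  classical
  set s0 : Finset V := t.erase a0 with hs0
  have hins : insert a0 s0 = t := Finset.insert_erase ha0
  have ha0s : a0 ∉ s0 := Finset.notMem_erase a0 t
  have hwT : w ∈ span ℚ T := by
    rw [← hw]
    exact Submodule.sum_mem _ fun a ha => Submodule.smul_mem _ _ (subset_span (ht ha))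
  have hs0T : span ℚ (s0 : Set V) ≤ span ℚ T :=
    span_mono fun a ha => ht (Finset.mem_of_mem_erase ha)
  have hsum : k a0 • a0 + ∑ a ∈ s0, k a • a = w := by
    rw [← hw, ← hins, Finset.sum_insert ha0s]
  have hliI : LinearIndepOn ℚ id (insert a0 (s0 : Set V)) := by
    rw [← Finset.coe_insert, hins]
    exact hli
  have ha0sp : a0 ∉ span ℚ (s0 : Set V) := by
    have h1 := (linearIndepOn_id_insert (K := ℚ) (s := (s0 : Set V)) (x := a0)
      (by exact_mod_cast ha0s)).1 hliI
    exact h1.2
  have hs0li : LinearIndepOn ℚ id (s0 : Set V) := hliI.mono (Set.subset_insert _ _)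
  have hs0sum : ∑ a ∈ s0, k a • a ∈ span ℚ (s0 : Set V) :=
    Submodule.sum_mem _ fun a ha => Submodule.smul_mem _ _ (subset_span ha)
  have hwns : w ∉ span ℚ (s0 : Set V) := by
    intro h
    apply ha0sp
    have h2 : a0 = (k a0)⁻¹ • (w - ∑ a ∈ s0, k a • a) := by
      rw [← hsum, add_sub_cancel_right, smul_smul, inv_mul_cancel₀ hk0, one_smul]
    rw [h2]
    exact Submodule.smul_mem _ _ (Submodule.sub_mem _ h hs0sum)
  have hqs : q ∉ s0 := fun h => hqT (hs0T (subset_span h))
  have hqsp : q ∉ span ℚ (s0 : Set V) := fun h => hqT (hs0T h)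
  have hpsp : p ∉ span ℚ (insert q (s0 : Set V)) := by
    intro h
    obtain ⟨γ, u, hu, hpu⟩ := Submodule.mem_span_insert.1 h
    have hr : u ∈ span ℚ T := hs0T hu
    have h3 : (γ * α + β) • p ∈ span ℚ T := by
      have h4 : (γ * α + β) • p = γ • w + β • u := by
        have h5 : u = p - γ • q := by
          rw [hpu]
          abel
        rw [h5, hpq]
        module
      rw [h4]
      exact Submodule.add_mem _ (Submodule.smul_mem _ _ hwT) (Submodule.smul_mem _ _ hr)
    have h6 : γ * α + β = 0 := by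
      by_contra hne
      apply hpT
      have h7 := Submodule.smul_mem _ (γ * α + β)⁻¹ h3
      rwa [smul_smul, inv_mul_cancel₀ hne, one_smul] at h7
    apply hwns
    have h8 : w = α • u := by
      have h5 : u = p - γ • q := by
        rw [hpu]
        abel
      have h9 : β = -(γ * α) := by linarith
      rw [h5, hpq, h9]
      module
    rw [h8]
    exact Submodule.smul_mem _ _ hu
  have hpq' : p ∉ insert q s0 := by
    intro h
    apply hpsp
    apply subset_span
    exact_mod_cast h
  have hli2 : LinearIndepOn ℚ id ((insert p (insert q s0) : Finset V) : Set V) := by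
    rw [Finset.coe_insert, Finset.coe_insert]
    refine (linearIndepOn_id_insert (by
      rw [← Finset.coe_insert]
      exact_mod_cast hpq')).2 ⟨?_, hpsp⟩
    exact (linearIndepOn_id_insert (by exact_mod_cast hqs)).2 ⟨hs0li, hqsp⟩
  let c : V → ℚ := fun v => if v = p then α / k a0 else if v = q then β / k a0
    else -(k v / k a0)
  have hqp : q ≠ p := by
    rintro rfl
    exact hpq' (Finset.mem_insert_self _ _)
  have hcp : c p = α / k a0 := by simp [c]
  have hcq : c q = β / k a0 := by simp [c, hqp]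
  have hcs : ∑ a ∈ insert p (insert q s0), c a • a = a0 := by
    rw [Finset.sum_insert hpq', Finset.sum_insert hqs, hcp, hcq]
    have h1 : ∑ a ∈ s0, c a • a = -((k a0)⁻¹ • ∑ a ∈ s0, k a • a) := by
      rw [Finset.smul_sum, ← Finset.sum_neg_distrib]
      refine Finset.sum_congr rfl fun a ha => ?_
      have hap : a ≠ p := by
        rintro rfl
        exact hpq' (Finset.mem_insert_of_mem ha)
      have haq : a ≠ q := by
        rintro rfl
        exact hqs ha
      simp only [c, hap, haq, if_false]
      rw [smul_smul, ← neg_smul]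
      congr 1
      ring
    rw [h1]
    have h2 : ∑ a ∈ s0, k a • a = w - k a0 • a0 := by
      rw [← hsum]
      abel
    rw [h2, hpq, smul_sub, smul_smul, inv_mul_cancel₀ hk0, one_smul]
    rw [div_eq_mul_inv, div_eq_mul_inv]
    module
  have hsub : ((insert p (insert q s0) : Finset V) : Set V) ⊆ Y := by
    intro v hv
    rw [Finset.mem_coe, Finset.mem_insert, Finset.mem_insert] at hv
    rcases hv with rfl | rfl | hv
    · exact hp
    · exact hq
    · exact hT (ht (Finset.mem_of_mem_erase hv))
  have ha0Y : a0 ∈ Y := hT (ht ha0)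
  have hfin := hX (insert p (insert q s0)) c hsub hli2 (by rw [hcs]; exact ha0Y)
  have e1 := hfin p (Finset.mem_insert_self _ _)
  have e2 := hfin q (Finset.mem_insert_of_mem (Finset.mem_insert_self _ _))
  rw [hcp] at e1
  rw [hcq] at e2
  exact ⟨e1, e2⟩

private theorem h93_cases {a b : ℚ} (ha : a = 0 ∨ a = 1 ∨ a = -1) (hb : b = 0 ∨ b = 1 ∨ b = -1)
    (hab : a - b = 0 ∨ a - b = 1 ∨ a - b = -1) : a = 0 ∨ b = 0 ∨ a = b := by
  rcases ha with rfl | rfl | rfl
  · left; rfl
  · rcases hb with rfl | rfl | rfl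
    · right; left; rfl
    · right; right; rfl
    · norm_num at hab
  · rcases hb with rfl | rfl | rfl
    · right; left; rfl
    · norm_num at hab
    · right; right; rfl

/-- The coordinates of a vector of `X` with respect to an independent pair. -/
private theorem h93_pair {Y : Set V} {p q : V} (hX : Uni Y) (hp : p ∈ Y) (hq : q ∈ Y)
    (li : LinearIndependent ℚ ![p, q]) {w : V} (hw : w ∈ Y) {α β : ℚ}
    (hpq : w = α • p + β • q) :
    (α = 0 ∨ α = 1 ∨ α = -1) ∧ (β = 0 ∨ β = 1 ∨ β = -1) := by
  classical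
  have hne : p ≠ q := by
    rintro rfl
    have := h93_pair_zero li (a := 1) (b := -1) (by module)
    exact one_ne_zero this.1
  have hq0 : q ≠ 0 := by
    rintro rfl
    have := h93_pair_zero li (a := 0) (b := 1) (by module)
    exact one_ne_zero this.2
  let c : V → ℚ := fun v => if v = p then α else β
  have hcp : c p = α := by simp [c]
  have hcq : c q = β := by simp [c, hne.symm]
  have hli2 : LinearIndepOn ℚ id (({p, q} : Finset V) : Set V) := by
    rw [Finset.coe_insert, Finset.coe_singleton]
    refine (linearIndepOn_id_insert (by simpa using hne)).2 ⟨?_, ?_⟩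
    · exact (linearIndepOn_singleton_iff ℚ).2 hq0
    · intro h
      obtain ⟨g, hg⟩ := Submodule.mem_span_singleton.1 h
      have := h93_pair_zero li (a := 1) (b := -g) (by rw [← hg]; module)
      exact one_ne_zero this.1
  have hcs : ∑ a ∈ ({p, q} : Finset V), c a • a = w := by
    rw [Finset.sum_pair hne, hcp, hcq, hpq]
  have hsub : (({p, q} : Finset V) : Set V) ⊆ Y := by
    intro v hv
    rw [Finset.mem_coe, Finset.mem_insert, Finset.mem_singleton] at hv
    rcases hv with rfl | rfl
    · exact hp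
    · exact hq
  have hfin := hX {p, q} c hsub hli2 (by rw [hcs]; exact hw)
  have e1 := hfin p (by simp)
  have e2 := hfin q (by simp)
  rw [hcp] at e1
  rw [hcq] at e2
  exact ⟨e1, e2⟩

theorem span_line {X : Set V} {x y z : V} (hX : Uni (X ∪ {x, y, z})) (hs : x + y + z = 0)
    (li : LinearIndependent ℚ ![x, y]) {T : Set V} (hT : T ⊆ X) {w : V} (hw : w ∈ span ℚ T)
    (hw' : w ∈ span ℚ ({x, y} : Set V)) (hw0 : w ≠ 0) :
    x ∈ span ℚ T ∨ y ∈ span ℚ T ∨ z ∈ span ℚ T := by
  classical
  by_contra hcon
  push Not at hcon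
  obtain ⟨hx, hy, hz⟩ := hcon
  have hzeq : z = -x - y := by
    have h1 : z = (x + y + z) - x - y := by abel
    rw [h1, hs]
    abel
  -- a finite independent subset with nonzero coefficients
  obtain ⟨T', hT'T, hwT'⟩ := Submodule.mem_span_finite_of_mem_span hw
  obtain ⟨b, hbT', hbspan, hbli⟩ := exists_linearIndependent ℚ (T' : Set V)
  have hbfin : b.Finite := (Finset.finite_toSet T').subset hbT'
  have hwb : w ∈ span ℚ b := by
    rw [hbspan]
    exact hwT'
  have hwb' : w ∈ span ℚ ((hbfin.toFinset : Finset V) : Set V) := by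
    rw [Set.Finite.coe_toFinset]
    exact hwb
  obtain ⟨k, -, hk⟩ := Submodule.mem_span_finset.1 hwb'
  set t : Finset V := hbfin.toFinset.filter (fun a => k a ≠ 0) with htdef
  have htb : (t : Set V) ⊆ b := by
    intro a ha
    have h1 : a ∈ hbfin.toFinset := (Finset.mem_filter.1 (Finset.mem_coe.1 ha)).1
    exact hbfin.mem_toFinset.1 h1
  have htT : (t : Set V) ⊆ T := fun a ha => hT'T (hbT' (htb ha))
  have hsumt : ∑ a ∈ t, k a • a = w := by
    rw [← hk, htdef]
    refine Finset.sum_filter_of_ne fun a _ ha h0 => ha ?_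
    rw [h0, zero_smul]
  have htli : LinearIndepOn ℚ id (t : Set V) := by
    have h1 : LinearIndepOn ℚ id b := hbli
    exact h1.mono htb
  have htne : t.Nonempty := by
    rw [Finset.nonempty_iff_ne_empty]
    intro h0
    apply hw0
    rw [← hsumt, h0, Finset.sum_empty]
  obtain ⟨a0, ha0⟩ := htne
  have hk0 : k a0 ≠ 0 := (Finset.mem_filter.1 ha0).2
  obtain ⟨α, β, hαβ⟩ := Submodule.mem_span_pair.1 hw'
  have hTY : T ⊆ X ∪ {x, y, z} := fun a ha => Or.inl (hT ha)
  have hxY : x ∈ X ∪ {x, y, z} := Or.inr (by simp)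
  have hyY : y ∈ X ∪ {x, y, z} := Or.inr (by simp)
  have hzY : z ∈ X ∪ {x, y, z} := Or.inr (by simp)
  obtain ⟨e1, e2⟩ := h93_core hX hxY hyY hTY t htT htli k ha0 hk0 hw0 hsumt hαβ.symm hx hy
  have hαβ2 : w = (α - β) • x + (-β) • z := by
    rw [← hαβ, hzeq]
    module
  obtain ⟨e3, -⟩ := h93_core hX hxY hzY hTY t htT htli k ha0 hk0 hw0 hsumt hαβ2 hx hz
  rw [sub_div] at e3
  rcases h93_cases e1 e2 e3 with h | h | h
  · have hα : α = 0 := by
      rcases div_eq_zero_iff.1 h with h' | h'
      · exact h'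
      · exact absurd h' hk0
    have hwy : w = β • y := by rw [← hαβ, hα, zero_smul, zero_add]
    have hβ : β ≠ 0 := by
      rintro rfl
      exact hw0 (by rw [hwy, zero_smul])
    apply hy
    have h7 := Submodule.smul_mem _ β⁻¹ hw
    rwa [hwy, smul_smul, inv_mul_cancel₀ hβ, one_smul] at h7
  · have hβ : β = 0 := by
      rcases div_eq_zero_iff.1 h with h' | h'
      · exact h'
      · exact absurd h' hk0
    have hwx : w = α • x := by rw [← hαβ, hβ, zero_smul, add_zero]
    have hα : α ≠ 0 := by
      rintro rfl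
      exact hw0 (by rw [hwx, zero_smul])
    apply hx
    have h7 := Submodule.smul_mem _ α⁻¹ hw
    rwa [hwx, smul_smul, inv_mul_cancel₀ hα, one_smul] at h7
  · have hαβe : α = β := by
      have := congrArg (fun r => r * k a0) h
      simpa [div_mul_cancel₀ _ hk0] using this
    have hwz : w = (-α) • z := by
      rw [← hαβ, hzeq, ← hαβe]
      module
    have hα : -α ≠ 0 := by
      intro h0
      exact hw0 (by rw [hwz, h0, zero_smul])
    apply hz
    have h7 := Submodule.smul_mem _ (-α)⁻¹ hw
    rwa [hwz, smul_smul, inv_mul_cancel₀ hα, one_smul] at h7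

theorem guts {X : Set V} {x y z : V} (hX : Uni (X ∪ {x, y, z})) (hs : x + y + z = 0)
    (li : LinearIndependent ℚ ![x, y]) {w : V} (hw : w ∈ X) (hw' : w ∈ span ℚ ({x, y} : Set V))
    (hw0 : w ≠ 0) :
    (w = x ∨ w = y ∨ w = z) ∨ (w = -x ∨ w = -y ∨ w = -z) := by
  have hzeq : z = -x - y := by
    have h1 : z = (x + y + z) - x - y := by abel
    rw [h1, hs]
    abel
  obtain ⟨α, β, hαβ⟩ := Submodule.mem_span_pair.1 hw'
  have hwY : w ∈ X ∪ {x, y, z} := Or.inl hw
  have hxY : x ∈ X ∪ {x, y, z} := Or.inr (by simp)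
  have hyY : y ∈ X ∪ {x, y, z} := Or.inr (by simp)
  have hzY : z ∈ X ∪ {x, y, z} := Or.inr (by simp)
  obtain ⟨e1, e2⟩ := h93_pair hX hxY hyY li hwY hαβ.symm
  have hαβ2 : w = (α - β) • x + (-β) • z := by
    rw [← hαβ, hzeq]
    module
  obtain ⟨e3, -⟩ := h93_pair hX hxY hzY (h93_li_xz hs li) hwY hαβ2
  rcases h93_cases e1 e2 e3 with rfl | rfl | rfl
  · have hwy : w = β • y := by rw [← hαβ, zero_smul, zero_add]
    rcases e2 with rfl | rfl | rfl
    · exact absurd (by rw [hwy, zero_smul]) hw0
    · left; right; left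
      rw [hwy, one_smul]
    · right; right; left
      rw [hwy, neg_smul, one_smul]
  · have hwx : w = α • x := by rw [← hαβ, zero_smul, add_zero]
    rcases e1 with rfl | rfl | rfl
    · exact absurd (by rw [hwx, zero_smul]) hw0
    · left; left
      rw [hwx, one_smul]
    · right; left
      rw [hwx, neg_smul, one_smul]
  · have hwz : w = (-α) • z := by
      rw [← hαβ, hzeq]
      module
    rcases e1 with rfl | rfl | rfl
    · exact absurd (by rw [hwz, neg_zero, zero_smul]) hw0
    · right; right; right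
      rw [hwz, neg_smul, one_smul]
    · left; right; right
      rw [hwz, neg_neg, one_smul]

end RC
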