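import Mathlib

/-!
Numerical part of the separation step.
-/

namespace RC

/-- Separations with intersection of dimension 0. -/
theorem num1 {h bA bB s rA rB : ℕ} (hbb : bA + bB + s + 1 = 2 * h) (hr : rA + rB + 1 = 2 * h)
    (h1 : 1 ≤ rA) (h2 : 1 ≤ rB)
    (a1 : rA + 1 ≤ s + bA → h + (bA + 1) / 2 ≤ rA)
    (a2 : rA + 2 ≤ s + bA → h + 1 + bA / 2 ≤ rA)
    (b1 : rB + 1 ≤ s + 1 + bB → h + (bB + 1) / 2 ≤ rB)
    (b2 : rB + 2 ≤ s + 1 + bB → h + 1 + bB / 2 ≤ rB) : False := by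
  omega

/-- Separations with intersection of dimension 1. -/
theorem num2 {h bA bB s rA rB : ℕ} (hbb : bA + bB + s + 1 = 2 * h) (hr : rA + rB = 2 * h)
    (h1 : 2 ≤ rA) (h2 : 2 ≤ rB)
    (a1 : rA + 1 ≤ s + bA → h + (bA + 1) / 2 ≤ rA)
    (a2 : rA + 2 ≤ s + bA → h + 1 + bA / 2 ≤ rA)
    (b1 : rB + 1 ≤ s + 1 + bB → h + (bB + 1) / 2 ≤ rB)
    (b2 : rB + 2 ≤ s + 1 + bB → h + 1 + bB / 2 ≤ rB) :
    s = 0 ∧ rA = bA ∧ rB = bB + 1 := by
  omega

/-- Separations with intersection of dimension 2. -/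
theorem num3 {h bA bB s rA rB : ℕ} (hbb : bA + bB + s + 1 = 2 * h) (hr : rA + rB = 2 * h + 1)
    (h1 : 3 ≤ rA) (h2 : 3 ≤ rB) (cA : 4 ≤ s + 2 * bA) (cB : 4 ≤ s + 1 + 2 * bB)
    (a1 : rA + 1 ≤ s + bA → h + (bA + 1) / 2 ≤ rA)
    (a2 : rA + 2 ≤ s + bA → h + 1 + bA / 2 ≤ rA)
    (b1 : rB + 1 ≤ s + 1 + bB → h + (bB + 1) / 2 ≤ rB)
    (b2 : rB + 2 ≤ s + 1 + bB → h + 1 + bB / 2 ≤ rB) :
    (s = 0 ∧ rA = bA ∧ rB = bB + 2) ∨ (s = 0 ∧ rA = bA + 1 ∧ rB = bB + 1) ∨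
      (s = 1 ∧ rA = bA + 1 ∧ rB = bB + 2) ∨ (s + 2 * bA = 4 ∧ rA = 3) ∨
      (s + 1 + 2 * bB = 4 ∧ rB = 3 ∧ bB = 0) := by
  by_cases c1 : rA + 2 ≤ s + bA
  · have a2' := a2 c1
    have a1' := a1 (by omega)
    clear a1 a2
    by_cases c2 : rB + 2 ≤ s + 1 + bB
    · have b2' := b2 c2
      clear b1 b2
      omega
    · by_cases c3 : rB + 1 ≤ s + 1 + bB
      · have b1' := b1 c3
        clear b1 b2
        omega
      · clear b1 b2
        omega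
  · by_cases c4 : rA + 1 ≤ s + bA
    · have a1' := a1 c4
      clear a1 a2
      by_cases c2 : rB + 2 ≤ s + 1 + bB
      · have b2' := b2 c2
        clear b1 b2
        omega
      · by_cases c3 : rB + 1 ≤ s + 1 + bB
        · have b1' := b1 c3
          clear b1 b2
          omega
        · clear b1 b2
          omega
    · clear a1 a2
      by_cases c2 : rB + 2 ≤ s + 1 + bB
      · have b2' := b2 c2
        clear b1 b2
        omega
      · by_cases c3 : rB + 1 ≤ s + 1 + bB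
        · have b1' := b1 c3
          clear b1 b2
          omega
        · clear b1 b2
          omega

end RC
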