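import Pool.Agent.Helper73.RCS.Sides

/-!
A partition of the bad system along a triangle, and its symmetries.
-/

namespace RC

open Submodule Module

/-- A partition `A, B` of the bad system (`e0 ∈ B`) with a triangle `x, y, z` in both spans. -/
structure Part (C : ClsT) (h : ℕ) {ι κ V : Type} [DecidableEq ι] [AddCommGroup V] [Module ℚ V]
    (v : ι → V) (c : ι → κ) (E : Finset ι) (e0 : ι) (A B : Finset ι) (x y z : V) : Prop where
  bad : Bad C h v c E e0
  hU : A ∪ B = E
  hd : Disjoint A B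
  he : e0 ∈ B
  sA : Side C v A x y z
  sB : Side C v B x y z

variable {C : ClsT} {ι κ V : Type} [DecidableEq ι] [AddCommGroup V] [Module ℚ V] {h : ℕ}
  {v : ι → V} {c : ι → κ} {E A B : Finset ι} {e0 : ι} {x y z : V}

theorem Part.rot (hP : Part C h v c E e0 A B x y z) : Part C h v c E e0 A B y z x :=
  ⟨hP.bad, hP.hU, hP.hd, hP.he, hP.sA.rot, hP.sB.rot⟩

theorem Part.swap (hP : Part C h v c E e0 A B x y z) : Part C h v c E e0 A B y x z :=
  ⟨hP.bad, hP.hU, hP.hd, hP.he, hP.sA.swap, hP.sB.swap⟩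

theorem Part.subA (hP : Part C h v c E e0 A B x y z) : A ⊆ E := by
  rw [← hP.hU]; exact Finset.subset_union_left

theorem Part.subB (hP : Part C h v c E e0 A B x y z) : B ⊆ E := by
  rw [← hP.hU]; exact Finset.subset_union_right

theorem two_of_three {α : Type} {P : α → Prop} {x y z : α} (h1 : P x ∨ P y) (h2 : P y ∨ P z)
    (h3 : P z ∨ P x) : (P x ∧ P y) ∨ (P y ∧ P z) ∨ (P z ∧ P x) := by
  tauto

end RC
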